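import Pool.Agent.Helper31.SQ.Defs

/-! Project SQ: Fourier coefficients on finite abelian groups and the domination relation. -/

open Finset

namespace Pool.Agent.Helper31.SQ

variable {G : Type*} [AddCommGroup G] [Fintype G]

lemma card_ne (G : Type*) [AddCommGroup G] [Fintype G] : ((Fintype.card G : ℕ) : ℂ) ≠ 0 := by
  exact_mod_cast Fintype.card_ne_zero

theorem cf_inv (f : G → ℂ) (x : G) : f x = ∑ ψ : AddChar G ℂ, cf f ψ * ψ x := by
  classical
  have h1 : ∑ ψ : AddChar G ℂ, cf f ψ * ψ x =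
      ∑ y, f y * (∑ ψ : AddChar G ℂ, ψ (x - y)) / (Fintype.card G : ℂ) := by
    unfold cf
    simp_rw [Finset.sum_div, Finset.sum_mul, Finset.mul_sum, Finset.sum_div]
    rw [Finset.sum_comm]
    refine Finset.sum_congr rfl fun y _ => Finset.sum_congr rfl fun ψ _ => ?_
    rw [sub_eq_add_neg, AddChar.map_add_eq_mul]
    ring
  rw [h1]
  simp_rw [AddChar.sum_apply_eq_ite, sub_eq_zero]
  have hc := card_ne G
  rw [Finset.sum_eq_single x]
  · simp
  · intro y _ hy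
    simp [Ne.symm hy]
  · simp

theorem cf_char (φ ψ : AddChar G ℂ) : cf (fun x => φ x) ψ = if φ = ψ then 1 else 0 := by
  classical
  have hc := card_ne G
  unfold cf
  have : ∑ x : G, φ x * ψ (-x) = ∑ x : G, (φ - ψ) x := by
    refine Finset.sum_congr rfl fun x _ => ?_
    rw [AddChar.sub_apply]
  rw [this, AddChar.sum_eq_ite]
  by_cases h : φ = ψ
  · simp [h, hc]
  · have h' : φ - ψ ≠ 0 := sub_ne_zero.mpr h
    simp [h, h']

theorem cf_add (f g : G → ℂ) (ψ : AddChar G ℂ) : cf (fun x => f x + g x) ψ = cf f ψ + cf g ψ := by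
  unfold cf
  simp_rw [add_mul, Finset.sum_add_distrib, add_div]

theorem cf_smul (c : ℂ) (f : G → ℂ) (ψ : AddChar G ℂ) :
    cf (fun x => c * f x) ψ = c * cf f ψ := by
  unfold cf
  simp_rw [mul_assoc, ← Finset.mul_sum, mul_div_assoc]

theorem cf_sum {κ : Type*} (I : Finset κ) (f : κ → G → ℂ) (ψ : AddChar G ℂ) :
    cf (fun x => ∑ i ∈ I, f i x) ψ = ∑ i ∈ I, cf (f i) ψ := by
  classical
  unfold cf
  simp_rw [Finset.sum_mul]
  rw [Finset.sum_comm, Finset.sum_div]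

theorem sum_cf (g : G → ℂ) : ∑ ψ : AddChar G ℂ, cf g ψ = g 0 := by
  rw [cf_inv g 0]
  simp

theorem cf_mul (f g : G → ℂ) (ψ : AddChar G ℂ) :
    cf (fun x => f x * g x) ψ = ∑ φ : AddChar G ℂ, cf f φ * cf g (ψ - φ) := by
  classical
  have h1 : cf (fun x => f x * g x) ψ =
      cf (fun x => ∑ φ : AddChar G ℂ, (cf f φ * φ x) * g x) ψ := by
    congr 1
    funext x
    rw [← Finset.sum_mul, ← cf_inv]
  rw [h1, cf_sum]
  refine Finset.sum_congr rfl fun φ _ => ?_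
  have : (fun x => cf f φ * φ x * g x) = fun x => cf f φ * (φ x * g x) := by
    funext x; ring
  rw [this, cf_smul]
  congr 1
  unfold cf
  congr 1
  refine Finset.sum_congr rfl fun x _ => ?_
  rw [AddChar.sub_apply, neg_neg]
  ring

namespace Dom

theorem re_nonneg {f g : G → ℂ} (h : Dom f g) (ψ : AddChar G ℂ) : 0 ≤ (cf g ψ).re :=
  (norm_nonneg _).trans (h ψ).1

theorem mul {f₁ f₂ g₁ g₂ : G → ℂ} (h₁ : Dom f₁ g₁) (h₂ : Dom f₂ g₂) :
    Dom (fun x => f₁ x * f₂ x) (fun x => g₁ x * g₂ x) := by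
  classical
  intro ψ
  rw [cf_mul, cf_mul]
  have him : ∀ φ : AddChar G ℂ, (cf g₁ φ * cf g₂ (ψ - φ)) =
      (((cf g₁ φ).re * (cf g₂ (ψ - φ)).re : ℝ) : ℂ) := by
    intro φ
    apply Complex.ext
    · simp [(h₁ φ).2]
    · simp [(h₁ φ).2, (h₂ (ψ - φ)).2]
  simp_rw [him]
  rw [← Complex.ofReal_sum]
  refine ⟨?_, Complex.ofReal_im _⟩
  rw [Complex.ofReal_re]
  refine (norm_sum_le _ _).trans (Finset.sum_le_sum fun φ _ => ?_)
  rw [norm_mul]
  exact mul_le_mul (h₁ φ).1 (h₂ _).1 (norm_nonneg _) (h₁.re_nonneg φ)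

theorem add {f₁ f₂ g₁ g₂ : G → ℂ} (h₁ : Dom f₁ g₁) (h₂ : Dom f₂ g₂) :
    Dom (fun x => f₁ x + f₂ x) (fun x => g₁ x + g₂ x) := by
  intro ψ
  rw [cf_add, cf_add]
  refine ⟨(norm_add_le _ _).trans ?_, by simp [(h₁ ψ).2, (h₂ ψ).2]⟩
  rw [Complex.add_re]
  exact add_le_add (h₁ ψ).1 (h₂ ψ).1

theorem lin {κ : Type*} (I : Finset κ) (c : κ → ℂ) (a : κ → ℝ) (f g : κ → G → ℂ)
    (hc : ∀ i ∈ I, ‖c i‖ ≤ a i) (h : ∀ i ∈ I, Dom (f i) (g i)) :
    Dom (fun x => ∑ i ∈ I, c i * f i x) (fun x => ∑ i ∈ I, (a i : ℂ) * g i x) := by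
  classical
  intro ψ
  rw [cf_sum, cf_sum]
  simp_rw [cf_smul]
  constructor
  · rw [Complex.re_sum]
    refine (norm_sum_le _ _).trans (Finset.sum_le_sum fun i hi => ?_)
    rw [norm_mul, Complex.re_ofReal_mul]
    exact mul_le_mul (hc i hi) (h i hi ψ).1 (norm_nonneg _) ((norm_nonneg _).trans (hc i hi))
  · rw [Complex.im_sum]
    refine Finset.sum_eq_zero fun i hi => ?_
    rw [Complex.im_ofReal_mul, (h i hi ψ).2, mul_zero]

theorem one : Dom (fun _ : G => (1 : ℂ)) (fun _ => 1) := by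
  classical
  intro ψ
  have h := cf_char (0 : AddChar G ℂ) ψ
  have h0 : (fun x : G => (0 : AddChar G ℂ) x) = fun _ => (1 : ℂ) := by funext x; simp
  rw [h0] at h
  rw [h]
  split_ifs <;> simp

theorem prod {κ : Type*} (I : Finset κ) (f g : κ → G → ℂ) (h : ∀ i ∈ I, Dom (f i) (g i)) :
    Dom (fun x => ∏ i ∈ I, f i x) (fun x => ∏ i ∈ I, g i x) := by
  classical
  induction I using Finset.induction_on with
  | empty => simpa using one
  | insert a s ha ih =>
    simp_rw [Finset.prod_insert ha]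
    exact mul (h a (mem_insert_self _ _)) (ih fun i hi => h i (mem_insert_of_mem hi))

theorem smul {f g : G → ℂ} (h : Dom f g) (c : ℂ) (a : ℝ) (hc : ‖c‖ ≤ a) :
    Dom (fun x => c * f x) (fun x => (a : ℂ) * g x) := by
  have := lin (G := G) ({()} : Finset Unit) (fun _ => c) (fun _ => a) (fun _ => f) (fun _ => g)
    (fun _ _ => hc) (fun _ _ => h)
  simpa using this

theorem comp {H : Type*} [AddCommGroup H] [Fintype H] (π : G →+ H)
    {f g : H → ℂ} (h : Dom f g) : Dom (fun x => f (π x)) (fun x => g (π x)) := by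
  classical
  have key : ∀ (f : H → ℂ) (ψ : AddChar G ℂ), cf (fun x => f (π x)) ψ =
      ∑ φ : AddChar H ℂ, cf f φ * (if φ.compAddMonoidHom π = ψ then 1 else 0) := by
    intro f ψ
    have h1 : (fun x => f (π x)) = fun x => ∑ φ : AddChar H ℂ, cf f φ * (φ.compAddMonoidHom π) x := by
      funext x
      rw [cf_inv f (π x)]
      rfl
    rw [h1, cf_sum]
    refine Finset.sum_congr rfl fun φ _ => ?_
    rw [cf_smul, cf_char]
  intro ψ
  rw [key, key]
  constructor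
  · rw [Complex.re_sum]
    refine (norm_sum_le _ _).trans (Finset.sum_le_sum fun φ _ => ?_)
    split_ifs
    · simpa using (h φ).1
    · simp
  · rw [Complex.im_sum]
    refine Finset.sum_eq_zero fun φ _ => ?_
    split_ifs
    · simpa using (h φ).2
    · simp

theorem zero_val {f g : G → ℂ} (h : Dom f g) :
    (∑ ψ : AddChar G ℂ, (cf g ψ).re) = (g 0).re ∧ (g 0).im = 0 := by
  rw [← sum_cf g, Complex.re_sum, Complex.im_sum]
  exact ⟨rfl, Finset.sum_eq_zero fun ψ _ => (h ψ).2⟩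

/-- Comparison of a discrete average with the mean. -/
theorem transfer {κ : Type*} (I : Finset κ) (x : κ → G) (hI : I.Nonempty) {f g : G → ℂ}
    (h : Dom f g) : ‖(∑ i ∈ I, f (x i)) / (I.card : ℂ) - cf f 0‖ ≤
      ∑ ψ ∈ univ.erase (0 : AddChar G ℂ), (cf g ψ).re * ‖(∑ i ∈ I, ψ (x i)) / (I.card : ℂ)‖ := by
  classical
  have hc : (I.card : ℂ) ≠ 0 := by
    exact_mod_cast (Finset.card_pos.mpr hI).ne'
  have h1 : (∑ i ∈ I, f (x i)) / (I.card : ℂ) =
      ∑ ψ : AddChar G ℂ, cf f ψ * ((∑ i ∈ I, ψ (x i)) / (I.card : ℂ)) := by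
    have : ∑ i ∈ I, f (x i) = ∑ i ∈ I, ∑ ψ : AddChar G ℂ, cf f ψ * ψ (x i) :=
      Finset.sum_congr rfl fun i _ => cf_inv f (x i)
    rw [this, Finset.sum_comm, Finset.sum_div]
    refine Finset.sum_congr rfl fun ψ _ => ?_
    rw [← Finset.mul_sum, mul_div_assoc]
  rw [h1, ← Finset.add_sum_erase univ _ (mem_univ (0 : AddChar G ℂ))]
  have h2 : cf f 0 * ((∑ i ∈ I, (0 : AddChar G ℂ) (x i)) / (I.card : ℂ)) = cf f 0 := by
    simp [hc]
  rw [h2, add_sub_cancel_left]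
  refine (norm_sum_le _ _).trans (Finset.sum_le_sum fun ψ _ => ?_)
  rw [norm_mul]
  exact mul_le_mul_of_nonneg_right (h ψ).1 (norm_nonneg _)

end Dom

end Pool.Agent.Helper31.SQ
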