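import Pool.Agent.Helper31.SQ.Defs
import Pool.Agent.Helper31.SQ.Four

/-! Project SQ (MP_d5570f_nt), piece Arc.

Unions of arcs `arcs n w C` in `ZMod n` (`C` = set of end points, `w` = length) and the majorant
`om n` of their Fourier coefficients.

PROOFS.
* `arcs_card`: `Finset.card_biUnion_le`, `Finset.card_image_le`.
* `cf_om`: the coefficient of `om n` at `ψ` is `1` for `ψ = 0` and `2 / (n ‖1 - ψ 1‖)` otherwise
  (orthogonality: `∑ x, φ x * ψ (-x) = n` if `φ = ψ` and `0` otherwise, use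
  `AddChar.sum_eq_ite` for the character `φ - ψ`, or `AddChar.sum_eq_zero_of_ne_one`).
* `arcs_dom`: write `E = arcs n w C`, `c(ψ) = ∑ x ∈ E, ψ (-x)`, so `cf 1_E ψ = c(ψ)/n`.
  For `ψ = 0`: `‖c(0)/n‖ = #E/n ≤ 1 ≤ K` (if `C = ∅` it is `0`).
  For `ψ ≠ 0`: `(1 - ψ (-1)) c(ψ) = ∑_y (1_E(y) - 1_E(y - 1)) ψ (-y)` (shift the sum of
  `ψ(-x-1)`), and `1_E(y) ≠ 1_E(y-1)` happens for at most `2 #C` values `y`: if `y - 1 ∈ E`, `y ∉ E`
  then `y - 1 = c - m - 1` with `m = 0` (otherwise `y = c - (m-1) - 1 ∈ E`), so `y = c`, `c ∈ C`;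
  if `y ∈ E`, `y - 1 ∉ E` then `y = c - m - 1` with `m = w - 1` (otherwise `y - 1 ∈ E`),
  so `y = c - w`, `c ∈ C`. Hence `‖c(ψ)‖ ≤ 2 K / ‖1 - ψ 1‖`; note `‖1 - ψ (-1)‖ = ‖1 - ψ 1‖`
  (complex conjugates), which is nonzero because `ψ 1 = 1` implies `ψ = 0`
  (`ψ x = ψ 1 ^ x.val`).
* `om_zero`: `om n 0 = 1 + ∑_{ψ ≠ 0} 2/(n ‖1 - ψ 1‖)`; every `ψ` is `x ↦ ZMod.stdAddChar (k * x)`
  for a unique `k` (`AddChar.zmodAddEquiv`, or `ψ 1` is an `n`-th root of unity), so `ψ 1 = e(k/n)`,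
  `0 < k < n`, and `‖1 - e(k/n)‖ = 2 sin(π k/n) ≥ 4 min(k, n-k)/n`
  (Jordan: `Real.mul_le_sin : 2/π x ≤ sin x` on `[0, π/2]`), so the sum is at most
  `∑_{k=1}^{n-1} 1/(2 min(k, n-k)) ≤ ∑_{k=1}^{n-1} (1/(2k) + 1/(2(n-k))) = ∑_{k=1}^{n-1} 1/k
  ≤ 1 + log n` (`harmonic_le_one_add_log`). The constant is not important.
-/

open Finset

namespace Pool.Agent.Helper31.SQ

theorem arcs_card (n w : ℕ) (C : Finset (ZMod n)) : (arcs n w C).card ≤ w * C.card := by
  unfold arcs
  refine (Finset.card_biUnion_le).trans ?_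
  have h : ∀ c ∈ C, ((range w).image (fun m : ℕ => c - ((m : ℕ) : ZMod n) - 1)).card ≤ w := by
    intro c _
    exact (Finset.card_image_le).trans (by simp)
  refine (Finset.sum_le_sum h).trans ?_
  simp [mul_comm]

theorem cf_om (n : ℕ) [NeZero n] (ψ : AddChar (ZMod n) ℂ) :
    cf (om n) ψ = (((if ψ = 0 then 1 else 2 / (n * ‖1 - ψ 1‖)) : ℝ) : ℂ) := by
  classical
  have h : om n = fun x => ∑ φ ∈ (univ : Finset (AddChar (ZMod n) ℂ)),
      (((if φ = 0 then 1 else 2 / (n * ‖1 - φ 1‖)) : ℝ) : ℂ) * φ x := rfl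
  rw [h, cf_sum]
  simp_rw [cf_smul, cf_char]
  rw [Finset.sum_eq_single ψ]
  · simp
  · intro φ _ hφ
    simp [hφ]
  · simp

theorem arcq_eq_zero (n : ℕ) [NeZero n] (ψ : AddChar (ZMod n) ℂ) (h : ψ 1 = 1) : ψ = 0 := by
  ext x
  have hx : x = x.val • (1 : ZMod n) := by simp
  rw [hx, AddChar.map_nsmul_eq_pow, h]
  simp

theorem arcq_norm_neg (n : ℕ) [NeZero n] (ψ : AddChar (ZMod n) ℂ) :
    ‖1 - ψ (-1)‖ = ‖1 - ψ 1‖ := by
  rw [AddChar.map_neg_eq_conj]
  have : (1 : ℂ) - (starRingEnd ℂ) (ψ 1) = (starRingEnd ℂ) (1 - ψ 1) := by simp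
  rw [this, RCLike.norm_conj]

theorem arcq_pos (n : ℕ) [NeZero n] (ψ : AddChar (ZMod n) ℂ) (h : ψ ≠ 0) : 0 < ‖1 - ψ 1‖ := by
  rw [norm_pos_iff]
  intro h0
  apply h
  exact arcq_eq_zero n ψ (sub_eq_zero.1 h0).symm

theorem arcq_change (n w : ℕ) (C : Finset (ZMod n)) (y : ZMod n)
    (h : ¬ (y ∈ arcs n w C ↔ y - 1 ∈ arcs n w C)) :
    y ∈ C ∪ C.image (fun c => c - ((w : ℕ) : ZMod n)) := by
  classical
  unfold arcs at h
  simp only [Finset.mem_biUnion, Finset.mem_image, Finset.mem_range] at h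
  rw [Finset.mem_union, Finset.mem_image]
  by_cases hy : ∃ a ∈ C, ∃ m < w, a - ((m : ℕ) : ZMod n) - 1 = y
  · have h2 : ¬ ∃ a ∈ C, ∃ m < w, a - ((m : ℕ) : ZMod n) - 1 = y - 1 := by
      intro h3
      exact h ⟨fun _ => h3, fun _ => hy⟩
    obtain ⟨c, hc, m, hm, he⟩ := hy
    right
    refine ⟨c, hc, ?_⟩
    have hmw : m + 1 = w := by
      by_contra hne
      apply h2
      refine ⟨c, hc, m + 1, by omega, ?_⟩
      rw [← he]
      push_cast
      ring
    rw [← he, ← hmw]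
    push_cast
    ring
  · have h3 : ∃ a ∈ C, ∃ m < w, a - ((m : ℕ) : ZMod n) - 1 = y - 1 := by
      by_contra h3
      exact h ⟨fun h4 => absurd h4 hy, fun h4 => absurd h4 h3⟩
    obtain ⟨c, hc, m, hm, he⟩ := h3
    left
    have hm0 : m = 0 := by
      by_contra hne
      apply hy
      refine ⟨c, hc, m - 1, by omega, ?_⟩
      have : ((m - 1 : ℕ) : ZMod n) = (m : ZMod n) - 1 := by
        rw [Nat.cast_sub (by omega)]
        simp
      rw [this]
      have h5 : c - (m : ZMod n) = y := by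
        have := congrArg (· + 1) he
        simpa using this
      rw [← h5]
      ring
    subst hm0
    have h5 : c = y := by
      have := congrArg (· + 1) he
      simpa using this
    rw [← h5]
    exact hc

theorem arcs_dom (n w K : ℕ) [NeZero n] (C : Finset (ZMod n)) (hC : C.card ≤ K) (hK : 1 ≤ K) :
    Dom (fun x : ZMod n => if x ∈ arcs n w C then (1 : ℂ) else 0)
      (fun x => (K : ℂ) * om n x) := by
  classical
  intro ψ
  rw [cf_smul, cf_om]
  have hn : (0 : ℝ) < n := by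
    have := NeZero.pos n
    exact_mod_cast this
  have him : ((K : ℂ) * ((((if ψ = 0 then 1 else 2 / (n * ‖1 - ψ 1‖)) : ℝ)) : ℂ)).re =
      (K : ℝ) * (if ψ = 0 then 1 else 2 / (n * ‖1 - ψ 1‖)) := by
    rw [← Complex.ofReal_natCast, ← Complex.ofReal_mul, Complex.ofReal_re]
  refine ⟨?_, ?_⟩
  swap
  · rw [← Complex.ofReal_natCast, ← Complex.ofReal_mul, Complex.ofReal_im]
  rw [him]
  have hKr : (1 : ℝ) ≤ K := by exact_mod_cast hK
  set E := arcs n w C with hE
  by_cases hψ : ψ = 0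
  · subst hψ
    simp only [if_true, mul_one]
    unfold cf
    rw [norm_div]
    have h1 : ‖∑ x : ZMod n, (if x ∈ E then (1 : ℂ) else 0) * (0 : AddChar (ZMod n) ℂ) (-x)‖ ≤
        n := by
      refine (norm_sum_le _ _).trans ?_
      have : ∀ x ∈ (univ : Finset (ZMod n)),
          ‖(if x ∈ E then (1 : ℂ) else 0) * (0 : AddChar (ZMod n) ℂ) (-x)‖ ≤ 1 := by
        intro x _
        rw [norm_mul, AddChar.norm_apply, mul_one]
        split_ifs <;> simp
      refine (Finset.sum_le_sum this).trans ?_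
      simp [ZMod.card]
    have h2 : ‖((Fintype.card (ZMod n) : ℕ) : ℂ)‖ = n := by
      rw [ZMod.card]
      simp
    rw [h2, div_le_iff₀ hn]
    calc _ ≤ (n : ℝ) := h1
      _ = 1 * n := by ring
      _ ≤ K * n := by gcongr
  · rw [if_neg hψ]
    have hpos := arcq_pos n ψ hψ
    unfold cf
    set S := ∑ x : ZMod n, (if x ∈ E then (1 : ℂ) else 0) * ψ (-x) with hS
    have hshift : ∑ x : ZMod n, (if x ∈ E then (1 : ℂ) else 0) * ψ (-x - 1) =
        ∑ x : ZMod n, (if x - 1 ∈ E then (1 : ℂ) else 0) * ψ (-x) := by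
      refine (Fintype.sum_equiv (Equiv.subRight (1 : ZMod n)) _ _ ?_).symm
      intro x
      simp only [Equiv.subRight_apply]
      congr 2
      ring
    have hmul : (1 - ψ (-1)) * S =
        ∑ x : ZMod n, ((if x ∈ E then (1 : ℂ) else 0) - (if x - 1 ∈ E then (1 : ℂ) else 0)) *
          ψ (-x) := by
      simp_rw [sub_mul]
      rw [Finset.sum_sub_distrib, ← hshift, one_mul, hS, Finset.mul_sum]
      congr 1
      refine Finset.sum_congr rfl fun x _ => ?_
      rw [sub_eq_add_neg (-x) 1, AddChar.map_add_eq_mul]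
      ring
    have hle : ‖(1 - ψ (-1)) * S‖ ≤ 2 * K := by
      rw [hmul]
      refine (norm_sum_le _ _).trans ?_
      have hsup : ∀ x ∈ (univ : Finset (ZMod n)),
          ‖((if x ∈ E then (1 : ℂ) else 0) - (if x - 1 ∈ E then (1 : ℂ) else 0)) * ψ (-x)‖ ≤
            if x ∈ C ∪ C.image (fun c => c - ((w : ℕ) : ZMod n)) then (1 : ℝ) else 0 := by
        intro x _
        rw [norm_mul, AddChar.norm_apply, mul_one]
        by_cases hx : (x ∈ E ↔ x - 1 ∈ E)
        · have h0 : (if x ∈ E then (1 : ℂ) else 0) - (if x - 1 ∈ E then (1 : ℂ) else 0) = 0 := by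
            by_cases h1 : x ∈ E
            · have h2 := hx.1 h1
              rw [if_pos h1, if_pos h2, sub_self]
            · have h2 : ¬ x - 1 ∈ E := fun h3 => h1 (hx.2 h3)
              rw [if_neg h1, if_neg h2, sub_self]
          rw [h0, norm_zero]
          split_ifs <;> norm_num
        · rw [if_pos (arcq_change n w C x hx)]
          by_cases h1 : x ∈ E <;> by_cases h2 : x - 1 ∈ E <;> simp [h1, h2]
      refine (Finset.sum_le_sum hsup).trans ?_
      rw [Finset.sum_ite_mem, Finset.univ_inter, Finset.sum_const, nsmul_eq_mul, mul_one]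
      have hc : (C ∪ C.image (fun c => c - ((w : ℕ) : ZMod n))).card ≤ 2 * K := by
        refine (Finset.card_union_le _ _).trans ?_
        have := Finset.card_image_le (s := C) (f := fun c => c - ((w : ℕ) : ZMod n))
        omega
      exact_mod_cast hc
    rw [norm_mul, arcq_norm_neg] at hle
    rw [norm_div]
    have h2 : ‖((Fintype.card (ZMod n) : ℕ) : ℂ)‖ = n := by
      rw [ZMod.card]
      simp
    rw [h2, div_le_iff₀ hn]
    have h3 : ‖S‖ ≤ 2 * K / ‖1 - ψ 1‖ := by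
      rw [le_div_iff₀ hpos]
      linarith
    refine h3.trans (le_of_eq ?_)
    field_simp

/-- the elementary lower bound of `‖1 - exp (2 π i k / n)‖` -/
theorem arcq_exp (n k : ℕ) (hk : 1 ≤ k) (hkn : 2 * k ≤ n) :
    4 * (k : ℝ) / n ≤ ‖1 - Complex.exp (((2 * Real.pi * (k / n) : ℝ) : ℂ) * Complex.I)‖ := by
  have hn : (0 : ℝ) < n := by
    have : 0 < n := by omega
    exact_mod_cast this
  have hpi := Real.pi_pos
  set θ : ℝ := Real.pi * (k / n) with hθ
  have h2 : (2 * Real.pi * (k / n) : ℝ) = 2 * θ := by rw [hθ]; ring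
  rw [h2]
  have h3 : ‖1 - Complex.exp (((2 * θ : ℝ) : ℂ) * Complex.I)‖ = ‖2 * Real.sin θ‖ := by
    have := Complex.norm_exp_I_mul_ofReal_sub_one (2 * θ)
    rw [norm_sub_rev, mul_comm (((2 * θ : ℝ) : ℂ)) Complex.I, this]
    congr 3
    ring
  rw [h3]
  have hkn' : (k : ℝ) / n ≤ 1 / 2 := by
    rw [div_le_div_iff₀ hn (by norm_num)]
    have : ((2 * k : ℕ) : ℝ) ≤ n := by exact_mod_cast hkn
    push_cast at this
    linarith
  have hk0 : (0 : ℝ) ≤ (k : ℝ) / n := by positivity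
  have h4 := Real.mul_le_sin (x := θ) (by positivity) (by
    rw [hθ]
    nlinarith)
  have h5 : 2 / Real.pi * θ = 2 * (k / n) := by
    rw [hθ]
    field_simp
  rw [h5] at h4
  rw [Real.norm_eq_abs]
  refine le_trans ?_ (le_abs_self _)
  have : 4 * (k : ℝ) / n = 2 * (2 * (k / n)) := by ring
  rw [this]
  linarith

/-- the bound of one term of `om n 0` -/
theorem arcq_term (n k : ℕ) (hk : 1 ≤ k) (hkn : k < n) :
    2 / (n * ‖1 - Complex.exp (((2 * Real.pi * (k / n) : ℝ) : ℂ) * Complex.I)‖) ≤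
      1 / (2 * (k : ℝ)) + 1 / (2 * ((n - k : ℕ) : ℝ)) := by
  have hn : (0 : ℝ) < n := by
    have : 0 < n := by omega
    exact_mod_cast this
  have hkr : (0 : ℝ) < k := by exact_mod_cast hk
  have hnk : (0 : ℝ) < ((n - k : ℕ) : ℝ) := by
    have : 0 < n - k := by omega
    exact_mod_cast this
  have key : ∀ m : ℕ, 1 ≤ m → ∀ a : ℝ, 4 * (m : ℝ) / n ≤ a → 2 / (n * a) ≤ 1 / (2 * (m : ℝ)) := by
    intro m hm a ha
    have hmr : (0 : ℝ) < m := by exact_mod_cast hm
    have ha0 : 0 < a := lt_of_lt_of_le (by positivity) ha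
    rw [div_le_div_iff₀ (by positivity) (by positivity)]
    rw [div_le_iff₀ hn] at ha
    nlinarith
  rcases Nat.lt_or_ge n (2 * k) with h | h
  · have hsym : ‖1 - Complex.exp (((2 * Real.pi * (k / n) : ℝ) : ℂ) * Complex.I)‖ =
        ‖1 - Complex.exp (((2 * Real.pi * (((n - k : ℕ) : ℝ) / n) : ℝ) : ℂ) * Complex.I)‖ := by
      have h1 : (((2 * Real.pi * (((n - k : ℕ) : ℝ) / n) : ℝ) : ℂ) * Complex.I) =
          2 * Real.pi * Complex.I - ((2 * Real.pi * (k / n) : ℝ) : ℂ) * Complex.I := by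
        rw [Nat.cast_sub hkn.le]
        have hnc : (n : ℂ) ≠ 0 := by exact_mod_cast hn.ne'
        push_cast
        field_simp
      rw [h1, Complex.exp_sub, Complex.exp_two_pi_mul_I]
      set z := Complex.exp (((2 * Real.pi * (k / n) : ℝ) : ℂ) * Complex.I) with hz
      have hz1 : ‖z‖ = 1 := by
        rw [hz, Complex.norm_exp_ofReal_mul_I]
      have hz0 : z ≠ 0 := by
        intro h0
        rw [h0, norm_zero] at hz1
        exact zero_ne_one hz1
      have h2 : (1 : ℂ) - 1 / z = -(1 - z) / z := by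
        field_simp
        ring
      rw [h2, norm_div, norm_neg, hz1, div_one]
    rw [hsym]
    have := key (n - k) (by omega) _ (arcq_exp n (n - k) (by omega) (by omega))
    have h5 : 0 < 1 / (2 * (k : ℝ)) := by positivity
    linarith
  · have := key k hk _ (arcq_exp n k hk h)
    have h5 : 0 < 1 / (2 * ((n - k : ℕ) : ℝ)) := by positivity
    linarith

theorem om_zero (n : ℕ) [NeZero n] : (om n 0).re ≤ 3 + 2 * Real.log n ∧ (om n 0).im = 0 := by
  classical
  have hn0 : 0 < n := NeZero.pos n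
  have hn : (0 : ℝ) < n := by exact_mod_cast hn0
  set c : AddChar (ZMod n) ℂ → ℝ := fun ψ => if ψ = 0 then 1 else 2 / (n * ‖1 - ψ 1‖) with hc
  have h0 : om n 0 = ((∑ ψ : AddChar (ZMod n) ℂ, c ψ : ℝ) : ℂ) := by
    unfold om
    rw [Complex.ofReal_sum]
    refine Finset.sum_congr rfl fun ψ _ => ?_
    rw [AddChar.map_zero_eq_one, mul_one]
  rw [h0]
  refine ⟨?_, Complex.ofReal_im _⟩
  rw [Complex.ofReal_re]
  have h1 : ∑ ψ : AddChar (ZMod n) ℂ, c ψ = ∑ k : ZMod n, c (AddChar.zmodAddEquiv k) :=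
    (Fintype.sum_equiv (AddChar.zmodAddEquiv (n := n)).toEquiv _ _ (fun _ => rfl)).symm
  rw [h1]
  have hval : ∀ k : ZMod n, (AddChar.zmodAddEquiv k : AddChar (ZMod n) ℂ) 1 =
      Complex.exp (((2 * Real.pi * ((k.val : ℝ) / n) : ℝ) : ℂ) * Complex.I) := by
    intro k
    have h2 := AddChar.zmod_intCast n (k.val : ℤ) 1
    rw [AddChar.zmodAddEquiv_apply]
    have h3 : ((k.val : ℤ) : ZMod n) = k := by simp
    rw [h3] at h2
    have h4 : (AddChar.circleEquivComplex (AddChar.zmod n k) : AddChar (ZMod n) ℂ) 1 =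
        ((AddChar.zmod n k 1 : Circle) : ℂ) := rfl
    rw [h4]
    have h5 : ((1 : ℤ) : ZMod n) = 1 := by simp
    rw [h5] at h2
    rw [h2, Circle.coe_exp]
    push_cast
    ring_nf
  have h2 : ∀ k : ZMod n, c (AddChar.zmodAddEquiv k) =
      if k = 0 then 1 else
        2 / (n * ‖1 - Complex.exp (((2 * Real.pi * ((k.val : ℝ) / n) : ℝ) : ℂ) * Complex.I)‖) := by
    intro k
    simp only [hc]
    rw [hval k]
    by_cases hk : k = 0
    · rw [if_pos hk, if_pos (by rw [hk]; exact map_zero _)]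
    · rw [if_neg hk, if_neg (by
        intro h
        apply hk
        have := (AddChar.zmodAddEquiv (n := n)).injective (a₁ := k) (a₂ := 0)
        apply this
        rw [h, map_zero])]
  simp_rw [h2]
  have h3 : ∑ k : ZMod n, (if k = 0 then (1 : ℝ) else
        2 / (n * ‖1 - Complex.exp (((2 * Real.pi * ((k.val : ℝ) / n) : ℝ) : ℂ) * Complex.I)‖)) =
      ∑ k ∈ range n, (if k = 0 then (1 : ℝ) else
        2 / (n * ‖1 - Complex.exp (((2 * Real.pi * ((k : ℝ) / n) : ℝ) : ℂ) * Complex.I)‖)) := by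
    refine Finset.sum_nbij (fun k : ZMod n => k.val) ?_ ?_ ?_ ?_
    · intro k _
      exact Finset.mem_range.2 (ZMod.val_lt k)
    · intro a _ b _ hab
      exact ZMod.val_injective n hab
    · intro j hj
      refine ⟨(j : ZMod n), by simp, ?_⟩
      exact ZMod.val_cast_of_lt (Finset.mem_range.1 (by simpa using hj))
    · intro k _
      have : (k = 0) ↔ (k.val = 0) := (ZMod.val_eq_zero k).symm
      by_cases hk : k = 0
      · rw [if_pos hk, if_pos (this.1 hk)]
      · rw [if_neg hk, if_neg (fun h => hk (this.2 h))]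
  rw [h3]
  obtain ⟨m, rfl⟩ : ∃ m, n = m + 1 := ⟨n - 1, by omega⟩
  rw [Finset.sum_range_succ', if_pos rfl]
  have h4 : ∀ k ∈ range m, (if k + 1 = 0 then (1 : ℝ) else
        2 / (((m + 1 : ℕ) : ℝ) * ‖1 - Complex.exp (((2 * Real.pi * (((k + 1 : ℕ) : ℝ) /
          ((m + 1 : ℕ) : ℝ)) : ℝ) : ℂ) * Complex.I)‖)) ≤
      1 / (2 * ((k : ℝ) + 1)) + 1 / (2 * (((m - 1 - k : ℕ) : ℝ) + 1)) := by
    intro k hk
    rw [Finset.mem_range] at hk
    rw [if_neg (Nat.succ_ne_zero k)]
    have := arcq_term (m + 1) (k + 1) (by omega) (by omega)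
    refine this.trans (le_of_eq ?_)
    have h5 : m + 1 - (k + 1) = (m - 1 - k) + 1 := by omega
    rw [h5]
    push_cast
    ring
  have h5 := Finset.sum_le_sum h4
  rw [Finset.sum_add_distrib] at h5
  have h6 : ∑ k ∈ range m, 1 / (2 * (((m - 1 - k : ℕ) : ℝ) + 1)) =
      ∑ k ∈ range m, 1 / (2 * ((k : ℝ) + 1)) :=
    Finset.sum_range_reflect (fun k : ℕ => 1 / (2 * ((k : ℝ) + 1))) m
  rw [h6] at h5
  have h7 : ∑ k ∈ range m, 1 / (2 * ((k : ℝ) + 1)) + ∑ k ∈ range m, 1 / (2 * ((k : ℝ) + 1)) =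
      (harmonic m : ℝ) := by
    rw [← Finset.sum_add_distrib]
    unfold harmonic
    push_cast
    refine Finset.sum_congr rfl fun k _ => ?_
    have : (0 : ℝ) < (k : ℝ) + 1 := by positivity
    field_simp
    norm_num
  rw [h7] at h5
  have h8 := harmonic_le_one_add_log m
  have h9 : Real.log m ≤ Real.log ((m + 1 : ℕ) : ℝ) := by
    rcases Nat.eq_zero_or_pos m with h | h
    · subst h
      simp
    · apply Real.log_le_log
      · exact_mod_cast h
      · push_cast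
        linarith
  have h10 : 0 ≤ Real.log ((m + 1 : ℕ) : ℝ) := by
    apply Real.log_nonneg
    push_cast
    have : (0 : ℝ) ≤ m := Nat.cast_nonneg m
    linarith
  linarith

end Pool.Agent.Helper31.SQ
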