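import Mathlib
import Pool.Prelude.Def_F_f7f4c72a

/-! Project SQ (MP_d5570f_nt), piece Assem: from the good positions `v t` to the set `A`.

`A = {1 + Q0 v_t + D j : t < T, 1 ≤ j ≤ s}`, `D = Q0 q`.
PROOF. By `hdisj` and `D > 0` the map `(t, j) ↦ 1 + Q0 v_t + D j` is injective, so `#A = T s`; `A ⊆ [1, N]`
by `hN`. Every element of `A + A` is `S = (1 + Q0 v_t) + (1 + Q0 v_t') + D m`, `2 ≤ m ≤ 2s` (WLOG `t' ≤ t`).
If `S` is not squarefree there is a prime `p` with `p² ∣ S` (`Nat.squarefree_iff_prime_squarefree`).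
`p = 2`: `4 ∣ Q0` so `S ≡ 2 mod 4`. `p` odd, `p ≤ a0`: `p ∣ Q0`, so `S ≡ 2 mod p`, not `0`.
`a0 < p ≤ y`: by `hstat`, `S ≡ D (r + r' + m) mod p²`, `p ∤ D`, so `p² ∣ r + r' + m`, but
`1 + 1 + 2 ≤ r + r' + m ≤ 2 (2 l - 1) + 2 s < 4 l + 2 s ≤ p²`. `p > y`: `hdyn`.
Finally `f N = sSup {…}` and the set is bounded (cardinality of subsets of `Icc 1 N` is `≤ N`), `le_csSup`.
-/

open Finset

namespace Pool.Agent.Helper31.SQ

theorem assemble (N Q0 q s T a0 y : ℕ) (v : ℕ → ℕ) (l : ℕ → ℕ) (hQ4 : 4 ∣ Q0) (hQ0p : 0 < Q0)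
    (hqp : 0 < q)
    (hQ : ∀ p : ℕ, p.Prime → p ≠ 2 → p ≤ a0 → p ∣ Q0)
    (hcop : ∀ p : ℕ, p.Prime → a0 < p → p ≤ y → ¬ p ∣ Q0 * q)
    (hl : ∀ p : ℕ, p.Prime → a0 < p → p ≤ y → 4 * l p + 2 * s ≤ p ^ 2)
    (hstat : ∀ p : ℕ, p.Prime → a0 < p → p ≤ y → ∀ t < T, ∃ r : ℕ, 1 ≤ r ∧ r ≤ 2 * l p - 1 ∧
      ((1 + Q0 * v t : ℕ) : ZMod (p ^ 2)) = ((Q0 * q * r : ℕ) : ZMod (p ^ 2)))
    (hdyn : ∀ p : ℕ, p.Prime → y < p → ∀ t < T, ∀ t' ≤ t, ∀ m : ℕ, 2 ≤ m → m ≤ 2 * s →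
      ¬ p ^ 2 ∣ (1 + Q0 * v t) + (1 + Q0 * v t') + Q0 * q * m)
    (hdisj : ∀ t < T, ∀ t' < t, ∀ j : ℕ, 1 ≤ j → j ≤ s → ∀ j' : ℕ, 1 ≤ j' → j' ≤ s →
      1 + Q0 * v t + Q0 * q * j ≠ 1 + Q0 * v t' + Q0 * q * j')
    (hN : ∀ t < T, 1 + Q0 * v t + Q0 * q * s ≤ N) :
    T * s ≤ N0cd4b8f2.f N := by
  classical
  set el : ℕ × ℕ → ℕ := fun a => 1 + Q0 * v a.1 + Q0 * q * (a.2 + 1) with hel
  have hD : 0 < Q0 * q := Nat.mul_pos hQ0p hqp
  have hinj : Set.InjOn el ((range T ×ˢ range s : Finset (ℕ × ℕ)) : Set (ℕ × ℕ)) := by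
    rintro ⟨t, j⟩ h1 ⟨t', j'⟩ h2 h
    simp only [coe_product, coe_range, Set.mem_prod, Set.mem_Iio] at h1 h2
    simp only [hel] at h
    rcases lt_trichotomy t t' with h3 | h3 | h3
    · exact absurd h.symm (hdisj t' h2.1 t h3 (j' + 1) (by omega) (by omega) (j + 1) (by omega)
        (by omega))
    · subst h3
      have h4 : Q0 * q * (j + 1) = Q0 * q * (j' + 1) := by omega
      have h5 := Nat.eq_of_mul_eq_mul_left hD h4
      have h6 : j = j' := by omega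
      rw [h6]
    · exact absurd h (hdisj t h1.1 t' h3 (j + 1) (by omega) (by omega) (j' + 1) (by omega)
        (by omega))
  have hcard : ((range T ×ˢ range s).image el).card = T * s := by
    rw [card_image_of_injOn hinj, card_product, card_range, card_range]
  have hAN : (range T ×ˢ range s).image el ⊆ Icc 1 N := by
    intro x hx
    rw [mem_image] at hx
    obtain ⟨⟨t, j⟩, h1, rfl⟩ := hx
    rw [mem_product, mem_range, mem_range] at h1
    have h2 := hN t h1.1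
    have h3 : Q0 * q * (j + 1) ≤ Q0 * q * s := Nat.mul_le_mul_left _ (by
      have := h1.2
      simp only at this
      omega)
    rw [mem_Icc]
    simp only [hel]
    constructor <;> omega
  have hkey : ∀ t < T, ∀ t' ≤ t, ∀ m : ℕ, 2 ≤ m → m ≤ 2 * s →
      Squarefree ((1 + Q0 * v t) + (1 + Q0 * v t') + Q0 * q * m) := by
    intro t ht t' ht' m hm1 hm2
    rw [Nat.squarefree_iff_prime_squarefree]
    intro p hp hdvd
    by_cases hp2 : p = 2
    · subst hp2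
      obtain ⟨c, rfl⟩ := hQ4
      obtain ⟨e, he⟩ := hdvd
      have h1 : (1 + 4 * c * v t) + (1 + 4 * c * v t') + 4 * c * q * m
          = 2 + 4 * (c * v t + c * v t' + c * q * m) := by ring
      rw [h1] at he
      omega
    by_cases hpa : p ≤ a0
    · have h1 := hQ p hp hp2 hpa
      have h2 : p ∣ (1 + Q0 * v t) + (1 + Q0 * v t') + Q0 * q * m :=
        (Dvd.intro _ rfl : p ∣ p * p).trans hdvd
      obtain ⟨c, rfl⟩ := h1
      have h3 : (1 + p * c * v t) + (1 + p * c * v t') + p * c * q * m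
          = p * (c * v t + c * v t' + c * q * m) + 2 := by ring
      rw [h3] at h2
      have h4 : p ∣ 2 := (Nat.dvd_add_right (Dvd.intro _ rfl)).1 h2
      exact hp2 ((Nat.prime_dvd_prime_iff_eq hp Nat.prime_two).1 h4)
    push Not at hpa
    by_cases hpy : p ≤ y
    · obtain ⟨r, hr1, hr2, hr3⟩ := hstat p hp hpa hpy t ht
      obtain ⟨r', hr1', hr2', hr3'⟩ := hstat p hp hpa hpy t' (by omega)
      have h1 : (((1 + Q0 * v t) + (1 + Q0 * v t') + Q0 * q * m : ℕ) : ZMod (p ^ 2))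
          = ((Q0 * q * (r + r' + m) : ℕ) : ZMod (p ^ 2)) := by
        rw [Nat.cast_add, Nat.cast_add, hr3, hr3', ← Nat.cast_add, ← Nat.cast_add]
        congr 1
        ring
      have h2 : (((1 + Q0 * v t) + (1 + Q0 * v t') + Q0 * q * m : ℕ) : ZMod (p ^ 2)) = 0 := by
        rw [ZMod.natCast_eq_zero_iff, pow_two]
        exact hdvd
      rw [h2] at h1
      have h3 := (ZMod.natCast_eq_zero_iff _ _).1 h1.symm
      have h4 : Nat.Coprime (p ^ 2) (Q0 * q) :=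
        Nat.Coprime.pow_left 2 ((Nat.Prime.coprime_iff_not_dvd hp).2 (hcop p hp hpa hpy))
      have h5 := h4.dvd_of_dvd_mul_left h3
      have h6 := Nat.le_of_dvd (by omega) h5
      have h7 := hl p hp hpa hpy
      omega
    · push Not at hpy
      apply hdyn p hp hpy t ht t' ht' m hm1 hm2
      rw [pow_two]
      exact hdvd
  have hsq : N0cd4b8f2.IsSquarefreeSumset ((range T ×ˢ range s).image el) := by
    intro n hn
    rw [Finset.mem_add] at hn
    obtain ⟨x, hx, z, hz, rfl⟩ := hn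
    rw [mem_image] at hx hz
    obtain ⟨⟨t, j⟩, h1, rfl⟩ := hx
    obtain ⟨⟨t', j'⟩, h2, rfl⟩ := hz
    simp only [mem_product, mem_range] at h1 h2
    rcases le_total t' t with h3 | h3
    · have h4 := hkey t h1.1 t' h3 (j + 1 + (j' + 1)) (by omega) (by omega)
      have h5 : el (t, j) + el (t', j')
          = (1 + Q0 * v t) + (1 + Q0 * v t') + Q0 * q * (j + 1 + (j' + 1)) := by
        simp only [hel]
        ring
      rw [h5]
      exact h4
    · have h4 := hkey t' h2.1 t h3 (j + 1 + (j' + 1)) (by omega) (by omega)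
      have h5 : el (t, j) + el (t', j')
          = (1 + Q0 * v t') + (1 + Q0 * v t) + Q0 * q * (j + 1 + (j' + 1)) := by
        simp only [hel]
        ring
      rw [h5]
      exact h4
  unfold N0cd4b8f2.f
  apply le_csSup
  · refine ⟨N, ?_⟩
    rintro k ⟨B, hB, -, rfl⟩
    simpa using card_le_card hB
  · exact ⟨(range T ×ˢ range s).image el, hAN, hsq, hcard⟩

end Pool.Agent.Helper31.SQ
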