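import Mathlib

/-! Project SQ: the asymptotic verification of the numerical conditions. -/

open Filter

namespace Pool.Agent.Helper31.SQ

/-- The basic inequalities between `L = log N`, `M = log L`, `K = log M` for large `N`. -/
structure Base (L M K : ℝ) : Prop where
  hM : Real.log L = M
  hK : Real.log M = K
  K1 : 10 ^ 4 ≤ K
  KM : 10 ^ 8 * K ^ 2 ≤ M
  ML : 10 ^ 12 * M ^ 12 ≤ L
  Lexp : 10 ^ 6 * L ^ 12 ≤ Real.exp (L / 1000)

lemma base_eventually : ∀ᶠ L : ℝ in atTop,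
    Base L (Real.log L) (Real.log (Real.log L)) := by
  have t1 : Tendsto (fun L : ℝ => Real.log L) atTop atTop := Real.tendsto_log_atTop
  have t2 : Tendsto (fun L : ℝ => Real.log (Real.log L)) atTop atTop := t1.comp t1
  have e1 : ∀ᶠ L : ℝ in atTop, (10 : ℝ) ^ 4 ≤ Real.log (Real.log L) := t2.eventually_ge_atTop _
  have o2 := (Real.isLittleO_pow_log_id_atTop (n := 2)).def (c := 1 / 10 ^ 8) (by norm_num)
  have e2 : ∀ᶠ M : ℝ in atTop, 10 ^ 8 * Real.log M ^ 2 ≤ M := by
    filter_upwards [o2, eventually_ge_atTop 1] with M h h1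
    simp only [id, Real.norm_eq_abs] at h
    rw [abs_of_nonneg (by positivity), abs_of_pos (by linarith)] at h
    linarith
  have o3 := (Real.isLittleO_pow_log_id_atTop (n := 12)).def (c := 1 / 10 ^ 12) (by norm_num)
  have e3 : ∀ᶠ M : ℝ in atTop, 10 ^ 12 * Real.log M ^ 12 ≤ M := by
    filter_upwards [o3, eventually_ge_atTop 1] with M h h1
    simp only [id, Real.norm_eq_abs] at h
    have h2 : 0 ≤ Real.log M := Real.log_nonneg h1
    rw [abs_of_nonneg (by positivity), abs_of_pos (by linarith)] at h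
    linarith
  have o4 := (isLittleO_pow_exp_pos_mul_atTop 12 (b := 1 / 1000) (by norm_num)).def
    (c := 1 / 10 ^ 6) (by norm_num)
  have e4 : ∀ᶠ L : ℝ in atTop, 10 ^ 6 * L ^ 12 ≤ Real.exp (L / 1000) := by
    filter_upwards [o4, eventually_ge_atTop 1] with L h h1
    rw [Real.norm_eq_abs, Real.norm_eq_abs, abs_of_nonneg (by positivity),
      abs_of_pos (Real.exp_pos _)] at h
    have : 1 / 1000 * L = L / 1000 := by ring
    rw [this] at h
    linarith
  filter_upwards [e1, t1.eventually e2, e3, e4] with L h1 h2 h3 h4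
  exact ⟨rfl, rfl, h1, h2, h3, h4⟩

namespace Base

variable {L M K : ℝ} (h : Base L M K)

include h

lemma Kpos : 0 < K := by have := h.K1; linarith

lemma Mbig : 10 ^ 16 ≤ M := by
  have h1 := h.K1
  have h2 := h.KM
  nlinarith

lemma Mpos : 0 < M := by have := h.Mbig; linarith

lemma Lbig : 10 ^ 200 ≤ L := by
  have h1 := h.Mbig
  have h2 : (10 ^ 16) ^ 12 ≤ M ^ 12 := pow_le_pow_left₀ (by norm_num) h1 12
  have h3 := h.ML
  have h4 : (10 : ℝ) ^ 200 ≤ 10 ^ 12 * ((10 ^ 16) ^ 12) := by norm_num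
  linarith

lemma Lpos : 0 < L := by
  have := h.Lbig
  have h2 : (0 : ℝ) < 10 ^ 200 := by positivity
  linarith

lemma KleM : K ≤ M := by
  have h1 := h.K1
  have h2 := h.KM
  nlinarith

/-- `M ^ k ≤ M ^ 12 ≤ L`. -/
lemma Mpow (k : ℕ) (hk : k ≤ 12) : 10 ^ 12 * M ^ k ≤ L := by
  have h1 : M ^ k ≤ M ^ 12 := pow_le_pow_right₀ (by have := h.Mbig; linarith) hk
  have h2 := h.ML
  nlinarith

lemma Lpow (k : ℕ) (hk : k ≤ 12) : 10 ^ 6 * L ^ k ≤ Real.exp (L / 1000) := by
  have hL1 : 1 ≤ L := by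
    have := h.Lbig
    have h2 : (1 : ℝ) ≤ 10 ^ 200 := by norm_num
    linarith
  have h1 : L ^ k ≤ L ^ 12 := pow_le_pow_right₀ hL1 hk
  have h2 := h.Lexp
  nlinarith

lemma expM : Real.exp M = L := by rw [← h.hM, Real.exp_log h.Lpos]

lemma expK : Real.exp K = M := by rw [← h.hK, Real.exp_log h.Mpos]

end Base

end Pool.Agent.Helper31.SQ
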