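import Pool.Agent.Helper31.SQ.Asym

/-! Project SQ: the parameters and the first conditions. -/

open Filter

namespace Pool.Agent.Helper31.SQ

noncomputable section

def aP (L : ℝ) : ℕ := ⌊L / 20⌋₊
def sP (L : ℝ) : ℕ := ⌊L ^ 2 / 2000⌋₊
def yP (L M : ℝ) : ℕ := ⌈L * M / 600⌉₊
def u1P (L M : ℝ) : ℕ := ⌈L * M ^ 3⌉₊
def u2P (L : ℝ) : ℕ := ⌈L ^ 3⌉₊
def zP (L : ℝ) : ℕ := ⌊Real.exp (L / 8)⌋₊
def XP (L : ℝ) : ℕ := ⌊Real.exp (L / 2)⌋₊
def VP (L : ℝ) : ℕ := ⌊Real.exp (4 * L / 5)⌋₊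
def TP (M K : ℝ) : ℕ := ⌊M ^ 2 / (231000 * K)⌋₊
def k1P (L K : ℝ) : ℕ := 2 * ⌈L / (2200 * K)⌉₊
def k2P (L M : ℝ) : ℕ := 2 * ⌈L / (2200 * M)⌉₊
def μ1P (L K : ℝ) : ℝ := L / (15400 * K)
def μ2P (L M : ℝ) : ℝ := L / (231000 * M)

end

namespace Base

variable {L M K : ℝ} (h : Base L M K)

include h

lemma T_big : 10 ^ 10 * K ≤ M ^ 2 / (231000 * K) := by
  have hK := h.Kpos
  have h1 := h.KM
  have h2 := h.Mbig
  have hK1 := h.K1
  rw [le_div_iff₀ (by positivity)]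
  nlinarith [mul_le_mul h1 h2 (by norm_num) (by linarith)]

lemma T_le : (TP M K : ℝ) ≤ M ^ 2 / (231000 * K) := Nat.floor_le (by
  have := h.Kpos; positivity)

lemma T_le2 : (TP M K : ℝ) + 2 ≤ 2 * (M ^ 2 / (231000 * K)) := by
  have h1 := h.T_le
  have h2 := h.T_big
  have h3 := h.K1
  linarith

lemma T_ge : M ^ 2 / (462000 * K) ≤ (TP M K : ℝ) := by
  have h1 := (Nat.lt_floor_add_one (M ^ 2 / (231000 * K))).le
  have h2 := h.T_big
  have h3 := h.K1
  have hK := h.Kpos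
  have h4 : M ^ 2 / (462000 * K) = (M ^ 2 / (231000 * K)) / 2 := by
    rw [div_div]; ring_nf
  rw [h4]
  unfold TP
  linarith

lemma T_leM : (TP M K : ℝ) + 2 ≤ M ^ 2 := by
  have h1 := h.T_le2
  have hK := h.K1
  have : 2 * (M ^ 2 / (231000 * K)) ≤ M ^ 2 := by
    rw [← mul_div_assoc, div_le_iff₀ (by have := h.Kpos; positivity)]
    have : 0 ≤ M ^ 2 := sq_nonneg M
    nlinarith
  linarith

lemma L1 : 1 ≤ L := by
  have := h.Lbig
  have h2 : (1 : ℝ) ≤ 10 ^ 200 := by norm_num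
  linarith

lemma L6 : 10 ^ 6 ≤ L := by
  have := h.Lbig
  have h2 : (10 : ℝ) ^ 6 ≤ 10 ^ 200 := by norm_num
  linarith

lemma s_le : (sP L : ℝ) ≤ L ^ 2 / 2000 := Nat.floor_le (by positivity)

lemma s_ge : L ^ 2 / 4000 ≤ (sP L : ℝ) := by
  have h1 := (Nat.lt_floor_add_one (L ^ 2 / 2000)).le
  have h2 := h.L6
  unfold sP
  nlinarith

lemma C_le : 2 * (sP L : ℝ) * ((TP M K : ℝ) + 2) ≤ L ^ 2 * M ^ 2 / (115500000 * K) := by
  have h1 := h.s_le
  have h2 := h.T_le2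
  have h3 : 2 * (sP L : ℝ) * ((TP M K : ℝ) + 2) ≤
      2 * (L ^ 2 / 2000) * (2 * (M ^ 2 / (231000 * K))) := by
    refine mul_le_mul (by linarith) h2 (by positivity) (by positivity)
  refine h3.trans (le_of_eq ?_)
  have := h.Kpos.ne'
  field_simp
  ring

lemma a_ge : L / 20 - 1 ≤ (aP L : ℝ) := by
  have h1 := (Nat.lt_floor_add_one (L / 20)).le
  unfold aP
  linarith

lemma a_le : (aP L : ℝ) ≤ L / 20 := Nat.floor_le (by have := h.Lpos; positivity)

lemma y_ge : L * M / 600 ≤ (yP L M : ℝ) := Nat.le_ceil _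

lemma y_le : (yP L M : ℝ) ≤ L * M / 600 + 1 :=
  (Nat.ceil_lt_add_one (by have := h.Lpos; have := h.Mpos; positivity)).le

lemma u1_ge : L * M ^ 3 ≤ (u1P L M : ℝ) := Nat.le_ceil _

lemma u1_le : (u1P L M : ℝ) ≤ L * M ^ 3 + 1 :=
  (Nat.ceil_lt_add_one (by have := h.Lpos; have := h.Mpos; positivity)).le

lemma u2_ge : L ^ 3 ≤ (u2P L : ℝ) := Nat.le_ceil _

lemma u2_le : (u2P L : ℝ) ≤ L ^ 3 + 1 :=
  (Nat.ceil_lt_add_one (by have := h.Lpos; positivity)).le

/-! ### The elementary conditions -/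

lemma c_a : 2 ≤ aP L := by
  have h1 := h.a_ge
  have h2 := h.L6
  have h3 : (2 : ℝ) ≤ (aP L : ℝ) := by linarith
  exact_mod_cast h3

lemma c_ay : aP L ≤ yP L M := by
  have h1 := h.a_le
  have h2 := h.y_ge
  have h3 := h.Mbig
  have h4 := h.Lpos
  have : (aP L : ℝ) ≤ (yP L M : ℝ) := by nlinarith
  exact_mod_cast this

lemma c_yu : yP L M ≤ u1P L M := by
  unfold yP u1P
  refine Nat.ceil_mono ?_
  have h4 := h.Lpos
  have h3 := h.Mbig
  have : M ≤ M ^ 3 := by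
    calc M = M ^ 1 := (pow_one M).symm
      _ ≤ M ^ 3 := pow_le_pow_right₀ (by linarith) (by norm_num)
  nlinarith

lemma c_uu : u1P L M ≤ u2P L := by
  unfold u1P u2P
  refine Nat.ceil_mono ?_
  have h4 := h.Lpos
  have h1 := h.Mpow 3 (by norm_num)
  have hL := h.L1
  have hM := h.Mpos
  have h5 : M ^ 3 ≤ L := by
    have : 0 ≤ M ^ 3 := by positivity
    linarith
  have h6 : L * M ^ 3 ≤ L * L := mul_le_mul_of_nonneg_left h5 h4.le
  have h7 : L * L ≤ L ^ 3 := by nlinarith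
  linarith

lemma exp8_ge : L ^ 3 + 1 ≤ Real.exp (L / 8) := by
  have h1 := h.Lpow 3 (by norm_num)
  have hL := h.L6
  have h2 : Real.exp (L / 1000) ≤ Real.exp (L / 8) := by
    rw [Real.exp_le_exp]; linarith
  have h3 : 1 ≤ L ^ 3 := one_le_pow₀ h.L1
  linarith

lemma c_uz : u2P L ≤ zP L := by
  unfold zP
  refine Nat.le_floor ?_
  exact h.u2_le.trans h.exp8_ge

lemma c_s : 1 ≤ sP L := by
  have h1 := h.s_ge
  have h2 := h.L6
  have : (1 : ℝ) ≤ (sP L : ℝ) := by nlinarith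
  exact_mod_cast this

lemma c_sa : 4 * sP L + 8 ≤ aP L ^ 2 := by
  have h1 := h.s_le
  have h2 := h.a_ge
  have h3 := h.L6
  have h4 : (L / 20 - 1) ^ 2 ≤ (aP L : ℝ) ^ 2 := pow_le_pow_left₀ (by linarith) h2 2
  have : (4 * (sP L : ℝ) + 8) ≤ (aP L : ℝ) ^ 2 := by nlinarith
  exact_mod_cast this

lemma c_sy : 4 * sP L * (TP M K + 2) ≤ yP L M ^ 2 := by
  have h1 := h.C_le
  have h2 := h.y_ge
  have hL := h.Lpos
  have hM := h.Mpos
  have hK := h.K1
  have h3 : (L * M / 600) ^ 2 ≤ (yP L M : ℝ) ^ 2 := pow_le_pow_left₀ (by positivity) h2 2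
  have h4 : L ^ 2 * M ^ 2 / (115500000 * K) ≤ (L * M / 600) ^ 2 / 2 := by
    rw [div_le_iff₀ (by have := h.Kpos; positivity)]
    have : 0 ≤ L ^ 2 * M ^ 2 := by positivity
    nlinarith
  have h5 : (4 * (sP L : ℝ) * ((TP M K : ℝ) + 2)) ≤ (yP L M : ℝ) ^ 2 := by linarith
  exact_mod_cast h5

lemma c_mu1 : (2 * sP L * (TP M K + 2) : ℝ) * (12 / (yP L M * Real.log (yP L M))) ≤ μ1P L K := by
  have h1 := h.C_le
  have h2 := h.y_ge
  have hL := h.Lpos
  have hM := h.Mpos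
  have hK := h.Kpos
  have hlog : M ≤ Real.log (yP L M) := by
    have h3 : L ≤ (yP L M : ℝ) := by
      have := h.Mbig
      nlinarith
    have := Real.log_le_log hL h3
    rw [h.hM] at this
    exact this
  have h4 : L * M ^ 2 / 600 ≤ (yP L M : ℝ) * Real.log (yP L M) := by
    calc L * M ^ 2 / 600 = (L * M / 600) * M := by ring
      _ ≤ _ := mul_le_mul h2 hlog hM.le (by positivity)
  have h5 : 12 / ((yP L M : ℝ) * Real.log (yP L M)) ≤ 12 / (L * M ^ 2 / 600) :=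
    div_le_div_of_nonneg_left (by norm_num) (by positivity) h4
  calc (2 * sP L * (TP M K + 2) : ℝ) * (12 / (yP L M * Real.log (yP L M)))
      ≤ (L ^ 2 * M ^ 2 / (115500000 * K)) * (12 / (L * M ^ 2 / 600)) := by
        refine mul_le_mul h1 h5 ?_ (by positivity)
        have : 0 ≤ Real.log (yP L M) := Real.log_natCast_nonneg _
        positivity
    _ = L / (16041.6666 * K) * (7200 * 16041.6666 / 115500000) := by
        field_simp
        try ring
    _ ≤ μ1P L K := by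
        unfold μ1P
        rw [show L / (16041.6666 * K) * (7200 * 16041.6666 / 115500000) =
          (L / K) * (7200 / 115500000) by field_simp]
        rw [show L / (15400 * K) = (L / K) * (1 / 15400) by field_simp]
        refine mul_le_mul_of_nonneg_left (by norm_num) (by positivity)

lemma c_k1 : 7 * μ1P L K + 1 ≤ (k1P L K : ℝ) := by
  unfold μ1P k1P
  have hK := h.Kpos
  have h1 := Nat.le_ceil (L / (2200 * K))
  have h2 : 7 * (L / (15400 * K)) = L / (2200 * K) := by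
    field_simp
    ring
  have h3 : 1 ≤ L / (2200 * K) := by
    rw [le_div_iff₀ (by positivity)]
    have h4 := h.KleM
    have h5 := h.Mpow 1 (by norm_num)
    rw [pow_one] at h5
    have := h.Mpos
    linarith
  push_cast
  linarith

lemma c_k2 : 7 * μ2P L M + 1 ≤ (k2P L M : ℝ) := by
  unfold μ2P k2P
  have hM := h.Mpos
  have h1 := Nat.le_ceil (L / (2200 * M))
  have h2 : 7 * (L / (231000 * M)) ≤ L / (2200 * M) := by
    rw [← mul_div_assoc, div_le_div_iff₀ (by positivity) (by positivity)]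
    have := h.Lpos
    have : 0 < L * M := by positivity
    nlinarith
  have h3 : 1 ≤ L / (2200 * M) := by
    rw [le_div_iff₀ (by positivity)]
    have h5 := h.Mpow 1 (by norm_num)
    rw [pow_one] at h5
    linarith
  push_cast
  linarith

lemma c_mu2 : (2 * sP L * (TP M K + 2) : ℝ) / (u1P L M : ℝ) ≤ μ2P L M := by
  have h1 := h.C_le
  have h2 := h.u1_ge
  have hL := h.Lpos
  have hM := h.Mpos
  have hK := h.Kpos
  have hK1 := h.K1
  have hu : 0 < L * M ^ 3 := by positivity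
  calc (2 * sP L * (TP M K + 2) : ℝ) / (u1P L M : ℝ)
      ≤ (L ^ 2 * M ^ 2 / (115500000 * K)) / (L * M ^ 3) :=
        div_le_div₀ (by positivity) h1 hu h2
    _ = (L / M) * (1 / (115500000 * K)) := by field_simp
    _ ≤ (L / M) * (1 / 231000) := by
        refine mul_le_mul_of_nonneg_left ?_ (by positivity)
        exact one_div_le_one_div_of_le (by norm_num) (by linarith)
    _ = μ2P L M := by unfold μ2P; field_simp

lemma c_u2 : 16 * sP L * (TP M K + 2) ≤ u2P L := by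
  have h1 := h.C_le
  have h2 := h.u2_ge
  have hL := h.Lpos
  have hM := h.Mpos
  have hK := h.Kpos
  have hK1 := h.K1
  have h3 : L ^ 2 * M ^ 2 / (115500000 * K) ≤ L ^ 3 / 8 := by
    rw [div_le_iff₀ (by positivity)]
    have h4 := h.Mpow 2 (by norm_num)
    have h5 : L ^ 2 * M ^ 2 ≤ L ^ 2 * L := mul_le_mul_of_nonneg_left (by
      have : 0 ≤ M ^ 2 := by positivity
      linarith) (by positivity)
    have h6 : 0 < L ^ 3 := by positivity
    nlinarith
  have h4 : (16 * (sP L : ℝ) * ((TP M K : ℝ) + 2)) ≤ (u2P L : ℝ) := by linarith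
  exact_mod_cast h4

end Base

end Pool.Agent.Helper31.SQ
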