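import Mathlib

/-! Project SQ (MP_d5570f_nt), piece Primes: four elementary estimates on primes.

PROOFS.
* `sum_inv_sq`: for `p > y`, `1/p² ≤ log p/(log y · p²)`. Split `(y, u]` in the dyadic pieces
  `(2^j y, 2^(j+1) y]`: `∑_{p in the piece} log p/p² ≤ θ(2^(j+1) y)/(2^j y)² ≤ log 4 · 2^(j+1) y/(4^j y²)
  = 2 log 4/(2^j y)` (`Chebyshev.theta_le_log4_mul_x`), sum over `j`: `4 log 4/y ≤ 5.6/y`.
  (The constant 12 leaves room.) Alternatively Abel summation.
* `card_primes`: `#{a < p ≤ y} log a ≤ ∑ log p ≤ θ(y) ≤ log 4 · y`.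
* `log_prod`: the product divides (is at most) `(primorial z)² ≤ (4^z)² = 2^(4z)`
  (`primorial_le_4_pow`, `Nat.log_mono_right`, `Nat.log_pow`).
* `many_primes`: `Chebyshev.pi_ge : (n log 2 - log (n+1))/log n ≤ π n`, and there are at most `z ≤ √X`
  primes up to `z`; for large `X`, `(X log 2 - log (X+1))/log X - √X ≥ X/(2 log X)`.
-/

open Finset Filter

namespace Pool.Agent.Helper31.SQ

lemma sqp_theta (y u : ℕ) :
    ∑ p ∈ (Ioc y u).filter Nat.Prime, Real.log p ≤ Real.log 4 * u := by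
  have h1 : ∑ p ∈ (Ioc y u).filter Nat.Prime, Real.log p ≤ Chebyshev.theta (u : ℝ) := by
    rw [Chebyshev.theta, Nat.floor_natCast]
    apply Finset.sum_le_sum_of_subset_of_nonneg
    · apply Finset.filter_subset_filter
      exact Finset.Ioc_subset_Ioc_left (Nat.zero_le y)
    · intro p hp _
      exact Real.log_natCast_nonneg p
  exact h1.trans (Chebyshev.theta_le_log4_mul_x (Nat.cast_nonneg u))

lemma sqp_step (y u : ℕ) (g : ℕ → ℝ) (h : y ≤ u) :
    ∑ p ∈ (Ioc y (u + 1)).filter Nat.Prime, g p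
      = ∑ p ∈ (Ioc y u).filter Nat.Prime, g p + (if Nat.Prime (u + 1) then g (u + 1) else 0) := by
  rw [Finset.sum_filter, Finset.sum_filter, Finset.sum_Ioc_succ_top h]

lemma sqp_main (y u : ℕ) (h : y ≤ u) :
    ∑ p ∈ (Ioc y u).filter Nat.Prime, Real.log p / (p : ℝ) ^ 2
      ≤ 2 * Real.log 4 / (y + 1) - 2 * Real.log 4 / (u + 1)
        + (∑ p ∈ (Ioc y u).filter Nat.Prime, Real.log p) / ((u : ℝ) + 1) ^ 2 := by
  induction u, h using Nat.le_induction with
  | base => simp
  | succ u h ih =>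
    have hth := sqp_theta y (u + 1)
    rw [sqp_step y u _ h] at hth
    rw [sqp_step y u _ h, sqp_step y u _ h]
    set D := ∑ p ∈ (Ioc y u).filter Nat.Prime, Real.log p with hD
    have hlog4 : 0 ≤ Real.log 4 := Real.log_nonneg (by norm_num)
    have hu : (0 : ℝ) ≤ u := Nat.cast_nonneg u
    have key : ∀ L : ℝ, D + L ≤ Real.log 4 * ((u : ℝ) + 1) →
        L / ((u : ℝ) + 1) ^ 2 ≤ 2 * Real.log 4 / ((u : ℝ) + 1) - 2 * Real.log 4 / ((u : ℝ) + 1 + 1)
          + (D + L) / ((u : ℝ) + 1 + 1) ^ 2 - D / ((u : ℝ) + 1) ^ 2 := by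
      intro L hL
      have e : 2 * Real.log 4 / ((u : ℝ) + 1) - 2 * Real.log 4 / ((u : ℝ) + 1 + 1)
          + (D + L) / ((u : ℝ) + 1 + 1) ^ 2 - D / ((u : ℝ) + 1) ^ 2 - L / ((u : ℝ) + 1) ^ 2
          = (2 * Real.log 4 * (((u : ℝ) + 1) * ((u : ℝ) + 2)) - (D + L) * (2 * u + 3))
            / (((u : ℝ) + 1) ^ 2 * ((u : ℝ) + 2) ^ 2) := by
        field_simp
        ring
      have h2 : 0 ≤ 2 * Real.log 4 * (((u : ℝ) + 1) * ((u : ℝ) + 2)) - (D + L) * (2 * u + 3) := by
        have h3 : (D + L) * (2 * u + 3) ≤ Real.log 4 * ((u : ℝ) + 1) * (2 * u + 3) :=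
          mul_le_mul_of_nonneg_right hL (by positivity)
        nlinarith [mul_nonneg hlog4 hu]
      have h4 : 0 ≤ (2 * Real.log 4 * (((u : ℝ) + 1) * ((u : ℝ) + 2)) - (D + L) * (2 * u + 3))
            / (((u : ℝ) + 1) ^ 2 * ((u : ℝ) + 2) ^ 2) := div_nonneg h2 (by positivity)
      linarith
    push_cast at hth ⊢
    split_ifs at hth ⊢ with hp
    · have := key (Real.log ((u : ℝ) + 1)) (by simpa using hth)
      linarith
    · have := key 0 (by simpa using hth)
      simp only [add_zero, zero_div] at this ⊢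
      linarith

theorem sum_inv_sq (y u : ℕ) (hy : 2 ≤ y) :
    ∑ p ∈ (Ioc y u).filter Nat.Prime, (1 : ℝ) / (p : ℝ) ^ 2 ≤ 12 / (y * Real.log y) := by
  have hy' : (2 : ℝ) ≤ y := by exact_mod_cast hy
  have hly : 0 < Real.log y := Real.log_pos (by linarith)
  rcases le_or_gt y u with h | h
  swap
  · rw [Finset.Ioc_eq_empty_of_le h.le]
    simp only [Finset.filter_empty, Finset.sum_empty]
    positivity
  have h1 : ∑ p ∈ (Ioc y u).filter Nat.Prime, (1 : ℝ) / (p : ℝ) ^ 2
      ≤ (∑ p ∈ (Ioc y u).filter Nat.Prime, Real.log p / (p : ℝ) ^ 2) / Real.log y := by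
    rw [Finset.sum_div]
    apply Finset.sum_le_sum
    intro p hp
    simp only [Finset.mem_filter, Finset.mem_Ioc] at hp
    have hp0 : (0 : ℝ) < p := by
      have : 0 < p := by omega
      exact_mod_cast this
    have hlp : Real.log y ≤ Real.log p :=
      Real.log_le_log (by linarith) (by exact_mod_cast hp.1.1.le)
    rw [le_div_iff₀ hly, div_mul_eq_mul_div, one_mul]
    exact div_le_div_of_nonneg_right hlp (by positivity)
  have h2 := sqp_main y u h
  have h3 := sqp_theta y u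
  have hlog4 : 0 ≤ Real.log 4 := Real.log_nonneg (by norm_num)
  have hlog4' : Real.log 4 ≤ 2 := by
    have : Real.log 4 = 2 * Real.log 2 := by
      rw [show (4 : ℝ) = 2 ^ 2 by norm_num, Real.log_pow]; norm_num
    rw [this]
    have := Real.log_two_lt_d9
    linarith
  have hu : (0 : ℝ) ≤ u := Nat.cast_nonneg u
  have h4 : (∑ p ∈ (Ioc y u).filter Nat.Prime, Real.log p) / ((u : ℝ) + 1) ^ 2
      ≤ Real.log 4 / (u + 1) := by
    rw [div_le_div_iff₀ (by positivity) (by positivity)]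
    calc (∑ p ∈ (Ioc y u).filter Nat.Prime, Real.log p) * ((u : ℝ) + 1)
        ≤ Real.log 4 * u * (u + 1) := mul_le_mul_of_nonneg_right h3 (by positivity)
      _ ≤ Real.log 4 * (u + 1) ^ 2 := by nlinarith [mul_nonneg hlog4 hu]
  have h5 : ∑ p ∈ (Ioc y u).filter Nat.Prime, Real.log p / (p : ℝ) ^ 2 ≤ 12 / y := by
    have h6 : 2 * Real.log 4 / ((y : ℝ) + 1) ≤ 12 / y := by
      rw [div_le_div_iff₀ (by positivity) (by positivity)]
      nlinarith
    have h7 : 0 ≤ Real.log 4 / ((u : ℝ) + 1) := by positivity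
    have h8 : 2 * Real.log 4 / ((u : ℝ) + 1) = 2 * (Real.log 4 / (u + 1)) := by ring
    linarith
  calc ∑ p ∈ (Ioc y u).filter Nat.Prime, (1 : ℝ) / (p : ℝ) ^ 2
      ≤ (∑ p ∈ (Ioc y u).filter Nat.Prime, Real.log p / (p : ℝ) ^ 2) / Real.log y := h1
    _ ≤ (12 / y) / Real.log y := div_le_div_of_nonneg_right h5 hly.le
    _ = 12 / (y * Real.log y) := by rw [div_div]

theorem card_primes (a y : ℕ) (ha : 2 ≤ a) :
    (((Ioc a y).filter Nat.Prime).card : ℝ) ≤ Real.log 4 * y / Real.log a := by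
  have ha' : (2 : ℝ) ≤ a := by exact_mod_cast ha
  have hla : 0 < Real.log a := Real.log_pos (by linarith)
  rw [le_div_iff₀ hla]
  refine le_trans ?_ (sqp_theta a y)
  rw [← nsmul_eq_mul]
  apply Finset.card_nsmul_le_sum
  intro p hp
  simp only [Finset.mem_filter, Finset.mem_Ioc] at hp
  exact Real.log_le_log (by linarith) (by exact_mod_cast hp.1.1.le)

theorem log_prod (a z : ℕ) :
    Nat.log 2 (∏ p ∈ (Ioc a z).filter Nat.Prime, p ^ 2) ≤ 4 * z := by
  have h1 : ∏ p ∈ (Ioc a z).filter Nat.Prime, p ≤ primorial z := by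
    rw [primorial]
    apply Finset.prod_le_prod_of_subset_of_one_le'
    · intro p hp
      simp only [Finset.mem_filter, Finset.mem_Ioc, Finset.mem_range] at hp ⊢
      exact ⟨by omega, hp.2⟩
    · intro p hp _
      simp only [Finset.mem_filter] at hp
      exact hp.2.one_le
  have h2 : ∏ p ∈ (Ioc a z).filter Nat.Prime, p ^ 2 ≤ 2 ^ (4 * z) := by
    rw [Finset.prod_pow]
    calc (∏ p ∈ (Ioc a z).filter Nat.Prime, p) ^ 2 ≤ (4 ^ z) ^ 2 :=
          Nat.pow_le_pow_left (h1.trans (primorial_le_four_pow z)) 2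
      _ = 2 ^ (4 * z) := by
          rw [show (4 : ℕ) = 2 ^ 2 by norm_num, ← pow_mul, ← pow_mul]
          congr 1
          ring
  calc Nat.log 2 (∏ p ∈ (Ioc a z).filter Nat.Prime, p ^ 2) ≤ Nat.log 2 (2 ^ (4 * z)) :=
        Nat.log_mono_right h2
    _ = 4 * z := Nat.log_pow (by norm_num) _

theorem many_primes : ∀ᶠ X : ℕ in atTop, ∀ z : ℕ, z ^ 2 ≤ X →
    (X : ℝ) / (2 * Real.log X) ≤ (((Ioc z X).filter Nat.Prime).card : ℝ) := by
  have hlim1 : ∀ᶠ X : ℕ in atTop, Real.log X ≤ (1 / 20) * Real.sqrt X := by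
    have h := (isLittleO_log_rpow_atTop (r := 1 / 2) (by norm_num)).bound
      (c := 1 / 20) (by norm_num)
    have h' := tendsto_natCast_atTop_atTop (R := ℝ) |>.eventually h
    filter_upwards [h', eventually_ge_atTop 1] with X hX hX1
    have hX1' : (1 : ℝ) ≤ X := by exact_mod_cast hX1
    rw [Real.norm_of_nonneg (Real.log_nonneg hX1'), Real.norm_of_nonneg (by positivity),
      ← Real.sqrt_eq_rpow] at hX
    exact hX
  filter_upwards [hlim1, eventually_ge_atTop 10000] with X hX hX0 z hz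
  have hX0' : (10000 : ℝ) ≤ X := by exact_mod_cast hX0
  have hlX : 0 < Real.log X := Real.log_pos (by linarith)
  set s := Real.sqrt X with hs
  have hs2 : s ^ 2 = X := Real.sq_sqrt (by linarith)
  have hs0 : 0 ≤ s := Real.sqrt_nonneg _
  have hs1 : 100 ≤ s := by
    rw [hs]
    apply Real.le_sqrt_of_sq_le
    linarith
  have hzs : (z : ℝ) ≤ s := by
    rw [hs]
    apply Real.le_sqrt_of_sq_le
    exact_mod_cast hz
  have hzX : z ≤ X := by nlinarith
  have hpi := Chebyshev.pi_ge X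
  have hcard : (Nat.primeCounting X : ℝ) ≤ (((Ioc z X).filter Nat.Prime).card : ℝ) + z := by
    have e1 : Nat.primeCounting X = ((Ioc 0 X).filter Nat.Prime).card := by
      rw [Nat.primeCounting, Nat.primeCounting', Nat.count_eq_card_filter_range]
      congr 1
      ext p
      simp only [Finset.mem_filter, Finset.mem_range, Finset.mem_Ioc]
      constructor
      · rintro ⟨h1, h2⟩
        exact ⟨⟨h2.pos, by omega⟩, h2⟩
      · rintro ⟨⟨_, h1⟩, h2⟩
        exact ⟨by omega, h2⟩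
    have e2 : (Ioc 0 X).filter Nat.Prime ⊆ (Ioc z X).filter Nat.Prime ∪ Ioc 0 z := by
      intro p hp
      simp only [Finset.mem_filter, Finset.mem_Ioc, Finset.mem_union] at hp ⊢
      rcases le_or_gt p z with h | h
      · right; exact ⟨hp.1.1, h⟩
      · left; exact ⟨⟨h, hp.1.2⟩, hp.2⟩
    have e3 := (Finset.card_le_card e2).trans (Finset.card_union_le _ _)
    rw [Nat.card_Ioc, Nat.sub_zero] at e3
    rw [e1]
    exact_mod_cast e3
  have hl1 : Real.log ((X : ℝ) + 1) ≤ Real.log X + 1 := by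
    have : (X : ℝ) + 1 ≤ X * Real.exp 1 := by
      have := Real.add_one_le_exp (1 : ℝ)
      nlinarith
    calc Real.log ((X : ℝ) + 1) ≤ Real.log (X * Real.exp 1) := Real.log_le_log (by linarith) this
      _ = Real.log X + 1 := by
        rw [Real.log_mul (by linarith) (Real.exp_pos 1).ne', Real.log_exp]
  have hl2 := Real.log_two_gt_d9
  have hmain : (X : ℝ) / (2 * Real.log X) + s ≤ (X * Real.log 2 - Real.log (X + 1)) / Real.log X := by
    rw [le_div_iff₀ hlX, add_mul, div_mul_eq_mul_div, mul_comm (2 : ℝ) (Real.log X),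
      mul_comm (X : ℝ) (Real.log X), mul_div_mul_left _ _ hlX.ne']
    have h1 : s * Real.log X ≤ s * ((1 / 20) * s) := mul_le_mul_of_nonneg_left hX hs0
    nlinarith
  linarith

end Pool.Agent.Helper31.SQ
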