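import Pool.Agent.Helper31.SQ.Greedy
import Pool.Agent.Helper31.SQ.Primes

/-! Project SQ: the lower bound `T s ≤ f N` under explicit numerical conditions. -/

open Finset

namespace Pool.Agent.Helper31.SQ

/-- The fixed factor of the modulus. -/
def Q0 (a : ℕ) : ℕ := 4 * ∏ p ∈ (Ioc 2 a).filter Nat.Prime, p

lemma Q0_pos (a : ℕ) : 0 < Q0 a := by
  unfold Q0
  refine Nat.mul_pos (by norm_num) (Finset.prod_pos fun p hp => ?_)
  exact (mem_filter.mp hp).2.pos

lemma Q0_le (a : ℕ) : Q0 a ≤ 4 * 4 ^ a := by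
  unfold Q0
  refine Nat.mul_le_mul_left 4 (le_trans ?_ (primorial_le_four_pow a))
  unfold primorial
  refine Finset.prod_le_prod_of_subset_of_one_le' ?_ (fun p hp _ => ?_)
  · intro p hp
    have h1 := mem_filter.mp hp
    have h2 := mem_Ioc.mp h1.1
    exact mem_filter.mpr ⟨mem_range.mpr (by omega), h1.2⟩
  · exact (mem_filter.mp hp).2.one_lt.le

lemma Q0_dvd (a : ℕ) (p : ℕ) (hp : p.Prime) (h2 : p ≠ 2) (hpa : p ≤ a) : p ∣ Q0 a := by
  unfold Q0
  refine Dvd.dvd.mul_left (dvd_prod_of_mem (fun x => x) (mem_filter.mpr ⟨mem_Ioc.mpr ⟨?_, hpa⟩, hp⟩)) 4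
  have := hp.two_le
  omega

lemma Q0_not_dvd (a : ℕ) (ha : 2 ≤ a) (p : ℕ) (hp : p.Prime) (hpa : a < p) : ¬ p ∣ Q0 a := by
  unfold Q0
  intro h
  rcases (Nat.Prime.dvd_mul hp).mp h with h | h
  · have : p ≤ 2 := by
      have h4 : p ∣ 2 ^ 2 := by simpa using h
      exact Nat.le_of_dvd (by norm_num) (hp.dvd_of_dvd_pow h4)
    omega
  · obtain ⟨r, hr, hpr⟩ := (Prime.dvd_finset_prod_iff hp.prime _).mp h
    have h1 := mem_filter.mp hr
    have h2 := (mem_Ioc.mp h1.1).2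
    have := Nat.le_of_dvd h1.2.pos hpr
    omega

section sums

variable {a z : ℕ}

lemma sum_PI_le (B : Finset (PI a z)) (S : Finset ℕ) (f : ℕ → ℝ) (hf : ∀ p ∈ S, 0 ≤ f p)
    (hB : ∀ i ∈ B, i.1 ∈ S) : ∑ i ∈ B, f i.1 ≤ ∑ p ∈ S, f p := by
  classical
  rw [← Finset.sum_image (s := B) (g := fun i : PI a z => i.1) (f := f)
    (fun i _ j _ h => Subtype.ext h)]
  refine Finset.sum_le_sum_of_subset_of_nonneg ?_ (fun p hp _ => hf p hp)
  intro p hp
  obtain ⟨i, hi, rfl⟩ := mem_image.mp hp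
  exact hB i hi

lemma card_PI_le (B : Finset (PI a z)) (S : Finset ℕ) (hB : ∀ i ∈ B, i.1 ∈ S) :
    B.card ≤ S.card := by
  classical
  rw [← Finset.card_image_of_injective B (f := fun i : PI a z => i.1) Subtype.val_injective]
  refine card_le_card ?_
  intro p hp
  obtain ⟨i, hi, rfl⟩ := mem_image.mp hp
  exact hB i hi

lemma sum_inv_sq_triv (b u : ℕ) (hb : 1 ≤ b) :
    ∑ p ∈ Ioc b u, (1 : ℝ) / (p : ℝ) ^ 2 ≤ 1 / b := by
  rcases le_or_gt b u with h | h
  · have h1 := sum_Ioc_inv_sq_le_sub (α := ℝ) (k := b) (n := u) (by omega) h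
    have h2 : ∑ p ∈ Ioc b u, (1 : ℝ) / (p : ℝ) ^ 2 = ∑ i ∈ Ioc b u, ((i : ℝ) ^ 2)⁻¹ :=
      Finset.sum_congr rfl fun p _ => by rw [one_div]
    rw [h2]
    refine h1.trans ?_
    rw [one_div]
    have : (0 : ℝ) ≤ (u : ℝ)⁻¹ := by positivity
    linarith
  · rw [Finset.Ioc_eq_empty (by omega)]
    simp

end sums

lemma exp_cond (μ : ℝ) (k : ℕ) (hμ : 0 ≤ μ) (hk : 7 * μ + 1 ≤ k) :
    Real.exp (16 * μ) ≤ 16 ^ k * (1 / 8 * Real.exp (-2 * μ)) := by
  have h16 : (16 : ℝ) ^ k = Real.exp (k * (4 * Real.log 2)) := by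
    rw [mul_comm (k : ℝ), Real.exp_mul, mul_comm (4 : ℝ), Real.exp_mul, Real.exp_log (by norm_num)]
    rw [Real.rpow_natCast]
    norm_num
  have h8 : (1 : ℝ) / 8 = Real.exp (-(3 * Real.log 2)) := by
    rw [Real.exp_neg, mul_comm, Real.exp_mul, Real.exp_log (by norm_num)]
    norm_num
  rw [h16, h8, ← Real.exp_add, ← Real.exp_add, Real.exp_le_exp]
  have hl := Real.log_two_gt_d9
  have hl' := Real.log_two_lt_d9
  have h1 : (7 * μ + 1) * (4 * Real.log 2) ≤ k * (4 * Real.log 2) :=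
    mul_le_mul_of_nonneg_right hk (by linarith)
  nlinarith

/-- The main numerical bound for the majorant. -/
noncomputable def Psi1 (u1 u2 z K k1 k2 : ℕ) (lam1 lam2 : ℝ) : ℝ :=
  (lam1⁻¹ ^ k1 * Real.exp (lam1 * (u1 * (K * (3 + 4 * Real.log u1))))) *
  (lam2⁻¹ ^ k2 * Real.exp (lam2 * (u2 * (K * (3 + 4 * Real.log u2))))) *
  (3 + z * (K * (3 + 4 * Real.log z)))

open Classical in
lemma PsiB_le (a z u1 u2 K k1 k2 : ℕ) (lam1 lam2 : ℝ) (h1 : 0 < lam1) (h2 : 0 < lam2)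
    (B1 B2 B3 : Finset (PI a z)) (hB1 : ∀ i ∈ B1, i.1 ≤ u1) (hB2 : ∀ i ∈ B2, i.1 ≤ u2) :
    PsiB (nn a z) B1 B2 B3 K k1 k2 lam1 lam2 ≤ Psi1 u1 u2 z K k1 k2 lam1 lam2 := by
  have hlog : ∀ (i : PI a z) (u : ℕ), i.1 ≤ u → Real.log (nn a z i) ≤ 2 * Real.log u := by
    intro i u hiu
    unfold nn
    rw [Nat.cast_pow, Real.log_pow]
    push_cast
    have : Real.log i.1 ≤ Real.log u := by
      refine Real.log_le_log ?_ (by exact_mod_cast hiu)
      exact_mod_cast (PI_prime i).pos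
    linarith
  have hlog0 : ∀ (i : PI a z), 0 ≤ Real.log (nn a z i) := fun i => Real.log_natCast_nonneg _
  have hcard : ∀ (B : Finset (PI a z)) (u : ℕ), (∀ i ∈ B, i.1 ≤ u) → (B.card : ℝ) ≤ u := by
    intro B u hB
    have := card_PI_le B (Ioc 0 u) (fun i hi => mem_Ioc.mpr ⟨(PI_prime i).pos, hB i hi⟩)
    simp at this
    exact_mod_cast this
  have key : ∀ (B : Finset (PI a z)) (u k : ℕ) (lam : ℝ), 0 < lam → (∀ i ∈ B, i.1 ≤ u) →
      0 ≤ lam⁻¹ ^ k * ∏ i ∈ B, (1 + lam * (K * (3 + 2 * Real.log (nn a z i)))) ∧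
      lam⁻¹ ^ k * ∏ i ∈ B, (1 + lam * (K * (3 + 2 * Real.log (nn a z i)))) ≤
      lam⁻¹ ^ k * Real.exp (lam * (u * (K * (3 + 4 * Real.log u)))) := by
    intro B u k lam hlam hB
    have hp : ∀ i ∈ B, 0 ≤ 1 + lam * (K * (3 + 2 * Real.log (nn a z i))) := by
      intro i _
      have := hlog0 i
      positivity
    refine ⟨mul_nonneg (by positivity) (Finset.prod_nonneg hp), ?_⟩
    refine mul_le_mul_of_nonneg_left ?_ (by positivity)
    have hu0 : 0 ≤ Real.log u := Real.log_natCast_nonneg _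
    calc ∏ i ∈ B, (1 + lam * (K * (3 + 2 * Real.log (nn a z i))))
        ≤ ∏ i ∈ B, Real.exp (lam * (K * (3 + 4 * Real.log u))) := by
          refine Finset.prod_le_prod hp fun i hi => ?_
          have h3 : lam * (K * (3 + 2 * Real.log (nn a z i))) ≤
              lam * (K * (3 + 4 * Real.log u)) := by
            refine mul_le_mul_of_nonneg_left (mul_le_mul_of_nonneg_left ?_ (Nat.cast_nonneg _))
              hlam.le
            have := hlog i u (hB i hi)
            linarith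
          have h4 := Real.add_one_le_exp (lam * (K * (3 + 4 * Real.log u)))
          linarith
      _ = Real.exp (B.card * (lam * (K * (3 + 4 * Real.log u)))) := by
          rw [Finset.prod_const, ← Real.exp_nat_mul]
      _ ≤ Real.exp (lam * (u * (K * (3 + 4 * Real.log u)))) := by
          rw [Real.exp_le_exp]
          have := mul_le_mul_of_nonneg_right (hcard B u hB)
            (show 0 ≤ lam * (K * (3 + 4 * Real.log u)) by positivity)
          calc _ ≤ u * (lam * (K * (3 + 4 * Real.log u))) := this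
            _ = _ := by ring
  have k1' := key B1 u1 k1 lam1 h1 hB1
  have k2' := key B2 u2 k2 lam2 h2 hB2
  have k3 : (3 : ℝ) + ∑ i ∈ B3, (K : ℝ) * (3 + 2 * Real.log (nn a z i)) ≤
      3 + z * (K * (3 + 4 * Real.log z)) := by
    have hz0 : 0 ≤ Real.log z := Real.log_natCast_nonneg _
    have h3 : ∑ i ∈ B3, (K : ℝ) * (3 + 2 * Real.log (nn a z i)) ≤
        ∑ i ∈ B3, (K : ℝ) * (3 + 4 * Real.log z) := by
      refine Finset.sum_le_sum fun i _ => mul_le_mul_of_nonneg_left ?_ (Nat.cast_nonneg _)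
      have := hlog i z (PI_le i)
      linarith
    rw [Finset.sum_const, nsmul_eq_mul] at h3
    have h4 := mul_le_mul_of_nonneg_right (hcard B3 z (fun i _ => PI_le i))
      (show 0 ≤ (K : ℝ) * (3 + 4 * Real.log z) by positivity)
    linarith
  have k30 : (0 : ℝ) ≤ 3 + ∑ i ∈ B3, (K : ℝ) * (3 + 2 * Real.log (nn a z i)) := by
    have : 0 ≤ ∑ i ∈ B3, (K : ℝ) * (3 + 2 * Real.log (nn a z i)) := by
      refine Finset.sum_nonneg fun i _ => ?_
      have := hlog0 i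
      positivity
    linarith
  unfold PsiB Psi1
  refine mul_le_mul (mul_le_mul k1'.2 k2'.2 k2'.1 ?_) k3 k30 ?_
  · positivity
  · positivity

end Pool.Agent.Helper31.SQ
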