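import Pool.Agent.Helper31.SQ.Asym2
import Pool.Agent.Helper31.SQ.Param

/-! Project SQ: the remaining conditions. -/

open Filter

namespace Pool.Agent.Helper31.SQ

namespace Base

variable {L M K : ℝ} (h : Base L M K)

include h

lemma exp_half (c : ℝ) (hc : 1 / 1000 ≤ c) : Real.exp (c * L) / 2 ≤ ((⌊Real.exp (c * L)⌋₊ : ℕ) : ℝ) := by
  have h1 := (Nat.lt_floor_add_one (Real.exp (c * L))).le
  have h2 : 2 ≤ Real.exp (c * L) := by
    have h3 := h.Lpow 1 (by norm_num)
    have h4 := h.L1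
    have h5 : Real.exp (L / 1000) ≤ Real.exp (c * L) := by
      rw [Real.exp_le_exp]
      have := h.Lpos
      nlinarith
    rw [pow_one] at h3
    linarith
  linarith

lemma V_ge : Real.exp (4 * L / 5) / 2 ≤ (VP L : ℝ) := by
  have := h.exp_half (4 / 5) (by norm_num)
  unfold VP
  rw [show 4 * L / 5 = 4 / 5 * L by ring]
  exact this

lemma V_le : (VP L : ℝ) ≤ Real.exp (4 * L / 5) := Nat.floor_le (Real.exp_pos _).le

lemma X_ge : Real.exp (L / 2) / 2 ≤ (XP L : ℝ) := by
  have := h.exp_half (1 / 2) (by norm_num)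
  unfold XP
  rw [show L / 2 = 1 / 2 * L by ring]
  exact this

lemma X_le : (XP L : ℝ) ≤ Real.exp (L / 2) := Nat.floor_le (Real.exp_pos _).le

lemma z_ge : Real.exp (L / 8) / 2 ≤ (zP L : ℝ) := by
  have := h.exp_half (1 / 8) (by norm_num)
  unfold zP
  rw [show L / 8 = 1 / 8 * L by ring]
  exact this

lemma z_le : (zP L : ℝ) ≤ Real.exp (L / 8) := Nat.floor_le (Real.exp_pos _).le

lemma exp_ge (c : ℝ) (hc : 1 / 1000 ≤ c) (k : ℕ) (hk : k ≤ 12) :
    10 ^ 6 * L ^ k ≤ Real.exp (c * L) := by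
  refine (h.Lpow k hk).trans ?_
  rw [Real.exp_le_exp]
  have := h.Lpos
  nlinarith

lemma s_leL : (sP L : ℝ) + 1 ≤ L ^ 2 := by
  have h1 := h.s_le
  have h2 := h.L6
  nlinarith

lemma T_leL : (TP M K : ℝ) + 2 ≤ L := by
  have h1 := h.T_leM
  have h2 := h.Mpow 2 (by norm_num)
  have : 0 ≤ M ^ 2 := sq_nonneg M
  linarith

lemma c_V : 0 < VP L := by
  have h1 := h.V_ge
  have : (0 : ℝ) < (VP L : ℝ) := lt_of_lt_of_le (by positivity) h1
  exact_mod_cast this

lemma c_X : 2 ≤ XP L := by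
  have h1 := h.X_ge
  have h2 := h.exp_ge (1 / 2) (by norm_num) 1 (by norm_num)
  have h3 := h.L1
  rw [pow_one, show 1 / 2 * L = L / 2 by ring] at h2
  have : (2 : ℝ) ≤ (XP L : ℝ) := by linarith
  exact_mod_cast this

lemma c_zX : zP L ^ 2 ≤ XP L := by
  have h1 := h.z_le
  have h2 : (zP L : ℝ) ^ 2 ≤ Real.exp (L / 4) := by
    calc (zP L : ℝ) ^ 2 ≤ Real.exp (L / 8) ^ 2 := pow_le_pow_left₀ (Nat.cast_nonneg _) h1 2
      _ = Real.exp (L / 4) := by rw [← Real.exp_nat_mul]; congr 1; push_cast; ring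
  have h3 := h.X_ge
  have h4 : Real.exp (L / 4) ≤ Real.exp (L / 2) / 2 := by
    have h5 := h.exp_ge (1 / 4) (by norm_num) 1 (by norm_num)
    have h6 := h.L1
    rw [pow_one, show 1 / 4 * L = L / 4 by ring] at h5
    have h7 : Real.exp (L / 2) = Real.exp (L / 4) * Real.exp (L / 4) := by
      rw [← Real.exp_add]; congr 1; ring
    rw [h7]
    nlinarith [Real.exp_pos (L / 4)]
  have : ((zP L ^ 2 : ℕ) : ℝ) ≤ (XP L : ℝ) := by push_cast; linarith
  exact_mod_cast this

lemma Q0_le' : (Q0 (aP L) : ℝ) ≤ 4 * Real.exp (L / 14) := by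
  have h1 : (Q0 (aP L) : ℝ) ≤ 4 * 4 ^ (aP L) := by exact_mod_cast Q0_le (aP L)
  refine h1.trans ?_
  have h4 : (4 : ℝ) ^ (aP L) = Real.exp (aP L * Real.log 4) := by
    rw [mul_comm, Real.exp_mul, Real.exp_log (by norm_num), Real.rpow_natCast]
  rw [h4]
  have h5 : Real.log 4 = 2 * Real.log 2 := by
    rw [show (4 : ℝ) = 2 ^ 2 by norm_num, Real.log_pow]; norm_num
  have h6 := Real.log_two_lt_d9
  have h7 := Real.log_two_gt_d9
  have h8 := h.a_le
  have h9 := h.Lpos
  refine mul_le_mul_of_nonneg_left ?_ (by norm_num)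
  rw [Real.exp_le_exp, h5]
  calc (aP L : ℝ) * (2 * Real.log 2) ≤ (L / 20) * (2 * Real.log 2) :=
        mul_le_mul_of_nonneg_right h8 (by linarith)
    _ ≤ L / 14 := by nlinarith

lemma c_N (N : ℕ) (hN : (N : ℝ) = Real.exp L) :
    1 + Q0 (aP L) * VP L + Q0 (aP L) * XP L * sP L ≤ N := by
  have h1 := h.Q0_le'
  have h2 := h.V_le
  have h3 := h.X_le
  have h4 := h.s_leL
  have hL := h.Lpos
  have hL1 := h.L1
  have e1 : (Q0 (aP L) : ℝ) * (VP L : ℝ) ≤ 4 * Real.exp (L / 14) * Real.exp (4 * L / 5) :=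
    mul_le_mul h1 h2 (Nat.cast_nonneg _) (by positivity)
  have e2 : (Q0 (aP L) : ℝ) * (XP L : ℝ) * (sP L : ℝ) ≤
      4 * Real.exp (L / 14) * Real.exp (L / 2) * L ^ 2 :=
    mul_le_mul (mul_le_mul h1 h3 (Nat.cast_nonneg _) (by positivity)) (by linarith)
      (Nat.cast_nonneg _) (by positivity)
  have g1 := h.exp_ge (9 / 70) (by norm_num) 0 (by norm_num)
  have g2 := h.exp_ge (3 / 7) (by norm_num) 2 (by norm_num)
  have g3 := h.exp_ge 1 (by norm_num) 0 (by norm_num)
  rw [pow_zero] at g1 g3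
  rw [one_mul] at g3
  have f1 : 4 * Real.exp (L / 14) * Real.exp (4 * L / 5) ≤ Real.exp L / 4 := by
    have : Real.exp L = Real.exp (L / 14) * Real.exp (4 * L / 5) * Real.exp (9 / 70 * L) := by
      rw [← Real.exp_add, ← Real.exp_add]; congr 1; ring
    rw [this]
    have hp : 0 < Real.exp (L / 14) * Real.exp (4 * L / 5) := by positivity
    nlinarith
  have f2 : 4 * Real.exp (L / 14) * Real.exp (L / 2) * L ^ 2 ≤ Real.exp L / 4 := by
    have : Real.exp L = Real.exp (L / 14) * Real.exp (L / 2) * Real.exp (3 / 7 * L) := by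
      rw [← Real.exp_add, ← Real.exp_add]; congr 1; ring
    rw [this]
    have hp : 0 < Real.exp (L / 14) * Real.exp (L / 2) := by positivity
    have hq : 0 < L ^ 2 := by positivity
    nlinarith
  have : ((1 + Q0 (aP L) * VP L + Q0 (aP L) * XP L * sP L : ℕ) : ℝ) ≤ (N : ℝ) := by
    push_cast
    rw [hN]
    linarith
  exact_mod_cast this

/-- The main term. -/
lemma main_exp : Real.exp (-(L / 100)) ≤
    Real.exp (-(3 * (yP L M : ℝ) / Real.log (aP L)) - 2 * μ1P L K - 2 * μ2P L M) := by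
  rw [Real.exp_le_exp]
  have hL := h.Lpos
  have hM := h.Mpos
  have hK := h.Kpos
  have hMb := h.Mbig
  have hLb := h.L6
  have hloga : 9 / 10 * M ≤ Real.log (aP L) := by
    have h1 := h.a_ge
    have h2 : L / 21 ≤ (aP L : ℝ) := by linarith
    have h3 := Real.log_le_log (by positivity) h2
    rw [Real.log_div (by positivity) (by norm_num), h.hM] at h3
    have h4 : Real.log 21 ≤ 4 := by
      rw [Real.log_le_iff_le_exp (by norm_num)]
      have h5 : (2.7 : ℝ) ^ 4 ≤ Real.exp 1 ^ 4 :=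
        pow_le_pow_left₀ (by norm_num) (by have := Real.exp_one_gt_d9; linarith) 4
      rw [← Real.exp_nat_mul] at h5
      norm_num at h5
      linarith
    linarith
  have h1 : 3 * (yP L M : ℝ) / Real.log (aP L) ≤ L / 150 := by
    rw [div_le_iff₀ (by linarith)]
    have h2 := h.y_le
    have h3 : L / 150 * (9 / 10 * M) ≤ L / 150 * Real.log (aP L) :=
      mul_le_mul_of_nonneg_left hloga (by positivity)
    have h4 : 1 ≤ L * M := by nlinarith
    nlinarith
  have h2 : 2 * μ1P L K ≤ L / 1000 := by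
    unfold μ1P
    rw [← mul_div_assoc, div_le_div_iff₀ (by positivity) (by norm_num)]
    have := h.K1
    nlinarith
  have h3 : 2 * μ2P L M ≤ L / 1000 := by
    unfold μ2P
    rw [← mul_div_assoc, div_le_div_iff₀ (by positivity) (by norm_num)]
    nlinarith
  linarith

/-- The bound for the majorant. -/
lemma Psi1_le : Psi1 (u1P L M) (u2P L) (zP L) (TP M K + 2) (k1P L K) (k2P L M)
    (M ^ 7)⁻¹ (L ^ 4)⁻¹ ≤ 2 * L ^ 2 * Real.exp (L / 8 + L / 80) := by
  have hL := h.Lpos
  have hL1 := h.L1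
  have hL6 := h.L6
  have hM := h.Mpos
  have hK := h.Kpos
  have hMb := h.Mbig
  have hKM := h.KleM
  have hMK := h.KM
  have hM1 := h.Mpow 1 (by norm_num)
  rw [pow_one] at hM1
  have hT0 : 0 ≤ (TP M K : ℝ) + 2 := by positivity
  -- logs
  have hlu1 : Real.log (u1P L M) ≤ 5 * M := by
    have h1 := h.u1_le
    have hp : 1 ≤ L * M ^ 3 := by
      have : 1 ≤ M ^ 3 := one_le_pow₀ (by linarith)
      nlinarith
    have h2 : (u1P L M : ℝ) ≤ 2 * (L * M ^ 3) := by linarith
    have hu0 : (0 : ℝ) < (u1P L M : ℝ) := lt_of_lt_of_le (by positivity) h.u1_ge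
    have h3 := Real.log_le_log hu0 h2
    rw [Real.log_mul (by norm_num) (by positivity), Real.log_mul (by positivity) (by positivity),
      Real.log_pow, h.hM, h.hK] at h3
    have := Real.log_two_lt_d9
    push_cast at h3
    linarith
  have hlu2 : Real.log (u2P L) ≤ 4 * M := by
    have h1 := h.u2_le
    have hp : 1 ≤ L ^ 3 := one_le_pow₀ hL1
    have h2 : (u2P L : ℝ) ≤ 2 * L ^ 3 := by linarith
    have hu0 : (0 : ℝ) < (u2P L : ℝ) := lt_of_lt_of_le (by positivity) h.u2_ge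
    have h3 := Real.log_le_log hu0 h2
    rw [Real.log_mul (by norm_num) (by positivity), Real.log_pow, h.hM] at h3
    have := Real.log_two_lt_d9
    push_cast at h3
    linarith
  have hlz : Real.log (zP L) ≤ L / 8 := by
    have hz0 : (0 : ℝ) < (zP L : ℝ) := lt_of_lt_of_le (by positivity) h.z_ge
    have := Real.log_le_log hz0 h.z_le
    rwa [Real.log_exp] at this
  have i1 : 0 ≤ Real.log (u1P L M) := Real.log_natCast_nonneg _
  have i2 : 0 ≤ Real.log (u2P L) := Real.log_natCast_nonneg _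
  have i3 : 0 ≤ Real.log (zP L) := Real.log_natCast_nonneg _
  -- first factor
  have f1 : ((M ^ 7)⁻¹)⁻¹ ^ (k1P L K) ≤ Real.exp (L / 150 + 14 * K) := by
    have e1 : ((M ^ 7)⁻¹)⁻¹ ^ (k1P L K) = Real.exp (7 * (k1P L K) * K) := by
      rw [inv_inv, ← pow_mul, ← h.expK, ← Real.exp_nat_mul]
      congr 1
      push_cast
      ring
    rw [e1, Real.exp_le_exp]
    have h1 := (Nat.ceil_lt_add_one (show 0 ≤ L / (2200 * K) by positivity)).le
    have h2 : ((k1P L K : ℕ) : ℝ) ≤ 2 * (L / (2200 * K) + 1) := by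
      unfold k1P
      push_cast
      linarith
    calc 7 * (k1P L K : ℝ) * K ≤ 7 * (2 * (L / (2200 * K) + 1)) * K := by
          refine mul_le_mul_of_nonneg_right ?_ hK.le
          linarith
      _ = 14 * L / 2200 + 14 * K := by
          have h3 : L / (2200 * K) * K = L / 2200 := by field_simp
          linear_combination 14 * h3
      _ ≤ L / 150 + 14 * K := by linarith
  have f2 : Real.exp ((M ^ 7)⁻¹ * ((u1P L M : ℝ) * (((TP M K + 2 : ℕ) : ℝ) *
      (3 + 4 * Real.log (u1P L M))))) ≤ Real.exp (L / 1000) := by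
    rw [Real.exp_le_exp]
    have h1 := h.u1_le
    have hp : 1 ≤ L * M ^ 3 := by
      have : 1 ≤ M ^ 3 := one_le_pow₀ (by linarith)
      nlinarith
    have h2 : (u1P L M : ℝ) ≤ 2 * (L * M ^ 3) := by linarith
    have h3 := h.T_leM
    have h4 : 3 + 4 * Real.log (u1P L M) ≤ 23 * M := by linarith
    have h5 : (u1P L M : ℝ) * (((TP M K + 2 : ℕ) : ℝ) * (3 + 4 * Real.log (u1P L M))) ≤
        2 * (L * M ^ 3) * (M ^ 2 * (23 * M)) := by
      push_cast
      refine mul_le_mul h2 (mul_le_mul h3 h4 (by positivity) (by positivity)) (by positivity)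
        (by positivity)
    calc (M ^ 7)⁻¹ * ((u1P L M : ℝ) * (((TP M K + 2 : ℕ) : ℝ) * (3 + 4 * Real.log (u1P L M))))
        ≤ (M ^ 7)⁻¹ * (2 * (L * M ^ 3) * (M ^ 2 * (23 * M))) :=
          mul_le_mul_of_nonneg_left h5 (by positivity)
      _ = 46 * L / M := by field_simp; ring
      _ ≤ L / 1000 := by
          rw [div_le_div_iff₀ hM (by norm_num)]
          nlinarith
  have f3 : ((L ^ 4)⁻¹)⁻¹ ^ (k2P L M) ≤ Real.exp (L / 270 + 8 * M) := by
    have e1 : ((L ^ 4)⁻¹)⁻¹ ^ (k2P L M) = Real.exp (4 * (k2P L M) * M) := by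
      rw [inv_inv, ← pow_mul]
      nth_rewrite 1 [← h.expM]
      rw [← Real.exp_nat_mul]
      congr 1
      push_cast
      ring
    rw [e1, Real.exp_le_exp]
    have h1 := (Nat.ceil_lt_add_one (show 0 ≤ L / (2200 * M) by positivity)).le
    have h2 : ((k2P L M : ℕ) : ℝ) ≤ 2 * (L / (2200 * M) + 1) := by
      unfold k2P
      push_cast
      linarith
    calc 4 * (k2P L M : ℝ) * M ≤ 4 * (2 * (L / (2200 * M) + 1)) * M := by
          refine mul_le_mul_of_nonneg_right ?_ hM.le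
          linarith
      _ = 8 * L / 2200 + 8 * M := by
          have h3 : L / (2200 * M) * M = L / 2200 := by field_simp
          linear_combination 8 * h3
      _ ≤ L / 270 + 8 * M := by linarith
  have f4 : Real.exp ((L ^ 4)⁻¹ * ((u2P L : ℝ) * (((TP M K + 2 : ℕ) : ℝ) *
      (3 + 4 * Real.log (u2P L))))) ≤ Real.exp 1 := by
    rw [Real.exp_le_exp]
    have h1 := h.u2_le
    have hp : 1 ≤ L ^ 3 := one_le_pow₀ hL1
    have h2 : (u2P L : ℝ) ≤ 2 * L ^ 3 := by linarith
    have h3 := h.T_leM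
    have h4 : 3 + 4 * Real.log (u2P L) ≤ 19 * M := by linarith
    have h5 : (u2P L : ℝ) * (((TP M K + 2 : ℕ) : ℝ) * (3 + 4 * Real.log (u2P L))) ≤
        2 * L ^ 3 * (M ^ 2 * (19 * M)) := by
      push_cast
      refine mul_le_mul h2 (mul_le_mul h3 h4 (by positivity) (by positivity)) (by positivity)
        (by positivity)
    calc (L ^ 4)⁻¹ * ((u2P L : ℝ) * (((TP M K + 2 : ℕ) : ℝ) * (3 + 4 * Real.log (u2P L))))
        ≤ (L ^ 4)⁻¹ * (2 * L ^ 3 * (M ^ 2 * (19 * M))) :=
          mul_le_mul_of_nonneg_left h5 (by positivity)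
      _ = 38 * M ^ 3 / L := by field_simp; ring
      _ ≤ 1 := by
          rw [div_le_one hL]
          have := h.Mpow 3 (by norm_num)
          have : 0 ≤ M ^ 3 := by positivity
          linarith
  have f5 : 3 + (zP L : ℝ) * (((TP M K + 2 : ℕ) : ℝ) * (3 + 4 * Real.log (zP L))) ≤
      2 * L ^ 2 * Real.exp (L / 8) := by
    have h1 := h.z_le
    have h2 := h.T_leL
    have h3 : 3 + 4 * Real.log (zP L) ≤ L := by linarith
    have h4 : (zP L : ℝ) * (((TP M K + 2 : ℕ) : ℝ) * (3 + 4 * Real.log (zP L))) ≤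
        Real.exp (L / 8) * (L * L) := by
      push_cast
      refine mul_le_mul h1 (mul_le_mul h2 h3 (by positivity) hL.le) (by positivity)
        (by positivity)
    have h5 : 3 ≤ Real.exp (L / 8) * (L * L) := by
      have : 1 ≤ Real.exp (L / 8) := Real.one_le_exp (by positivity)
      nlinarith
    calc _ ≤ Real.exp (L / 8) * (L * L) + Real.exp (L / 8) * (L * L) := by linarith
      _ = _ := by ring
  unfold Psi1
  have hg1 : ((M ^ 7)⁻¹)⁻¹ ^ (k1P L K) * Real.exp ((M ^ 7)⁻¹ * ((u1P L M : ℝ) *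
      (((TP M K + 2 : ℕ) : ℝ) * (3 + 4 * Real.log (u1P L M))))) ≤
      Real.exp (L / 150 + 14 * K) * Real.exp (L / 1000) :=
    mul_le_mul f1 f2 (by positivity) (by positivity)
  have hg2 : ((L ^ 4)⁻¹)⁻¹ ^ (k2P L M) * Real.exp ((L ^ 4)⁻¹ * ((u2P L : ℝ) *
      (((TP M K + 2 : ℕ) : ℝ) * (3 + 4 * Real.log (u2P L))))) ≤
      Real.exp (L / 270 + 8 * M) * Real.exp 1 :=
    mul_le_mul f3 f4 (by positivity) (by positivity)
  refine (mul_le_mul (mul_le_mul hg1 hg2 (by positivity) (by positivity)) f5 (by positivity)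
    (by positivity)).trans ?_
  have e : Real.exp (L / 150 + 14 * K) * Real.exp (L / 1000) *
      (Real.exp (L / 270 + 8 * M) * Real.exp 1) * (2 * L ^ 2 * Real.exp (L / 8)) =
      2 * L ^ 2 * Real.exp (L / 150 + 14 * K + L / 1000 + (L / 270 + 8 * M) + 1 + L / 8) := by
    rw [Real.exp_add _ (L / 8), Real.exp_add _ 1, Real.exp_add _ (L / 270 + 8 * M),
      Real.exp_add _ (L / 1000)]
    ring
  rw [e]
  refine mul_le_mul_of_nonneg_left ?_ (by positivity)
  rw [Real.exp_le_exp]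
  nlinarith

lemma c_fin (N : ℕ) (hN : (N : ℝ) = Real.exp L) :
    (TP M K : ℝ) * (2 * sP L) * (2 * VP L / zP L + Nat.sqrt (2 * N) + 1) +
      TP M K * (sP L + 1) ^ 2 +
      VP L * (Psi1 (u1P L M) (u2P L) (zP L) (TP M K + 2) (k1P L K) (k2P L M)
        (M ^ 7)⁻¹ (L ^ 4)⁻¹ *
        (4 * zP L * (2 * Real.log (XP L)) / XP L + XP L / VP L)) <
      VP L * (1 / 2 * Real.exp (-(3 * yP L M / Real.log (aP L)) - 2 * μ1P L K - 2 * μ2P L M)) := by
  have hL := h.Lpos
  have hL1 := h.L1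
  have hT := h.T_leL
  have hs := h.s_leL
  have hVge := h.V_ge
  have hVle := h.V_le
  have hXge := h.X_ge
  have hXle := h.X_le
  have hzge := h.z_ge
  have hzle := h.z_le
  have hPsi := h.Psi1_le
  have hmain := h.main_exp
  set V : ℝ := (VP L : ℝ) with hV
  set X : ℝ := (XP L : ℝ) with hX
  set z : ℝ := (zP L : ℝ) with hz
  set T : ℝ := (TP M K : ℝ) with hTdef
  set s : ℝ := (sP L : ℝ) with hsdef
  have hV0 : 0 < V := lt_of_lt_of_le (by positivity) hVge
  have hX0 : 0 < X := lt_of_lt_of_le (by positivity) hXge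
  have hz0 : 0 < z := lt_of_lt_of_le (by positivity) hzge
  have hT0 : 0 ≤ T := Nat.cast_nonneg _
  have hs0 : 0 ≤ s := Nat.cast_nonneg _
  set E := Real.exp (-(L / 8)) with hE
  have hE0 : 0 < E := Real.exp_pos _
  have hTL : T ≤ L := by linarith
  have hsL : s ≤ L ^ 2 := by linarith
  -- term 1
  have t1a : 2 * V / z ≤ V * (4 * E) := by
    rw [div_le_iff₀ hz0]
    have h1 : 1 / 2 ≤ E * z := by
      have : E * (Real.exp (L / 8) / 2) ≤ E * z := mul_le_mul_of_nonneg_left hzge hE0.le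
      have h2 : E * (Real.exp (L / 8) / 2) = 1 / 2 := by
        rw [← mul_div_assoc, hE, ← Real.exp_add]
        simp
      linarith
    nlinarith
  have t1b : (Nat.sqrt (2 * N) : ℝ) + 1 ≤ V * (6 * E) := by
    have h1 : (Nat.sqrt (2 * N) : ℝ) ≤ 2 * Real.exp (L / 2) := by
      have h2 : (Nat.sqrt (2 * N) : ℝ) ^ 2 ≤ 2 * Real.exp L := by
        have := Nat.sqrt_le' (2 * N)
        have h3 : ((Nat.sqrt (2 * N) ^ 2 : ℕ) : ℝ) ≤ ((2 * N : ℕ) : ℝ) := by exact_mod_cast this
        push_cast at h3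
        rw [hN] at h3
        exact h3
      have h4 : (2 * Real.exp (L / 2)) ^ 2 = 4 * Real.exp L := by
        rw [mul_pow, ← Real.exp_nat_mul]
        have : ((2 : ℕ) : ℝ) * (L / 2) = L := by push_cast; ring
        rw [this]
        norm_num
      refine (pow_le_pow_iff_left₀ (by positivity) (by positivity) two_ne_zero).mp ?_
      rw [h4]
      have := Real.exp_pos L
      linarith
    have h2 : 1 ≤ Real.exp (L / 2) := Real.one_le_exp (by positivity)
    have h3 : Real.exp (L / 2) ≤ Real.exp (4 * L / 5) * E := by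
      rw [hE, ← Real.exp_add, Real.exp_le_exp]
      linarith
    have h4 : Real.exp (4 * L / 5) * E ≤ 2 * V * E :=
      mul_le_mul_of_nonneg_right (by linarith) hE0.le
    linarith
  have t1 : T * (2 * s) * (2 * V / z + Nat.sqrt (2 * N) + 1) ≤ V * (20 * L ^ 3 * E) := by
    have h1 : T * (2 * s) ≤ L * (2 * L ^ 2) := mul_le_mul hTL (by linarith) (by linarith) hL.le
    have h2 : 2 * V / z + Nat.sqrt (2 * N) + 1 ≤ V * (10 * E) := by linarith
    calc T * (2 * s) * (2 * V / z + Nat.sqrt (2 * N) + 1) ≤ L * (2 * L ^ 2) * (V * (10 * E)) :=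
          mul_le_mul h1 h2 (by positivity) (by positivity)
      _ = V * (20 * L ^ 3 * E) := by ring
  have t2 : T * (s + 1) ^ 2 ≤ V * (2 * L ^ 5 * E) := by
    have h1 : (s + 1) ^ 2 ≤ (L ^ 2) ^ 2 := pow_le_pow_left₀ (by linarith) hs 2
    have h2 : T * (s + 1) ^ 2 ≤ L * (L ^ 2) ^ 2 := mul_le_mul hTL h1 (by positivity) hL.le
    have h3 : 1 / 2 ≤ V * E := by
      have h4 : Real.exp (4 * L / 5) / 2 * E ≤ V * E := mul_le_mul_of_nonneg_right hVge hE0.le
      have h5 : 1 ≤ Real.exp (4 * L / 5) * E := by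
        rw [hE, ← Real.exp_add]
        exact Real.one_le_exp (by linarith)
      linarith
    have h6 : 0 ≤ L ^ 5 := by positivity
    calc T * (s + 1) ^ 2 ≤ L * (L ^ 2) ^ 2 := h2
      _ = 2 * L ^ 5 * (1 / 2) := by ring
      _ ≤ 2 * L ^ 5 * (V * E) := mul_le_mul_of_nonneg_left h3 (by positivity)
      _ = _ := by ring
  have t3 : V * (Psi1 (u1P L M) (u2P L) (zP L) (TP M K + 2) (k1P L K) (k2P L M)
        (M ^ 7)⁻¹ (L ^ 4)⁻¹ * (4 * z * (2 * Real.log X) / X + X / V)) ≤
        V * (20 * L ^ 3 * E) := by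
    refine mul_le_mul_of_nonneg_left ?_ hV0.le
    have hlogX : Real.log X ≤ L / 2 := by
      have := Real.log_le_log hX0 hXle
      rwa [Real.log_exp] at this
    have hlogX0 : 0 ≤ Real.log X := Real.log_natCast_nonneg _
    have a1 : 4 * z * (2 * Real.log X) / X ≤ 8 * L * Real.exp (-(3 * L / 10)) := by
      rw [div_le_iff₀ hX0]
      have h1 : 4 * z * (2 * Real.log X) ≤ 4 * Real.exp (L / 8) * (2 * (L / 2)) :=
        mul_le_mul (by linarith) (by linarith) (by positivity) (by positivity)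
      have h2 : Real.exp (L / 8) ≤ Real.exp (-(3 * L / 10)) * Real.exp (L / 2) := by
        rw [← Real.exp_add, Real.exp_le_exp]; linarith
      have h3 : Real.exp (-(3 * L / 10)) * Real.exp (L / 2) ≤
          Real.exp (-(3 * L / 10)) * (2 * X) :=
        mul_le_mul_of_nonneg_left (by linarith) (Real.exp_pos _).le
      calc 4 * z * (2 * Real.log X) ≤ 4 * Real.exp (L / 8) * (2 * (L / 2)) := h1
        _ = 4 * L * Real.exp (L / 8) := by ring
        _ ≤ 4 * L * (Real.exp (-(3 * L / 10)) * (2 * X)) :=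
            mul_le_mul_of_nonneg_left (h2.trans h3) (by positivity)
        _ = _ := by ring
    have a2 : X / V ≤ 2 * Real.exp (-(3 * L / 10)) := by
      rw [div_le_iff₀ hV0]
      have h2 : Real.exp (L / 2) = Real.exp (-(3 * L / 10)) * Real.exp (4 * L / 5) := by
        rw [← Real.exp_add]; congr 1; ring
      have h3 : Real.exp (-(3 * L / 10)) * Real.exp (4 * L / 5) ≤
          Real.exp (-(3 * L / 10)) * (2 * V) :=
        mul_le_mul_of_nonneg_left (by linarith) (Real.exp_pos _).le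
      linarith
    have a3 : 4 * z * (2 * Real.log X) / X + X / V ≤ 10 * L * Real.exp (-(3 * L / 10)) := by
      have : Real.exp (-(3 * L / 10)) ≤ L * Real.exp (-(3 * L / 10)) := by
        have := Real.exp_pos (-(3 * L / 10))
        nlinarith
      linarith
    have a4 : 0 ≤ 4 * z * (2 * Real.log X) / X + X / V := by positivity
    refine (mul_le_mul hPsi a3 a4 (by positivity)).trans ?_
    have a5 : Real.exp (L / 8 + L / 80) * Real.exp (-(3 * L / 10)) ≤ E := by
      rw [hE, ← Real.exp_add, Real.exp_le_exp]; linarith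
    calc 2 * L ^ 2 * Real.exp (L / 8 + L / 80) * (10 * L * Real.exp (-(3 * L / 10)))
        = 20 * L ^ 3 * (Real.exp (L / 8 + L / 80) * Real.exp (-(3 * L / 10))) := by ring
      _ ≤ 20 * L ^ 3 * E := mul_le_mul_of_nonneg_left a5 (by positivity)
  have t4 : 42 * L ^ 5 * E < 1 / 2 * Real.exp (-(L / 100)) := by
    have h1 := h.exp_ge (1 / 10) (by norm_num) 5 (by norm_num)
    have h2 : Real.exp (-(L / 100)) = Real.exp (23 * L / 200) * E := by
      rw [hE, ← Real.exp_add]; congr 1; ring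
    have h3 : Real.exp (1 / 10 * L) ≤ Real.exp (23 * L / 200) := by
      rw [Real.exp_le_exp]; linarith
    rw [h2]
    have h5 : 0 < L ^ 5 := by positivity
    have h6 : 42 * L ^ 5 < 1 / 2 * Real.exp (23 * L / 200) := by linarith
    calc 42 * L ^ 5 * E < 1 / 2 * Real.exp (23 * L / 200) * E :=
          mul_lt_mul_of_pos_right h6 hE0
      _ = _ := by ring
  have h35 : L ^ 3 ≤ L ^ 5 := pow_le_pow_right₀ hL1 (by norm_num)
  have t5 : V * (20 * L ^ 3 * E) + V * (2 * L ^ 5 * E) + V * (20 * L ^ 3 * E) ≤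
      V * (42 * L ^ 5 * E) := by
    have : L ^ 3 * E ≤ L ^ 5 * E := mul_le_mul_of_nonneg_right h35 hE0.le
    have h2 : V * (L ^ 3 * E) ≤ V * (L ^ 5 * E) := mul_le_mul_of_nonneg_left this hV0.le
    calc V * (20 * L ^ 3 * E) + V * (2 * L ^ 5 * E) + V * (20 * L ^ 3 * E)
        = 40 * (V * (L ^ 3 * E)) + 2 * (V * (L ^ 5 * E)) := by ring
      _ ≤ 40 * (V * (L ^ 5 * E)) + 2 * (V * (L ^ 5 * E)) := by linarith
      _ = V * (42 * L ^ 5 * E) := by ring
  have t6 : V * (42 * L ^ 5 * E) < V * (1 / 2 * Real.exp (-(L / 100))) :=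
    mul_lt_mul_of_pos_left t4 hV0
  have t7 : V * (1 / 2 * Real.exp (-(L / 100))) ≤ V * (1 / 2 * Real.exp
      (-(3 * (yP L M : ℝ) / Real.log (aP L)) - 2 * μ1P L K - 2 * μ2P L M)) :=
    mul_le_mul_of_nonneg_left (mul_le_mul_of_nonneg_left hmain (by norm_num)) hV0.le
  linarith

end Base

end Pool.Agent.Helper31.SQ
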