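import Mathlib

/-! Project SQ (MP_d5570f_nt), piece Bonf: Bonferroni inequalities for real numbers in `[0, 1]`.

PROOFS. Put `S k X = ∑ R ∈ X.powerset with #R ≤ k, (-1)^#R ∏_{i ∈ R} b i`, `Π X = ∏_{i ∈ X} (1 - b i)`.
* By induction on `X`, for all `k`: `(-1)^k (S k X - Π X) ≥ 0`. Empty set: equality. Step: for `a ∉ X`
  and `k ≥ 1`, `S k (insert a X) = S k X - b a * S (k-1) X` (subsets without / with `a`), and for
  `k = 0`, `S 0 = 1 ≥ Π`. Hence `S k (insert a X) - Π (insert a X) = (S k X - Π X) - b a (S (k-1) X - Π X)`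
  and both terms, multiplied by `(-1)^k`, are `≥ 0`. This gives `bonf_upper` (k even).
* `bonf_lower`: for even `k ≥ 1`, `S k X - ∑_{#R = k} ∏ b = S (k-1) X ≤ Π X` (as `(-1)^k = 1`).
* `ek_le`: `∏ (1 + ρ b i) = ∑_{R ⊆ X} ρ^#R ∏_{i ∈ R} b i ≥ ρ^k ∑_{#R = k} ∏_{i ∈ R} b i`
  (`Finset.prod_one_add` or `Finset.prod_add`; all terms are nonnegative).
* `prod_one_sub_ge`: `1 - x ≥ exp (-2x)` for `0 ≤ x ≤ 1/2` (convexity, or `Real.one_sub_inv_le_log_of_pos`:
  `log (1-x) ≥ 1 - 1/(1-x) = -x/(1-x) ≥ -2x`).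
-/

open Finset

namespace Pool.Agent.Helper31.SQ

/-- The truncated alternating sum. -/
noncomputable def bonfS {ι : Type*} [DecidableEq ι] (b : ι → ℝ) (k : ℕ) (X : Finset ι) : ℝ :=
  ∑ R ∈ X.powerset.filter (fun R => R.card ≤ k), (-1) ^ R.card * ∏ i ∈ R, b i

theorem bonfS_eq {ι : Type*} [DecidableEq ι] (b : ι → ℝ) (k : ℕ) (X : Finset ι) :
    bonfS b k X = ∑ R ∈ X.powerset, if R.card ≤ k then (-1) ^ R.card * ∏ i ∈ R, b i else 0 := by
  unfold bonfS
  rw [Finset.sum_filter]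

theorem bonfS_zero {ι : Type*} [DecidableEq ι] (b : ι → ℝ) (X : Finset ι) :
    bonfS b 0 X = 1 := by
  unfold bonfS
  have : X.powerset.filter (fun R => R.card ≤ 0) = {∅} := by
    ext R
    simp only [mem_filter, mem_powerset, nonpos_iff_eq_zero, card_eq_zero, mem_singleton]
    constructor
    · exact fun h => h.2
    · rintro rfl
      exact ⟨empty_subset _, rfl⟩
  rw [this]
  simp

theorem bonfS_succ {ι : Type*} [DecidableEq ι] (b : ι → ℝ) (k : ℕ) (X : Finset ι) (a : ι)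
    (ha : a ∉ X) :
    bonfS b (k + 1) (insert a X) = bonfS b (k + 1) X - b a * bonfS b k X := by
  rw [bonfS_eq, bonfS_eq, bonfS_eq, Finset.sum_powerset_insert ha, mul_sum, sub_eq_add_neg,
    ← sum_neg_distrib]
  congr 1
  refine sum_congr rfl ?_
  intro R hR
  have haR : a ∉ R := fun h => ha (mem_powerset.1 hR h)
  rw [card_insert_of_notMem haR, prod_insert haR]
  by_cases h : R.card ≤ k
  · rw [if_pos h, if_pos (by omega)]
    ring
  · rw [if_neg h, if_neg (by omega)]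
    ring

theorem bonf_main {ι : Type*} [DecidableEq ι] (b : ι → ℝ) (X : Finset ι) :
    (∀ i ∈ X, 0 ≤ b i) → (∀ i ∈ X, b i ≤ 1) →
    ∀ k : ℕ, 0 ≤ (-1 : ℝ) ^ k * (bonfS b k X - ∏ i ∈ X, (1 - b i)) := by
  induction X using Finset.induction_on with
  | empty =>
    intro _ _ k
    have : bonfS b k ∅ = 1 := by
      unfold bonfS
      rw [powerset_empty, filter_singleton, if_pos (by simp)]
      simp
    rw [this]
    simp
  | insert a X ha ih =>
    intro h0 h1 k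
    have h0' : ∀ i ∈ X, 0 ≤ b i := fun i hi => h0 i (mem_insert_of_mem hi)
    have h1' : ∀ i ∈ X, b i ≤ 1 := fun i hi => h1 i (mem_insert_of_mem hi)
    have hi := ih h0' h1'
    cases k with
    | zero =>
      rw [bonfS_zero]
      have : ∏ i ∈ insert a X, (1 - b i) ≤ 1 :=
        prod_le_one (fun i hi => sub_nonneg.2 (h1 i hi))
          (fun i hi => sub_le_self _ (h0 i hi))
      simp only [pow_zero, one_mul]
      linarith
    | succ k =>
      rw [bonfS_succ b k X a ha, prod_insert ha]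
      have e : (-1 : ℝ) ^ (k + 1) * (bonfS b (k + 1) X - b a * bonfS b k X -
          (1 - b a) * ∏ i ∈ X, (1 - b i)) =
          (-1 : ℝ) ^ (k + 1) * (bonfS b (k + 1) X - ∏ i ∈ X, (1 - b i)) +
          b a * ((-1 : ℝ) ^ k * (bonfS b k X - ∏ i ∈ X, (1 - b i))) := by
        rw [pow_succ]
        ring
      rw [e]
      exact add_nonneg (hi (k + 1)) (mul_nonneg (h0 a (mem_insert_self a X)) (hi k))

theorem bonf_upper {ι : Type*} [DecidableEq ι] (X : Finset ι) (b : ι → ℝ)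
    (h0 : ∀ i ∈ X, 0 ≤ b i) (h1 : ∀ i ∈ X, b i ≤ 1) (k : ℕ) (hk : Even k) :
    ∏ i ∈ X, (1 - b i) ≤
      ∑ R ∈ X.powerset.filter (fun R => R.card ≤ k), (-1) ^ R.card * ∏ i ∈ R, b i := by
  have h := bonf_main b X h0 h1 k
  rw [hk.neg_one_pow, one_mul] at h
  exact sub_nonneg.1 h

theorem bonf_lower {ι : Type*} [DecidableEq ι] (X : Finset ι) (b : ι → ℝ)
    (h0 : ∀ i ∈ X, 0 ≤ b i) (h1 : ∀ i ∈ X, b i ≤ 1) (k : ℕ) (hk : Even k) (hk0 : 0 < k) :
    ∑ R ∈ X.powerset.filter (fun R => R.card ≤ k), (-1) ^ R.card * ∏ i ∈ R, b i -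
      ∑ R ∈ X.powersetCard k, ∏ i ∈ R, b i ≤ ∏ i ∈ X, (1 - b i) := by
  obtain ⟨m, rfl⟩ : ∃ m, k = m + 1 := ⟨k - 1, by omega⟩
  have hm : Odd m := by
    rcases Nat.even_or_odd m with h | h
    · exact absurd hk (by simpa [Nat.even_add_one] using h)
    · exact h
  have h := bonf_main b X h0 h1 m
  rw [hm.neg_one_pow] at h
  have e : ∑ R ∈ X.powerset.filter (fun R => R.card ≤ m + 1), (-1) ^ R.card * ∏ i ∈ R, b i =
      bonfS b m X + ∑ R ∈ X.powersetCard (m + 1), ∏ i ∈ R, b i := by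
    have hd : X.powerset.filter (fun R => R.card ≤ m + 1) =
        X.powerset.filter (fun R => R.card ≤ m) ∪ X.powersetCard (m + 1) := by
      ext R
      simp only [mem_filter, mem_powerset, mem_union, mem_powersetCard]
      constructor
      · rintro ⟨h1, h2⟩
        rcases Nat.lt_or_ge m R.card with h3 | h3
        · exact Or.inr ⟨h1, by omega⟩
        · exact Or.inl ⟨h1, h3⟩
      · rintro (⟨h1, h2⟩ | ⟨h1, h2⟩)
        · exact ⟨h1, by omega⟩
        · exact ⟨h1, by omega⟩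
    rw [hd, sum_union]
    · unfold bonfS
      congr 1
      refine sum_congr rfl ?_
      intro R hR
      rw [(mem_powersetCard.1 hR).2, hk.neg_one_pow, one_mul]
    · rw [disjoint_left]
      intro R hR hR'
      have := (mem_filter.1 hR).2
      have := (mem_powersetCard.1 hR').2
      omega
  rw [e]
  linarith

theorem ek_le {ι : Type*} [DecidableEq ι] (X : Finset ι) (b : ι → ℝ)
    (h0 : ∀ i ∈ X, 0 ≤ b i) (k : ℕ) (ρ : ℝ) (hρ : 0 < ρ) :
    ρ ^ k * ∑ R ∈ X.powersetCard k, ∏ i ∈ R, b i ≤ ∏ i ∈ X, (1 + ρ * b i) := by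
  have e : ∏ i ∈ X, (1 + ρ * b i) = ∑ R ∈ X.powerset, ∏ i ∈ R, (ρ * b i) := by
    rw [Finset.prod_one_add]
  rw [e, mul_sum]
  have e2 : ∑ R ∈ X.powersetCard k, ρ ^ k * ∏ i ∈ R, b i =
      ∑ R ∈ X.powersetCard k, ∏ i ∈ R, (ρ * b i) := by
    refine sum_congr rfl ?_
    intro R hR
    rw [prod_mul_distrib, prod_const, (mem_powersetCard.1 hR).2]
  rw [e2]
  refine sum_le_sum_of_subset_of_nonneg ?_ ?_
  · intro R hR
    exact mem_powerset.2 (mem_powersetCard.1 hR).1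
  · intro R hR _
    exact prod_nonneg fun i hi => mul_nonneg hρ.le (h0 i (mem_powerset.1 hR hi))

theorem prod_one_sub_ge {ι : Type*} (X : Finset ι) (b : ι → ℝ)
    (h0 : ∀ i ∈ X, 0 ≤ b i) (h1 : ∀ i ∈ X, b i ≤ 1 / 2) :
    Real.exp (-2 * ∑ i ∈ X, b i) ≤ ∏ i ∈ X, (1 - b i) := by
  rw [mul_sum, Real.exp_sum]
  refine prod_le_prod (fun i _ => (Real.exp_pos _).le) ?_
  intro i hi
  have hb0 := h0 i hi
  have hb1 := h1 i hi
  have hpos : 0 < 1 - b i := by linarith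
  rw [← Real.le_log_iff_exp_le hpos]
  have h := Real.one_sub_inv_le_log_of_pos hpos
  refine le_trans ?_ h
  have : (1 - b i)⁻¹ ≤ 1 + 2 * b i := by
    rw [inv_le_comm₀ hpos (by linarith), inv_eq_one_div, div_le_iff₀ (by linarith)]
    nlinarith
  linarith

theorem prod_one_add_le {ι : Type*} (X : Finset ι) (b : ι → ℝ)
    (h0 : ∀ i ∈ X, 0 ≤ b i) (c : ℝ) (hc : 0 ≤ c) :
    ∏ i ∈ X, (1 + c * b i) ≤ Real.exp (c * ∑ i ∈ X, b i) := by
  rw [mul_sum, Real.exp_sum]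
  refine prod_le_prod (fun i hi => ?_) ?_
  · have := mul_nonneg hc (h0 i hi)
    linarith
  · intro i hi
    have := Real.add_one_le_exp (c * b i)
    linarith

end Pool.Agent.Helper31.SQ
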