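import Pool.Agent.Helper31.SQ.Defs

/-! Project SQ (MP_d5570f_nt), piece Crt: independence of the coordinates (Chinese remainder theorem).

PROOF. For `i ∉ S` put `g i = 1` and for `i ∈ S` put `g i = f i`; then
`∏ i ∈ S, f i (pr n i x) = ∏ i, g i (pr n i x)` (`Finset.prod_ite_mem`-like). By the ring isomorphism
`ZMod.prodEquivPi n hn : ZMod (∏ i, n i) ≃+* Π i, ZMod (n i)` (whose `i`-th coordinate is `pr n i`,
`ZMod.prodEquivPi_apply`) and `Finset.prod_univ_sum` / `Fintype.piFinset_univ`,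
`∑ x, ∏ i, g i (pr n i x) = ∑ x : Π i, ZMod (n i), ∏ i, g i (x i) = ∏ i, ∑ y, g i y`.
Dividing by `∏ n i`: the factors `i ∉ S` are `∑ y, 1 / n i = 1`.
-/

open Finset

namespace Pool.Agent.Helper31.SQ

theorem pr_surj {ι : Type*} [Fintype ι] (n : ι → ℕ) (i : ι) : Function.Surjective (pr n i) :=
  ZMod.castHom_surjective _

theorem crt_mean {ι : Type*} [Fintype ι] [DecidableEq ι] (n : ι → ℕ) [∀ i, NeZero (n i)]
    [NeZero (∏ i, n i)] (hn : Pairwise (Function.onFun Nat.Coprime n)) (S : Finset ι)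
    (f : (i : ι) → ZMod (n i) → ℝ) :
    (∑ x : ZMod (∏ i, n i), ∏ i ∈ S, f i (pr n i x)) / ((∏ i, n i : ℕ) : ℝ) =
      ∏ i ∈ S, ((∑ y : ZMod (n i), f i y) / (n i : ℝ)) := by
  classical
  set g : (i : ι) → ZMod (n i) → ℝ := fun i y => if i ∈ S then f i y else 1 with hg
  have h1 : ∀ x : ZMod (∏ i, n i), ∏ i ∈ S, f i (pr n i x) = ∏ i, g i (pr n i x) := by
    intro x
    rw [hg]
    simp only
    rw [Finset.prod_ite, Finset.prod_const_one, mul_one, Finset.filter_mem_eq_inter,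
      Finset.univ_inter]
  have h2 : ∑ x : ZMod (∏ i, n i), ∏ i, g i (pr n i x) =
      ∑ x : (Π i, ZMod (n i)), ∏ i, g i (x i) := by
    refine Fintype.sum_equiv (ZMod.prodEquivPi n hn).toEquiv _ _ ?_
    intro x
    refine Finset.prod_congr rfl fun i _ => ?_
    have := ZMod.prodEquivPi_apply n hn x i
    simp only [RingEquiv.toEquiv_eq_coe, EquivLike.coe_coe]
    rw [this]
    rfl
  have h3 : ∑ x : (Π i, ZMod (n i)), ∏ i, g i (x i) = ∏ i, ∑ y : ZMod (n i), g i y := by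
    rw [Finset.prod_univ_sum, Fintype.piFinset_univ]
  rw [Finset.sum_congr rfl (fun x _ => h1 x), h2, h3]
  have h4 : ((∏ i, n i : ℕ) : ℝ) = ∏ i, (n i : ℝ) := by push_cast; rfl
  rw [h4, ← Finset.prod_div_distrib]
  have h5 : ∀ i, (∑ y : ZMod (n i), g i y) / (n i : ℝ) =
      if i ∈ S then (∑ y : ZMod (n i), f i y) / (n i : ℝ) else 1 := by
    intro i
    by_cases hi : i ∈ S
    · simp only [hg, hi, if_true]
    · simp only [hg, hi, if_false]
      rw [Finset.sum_const, Finset.card_univ, ZMod.card, nsmul_eq_mul, mul_one]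
      exact div_self (Nat.cast_ne_zero.mpr (NeZero.ne (n i)))
  rw [Finset.prod_congr rfl (fun i _ => h5 i), Finset.prod_ite, Finset.prod_const_one, mul_one,
    Finset.filter_mem_eq_inter, Finset.univ_inter]

end Pool.Agent.Helper31.SQ
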