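import Mathlib

/-! Project SQ (MP_d5570f_nt): definitions. -/

open Finset

namespace Pool.Agent.Helper31.SQ

/-- Fourier coefficient of a function on a finite abelian group at the character `ψ`. -/
noncomputable def cf {G : Type*} [AddCommGroup G] [Fintype G] (f : G → ℂ) (ψ : AddChar G ℂ) : ℂ :=
  (∑ x, f x * ψ (-x)) / (Fintype.card G : ℂ)

/-- `f` is dominated by `g`: the Fourier coefficients of `g` are real and at least the absolute
values of those of `f`. -/
def Dom {G : Type*} [AddCommGroup G] [Fintype G] (f g : G → ℂ) : Prop :=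
  ∀ ψ : AddChar G ℂ, ‖cf f ψ‖ ≤ (cf g ψ).re ∧ (cf g ψ).im = 0

/-- The tent of half-width `l` at `0` on `ZMod n`, with value `1` at `0`. -/
noncomputable def tent (n l : ℕ) (x : ZMod n) : ℝ :=
  (((range l ×ˢ range l).filter
    (fun a : ℕ × ℕ => ((a.1 : ℕ) : ZMod n) - ((a.2 : ℕ) : ZMod n) = x)).card : ℝ) / l

/-- The union of the arcs `c - 1, …, c - w` for `c ∈ C`. -/
def arcs (n w : ℕ) (C : Finset (ZMod n)) : Finset (ZMod n) :=
  C.biUnion (fun c => (range w).image (fun m : ℕ => c - ((m : ℕ) : ZMod n) - 1))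

/-- A function whose Fourier coefficients majorise those of every arc. -/
noncomputable def om (n : ℕ) [NeZero n] (x : ZMod n) : ℂ :=
  ∑ ψ : AddChar (ZMod n) ℂ, (((if ψ = 0 then 1 else 2 / (n * ‖1 - ψ 1‖)) : ℝ) : ℂ) * ψ x

/-- The projection of `ZMod (∏ n i)` to `ZMod (n i)`. -/
noncomputable def pr {ι : Type*} [Fintype ι] (n : ι → ℕ) (i : ι) :
    ZMod (∏ j, n j) →+* ZMod (n i) :=
  ZMod.castHom (dvd_prod_of_mem n (mem_univ i)) (ZMod (n i))

end Pool.Agent.Helper31.SQ
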