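import Pool.Agent.Helper31.SQ.Defs

/-! Project SQ (MP_d5570f_nt), piece Equi.

PROOFS.
* `geo`: put `b = k * q⁻¹ ∈ ZMod M` and `b' = b.valMinAbs` (so `|b'| ≤ M/2`), `β = b'/M`. The summand is
  `z * r ^ v` with `‖z‖ = 1` and `r = e(b'/M)`. CLAIM `|b'|/M ≥ 1/(2q)`, i.e. `2 q |b'| ≥ M`.
  Otherwise `|q b'| < M/2` (as integers `2 |q b'| < M`), and `q b' ≡ q b = k` modulo `M` (q is a unit
  mod M, `ZMod.coe_mul_inv_eq_one` or `ZMod.mul_inv_of_unit`), so `k.valMinAbs = q b'`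
  (`ZMod.valMinAbs_spec`: `x.valMinAbs = y ↔ x = y ∧ y*2 ∈ Set.Ioc (-n) n`), contradiction to
  `¬ q ∣ k.valMinAbs`. Now `‖∑_{v<V} z r^v‖ ≤ 2/‖1 - r‖` (geometric sum, `r ≠ 1`) and
  `‖1 - r‖ = 2 |sin(π b'/M)| ≥ 4 |b'|/M ≥ 2/q` (Jordan inequality `Real.mul_le_sin`,
  `|b'|/M ≤ 1/2`). So the sum is `≤ 2/(2/q) = q`.
* `choose_q`: every `ψ ≠ 0` is `x ↦ ZMod.stdAddChar (k * x)` with `k ≠ 0` (`AddChar.zmodAddEquiv`,
  or `AddChar.exists_mulShift`-type statement). By `geo`, for every `q ∈ Q` the term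
  `t(ψ,q) = ‖(∑_{v<V} ψ(…))/V‖` is at most `q/V ≤ X/V` if `q ∤ k.valMinAbs`, and at most `1` otherwise.
  The integer `k.valMinAbs` is nonzero of absolute value `≤ M/2`, and distinct primes `q ∈ Q`
  dividing it have a product `≤ M`, so there are at most `log₂ M` of them
  (`2 ^ #bad ≤ ∏ q ≤ M`; `Finset.prod_primes_dvd` or `Nat.primeFactors`). Hence
  `∑_{q ∈ Q} t(ψ,q) ≤ log₂ M + #Q X/V` for every `ψ ≠ 0`, so
  `∑_{q ∈ Q} ∑_{ψ ≠ 0} W ψ t(ψ,q) ≤ (∑ W) (log₂ M + #Q X/V)`, and some `q ∈ Q` is at most the average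
  (`Finset.exists_le_of_sum_le`).
-/

open Finset

namespace Pool.Agent.Helper31.SQ

theorem equi_norm_geom (r : ℂ) (hr : ‖r‖ = 1) (hr1 : r ≠ 1) (V : ℕ) :
    ‖∑ v ∈ range V, r ^ v‖ ≤ 2 / ‖r - 1‖ := by
  have hpos : 0 < ‖r - 1‖ := norm_pos_iff.2 (sub_ne_zero.2 hr1)
  rw [le_div_iff₀ hpos, ← norm_mul, geom_sum_mul]
  calc ‖r ^ V - 1‖ ≤ ‖r ^ V‖ + ‖(1 : ℂ)‖ := norm_sub_le _ _
    _ = 2 := by rw [norm_pow, hr, one_pow, norm_one]; norm_num

theorem equi_char (M : ℕ) [NeZero M] (b : ZMod M) :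
    ZMod.stdAddChar b =
      Complex.exp (Complex.I * ((2 * Real.pi * (b.valMinAbs : ℝ) / M : ℝ) : ℂ)) := by
  have h := ZMod.stdAddChar_coe (N := M) b.valMinAbs
  rw [ZMod.coe_valMinAbs] at h
  rw [h]
  congr 1
  push_cast
  ring

theorem equi_dist (M q : ℕ) [NeZero M] (hq : q.Coprime M) (k : ZMod M)
    (hk : ¬ ((q : ℤ) ∣ k.valMinAbs)) :
    (M : ℤ) ≤ 2 * q * |(k * (q : ZMod M)⁻¹).valMinAbs| := by
  by_contra hcon
  push Not at hcon
  apply hk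
  set b' : ℤ := (k * (q : ZMod M)⁻¹).valMinAbs with hb'
  have h1 : k.valMinAbs = (q : ℤ) * b' := by
    rw [ZMod.valMinAbs_spec]
    constructor
    · push_cast
      rw [hb', ZMod.coe_valMinAbs, mul_comm k, ← mul_assoc, ZMod.coe_mul_inv_eq_one q hq, one_mul]
    · have h2 : |(q : ℤ) * b' * 2| < M := by
        rw [abs_mul, abs_mul, abs_of_nonneg (by positivity : (0 : ℤ) ≤ q)]
        norm_num
        linarith
      have h3 := abs_lt.1 h2
      exact ⟨h3.1, h3.2.le⟩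
  exact ⟨b', h1⟩

theorem geo (M q : ℕ) [NeZero M] (hq1 : 1 ≤ q) (hq : q.Coprime M) (k : ZMod M)
    (hk : ¬ ((q : ℤ) ∣ k.valMinAbs)) (c : ZMod M) (V : ℕ) :
    ‖∑ v ∈ range V, ZMod.stdAddChar (k * ((q : ZMod M)⁻¹ * (c + ((v : ℕ) : ZMod M))))‖ ≤ (q : ℝ) := by
  set b : ZMod M := k * (q : ZMod M)⁻¹ with hb
  have hM : 0 < (M : ℝ) := by
    have := Nat.pos_of_ne_zero (NeZero.ne M)
    exact_mod_cast this
  have hqpos : 0 < (q : ℝ) := by exact_mod_cast (by omega : 0 < q)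
  have hterm : ∀ v : ℕ, ZMod.stdAddChar (k * ((q : ZMod M)⁻¹ * (c + ((v : ℕ) : ZMod M)))) =
      ZMod.stdAddChar (b * c) * (ZMod.stdAddChar b) ^ v := by
    intro v
    rw [← AddChar.map_nsmul_eq_pow, ← AddChar.map_add_eq_mul]
    congr 1
    rw [hb, nsmul_eq_mul]
    ring
  simp_rw [hterm]
  rw [← mul_sum, norm_mul]
  have hn1 : ∀ x : ZMod M, ‖ZMod.stdAddChar x‖ = 1 := by
    intro x
    rw [equi_char, mul_comm, Complex.norm_exp_ofReal_mul_I]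
  rw [hn1, one_mul]
  have hdist := equi_dist M q hq k hk
  rw [← hb] at hdist
  have hdistR : (M : ℝ) ≤ 2 * q * |(b.valMinAbs : ℝ)| := by
    have := (Int.cast_le (R := ℝ)).2 hdist
    push_cast at this
    exact this
  have hnorm : 2 / (q : ℝ) ≤ ‖ZMod.stdAddChar b - 1‖ := by
    rw [equi_char, Complex.norm_exp_I_mul_ofReal_sub_one]
    rw [Real.norm_eq_abs, abs_mul, abs_of_pos (by norm_num : (0 : ℝ) < 2)]
    have hx : |2 * Real.pi * (b.valMinAbs : ℝ) / M / 2| ≤ Real.pi / 2 := by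
      have h1 : |(b.valMinAbs : ℝ)| * 2 ≤ M := by
        have h2 := b.valMinAbs_mem_Ioc
        have h3 : |b.valMinAbs * 2| ≤ (M : ℤ) := abs_le.2 ⟨h2.1.le, h2.2⟩
        have h4 := (Int.cast_le (R := ℝ)).2 h3
        push_cast at h4
        rw [abs_mul] at h4
        norm_num at h4
        exact h4
      rw [show 2 * Real.pi * (b.valMinAbs : ℝ) / M / 2 = Real.pi * ((b.valMinAbs : ℝ) / M) by ring,
        abs_mul, abs_of_pos Real.pi_pos, abs_div, abs_of_pos hM]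
      have : |(b.valMinAbs : ℝ)| / M ≤ 1 / 2 := by
        rw [div_le_div_iff₀ hM (by norm_num)]
        linarith
      nlinarith [Real.pi_pos]
    have h5 := Real.mul_abs_le_abs_sin hx
    rw [show 2 * Real.pi * (b.valMinAbs : ℝ) / M / 2 = Real.pi * ((b.valMinAbs : ℝ) / M) by ring] at h5 ⊢
    rw [abs_mul, abs_of_pos Real.pi_pos, abs_div, abs_of_pos hM] at h5
    have h6 : 2 / Real.pi * (Real.pi * (|(b.valMinAbs : ℝ)| / M)) = 2 * (|(b.valMinAbs : ℝ)| / M) := by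
      field_simp
    rw [h6] at h5
    have h7 : 1 / (2 * (q : ℝ)) ≤ |(b.valMinAbs : ℝ)| / M := by
      rw [div_le_div_iff₀ (by positivity) hM]
      linarith
    calc 2 / (q : ℝ) = 4 * (1 / (2 * (q : ℝ))) := by field_simp; norm_num
      _ ≤ 4 * (|(b.valMinAbs : ℝ)| / M) := by linarith
      _ ≤ 2 * |Real.sin (Real.pi * ((b.valMinAbs : ℝ) / M))| := by linarith
  have hne : ZMod.stdAddChar b ≠ 1 := by
    intro h
    rw [h, sub_self, norm_zero] at hnorm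
    have : 0 < 2 / (q : ℝ) := by positivity
    linarith
  calc ‖∑ v ∈ range V, (ZMod.stdAddChar b) ^ v‖ ≤ 2 / ‖ZMod.stdAddChar b - 1‖ :=
        equi_norm_geom _ (hn1 b) hne V
    _ ≤ 2 / (2 / (q : ℝ)) := by
        apply div_le_div_of_nonneg_left (by norm_num) (by positivity) hnorm
    _ = q := by field_simp

theorem equi_exists_mulShift (M : ℕ) [NeZero M] (ψ : AddChar (ZMod M) ℂ) (hψ : ψ ≠ 0) :
    ∃ k : ZMod M, k ≠ 0 ∧ ∀ x, ψ x = ZMod.stdAddChar (k * x) := by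
  have hinj : Function.Injective
      (fun k : ZMod M => AddChar.mulShift (ZMod.stdAddChar (N := M)) k) :=
    AddChar.to_mulShift_inj_of_isPrimitive (ZMod.isPrimitive_stdAddChar M)
  have hbij : Function.Bijective
      (fun k : ZMod M => AddChar.mulShift (ZMod.stdAddChar (N := M)) k) := by
    rw [Fintype.bijective_iff_injective_and_card]
    exact ⟨hinj, by rw [AddChar.card_eq]⟩
  obtain ⟨k, hk⟩ := hbij.2 ψ
  refine ⟨k, ?_, ?_⟩
  · rintro rfl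
    apply hψ
    rw [← hk]
    exact AddChar.mulShift_zero _
  · intro x
    rw [← hk]
    exact AddChar.mulShift_apply

/-- Few primes of `Q` divide a nonzero integer of absolute value at most `M`. -/
theorem equi_few (M : ℕ) (Q : Finset ℕ) (hQ : ∀ q ∈ Q, q.Prime) (m : ℤ) (hm : m ≠ 0)
    (hmM : m.natAbs ≤ M) :
    (Q.filter (fun q : ℕ => (q : ℤ) ∣ m)).card ≤ Nat.log 2 M := by
  classical
  set B := Q.filter (fun q : ℕ => (q : ℤ) ∣ m) with hB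
  have h1 : ∏ q ∈ B, q ∣ m.natAbs := by
    apply Finset.prod_primes_dvd
    · intro q hq
      exact (hQ q (mem_filter.1 hq).1).prime
    · intro q hq
      exact Int.natCast_dvd.1 (mem_filter.1 hq).2
  have h2 : 2 ^ B.card ≤ ∏ q ∈ B, q := by
    rw [← prod_const]
    exact prod_le_prod' (fun q hq => (hQ q (mem_filter.1 hq).1).two_le)
  have h3 : ∏ q ∈ B, q ≤ m.natAbs := Nat.le_of_dvd (Int.natAbs_pos.2 hm) h1
  have hM : M ≠ 0 := by
    intro h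
    rw [h] at hmM
    exact hm (Int.natAbs_eq_zero.1 (by omega))
  exact Nat.le_log_of_pow_le (by norm_num) (by omega)

theorem equi_sum_char (M X V : ℕ) [NeZero M] (hV : 0 < V) (Q : Finset ℕ)
    (hQ' : ∀ q ∈ Q, q.Prime ∧ q.Coprime M ∧ q ≤ X) (c : ZMod M)
    (ψ : AddChar (ZMod M) ℂ) (hψ : ψ ≠ 0) :
    ∑ q ∈ Q, ‖(∑ v ∈ range V, ψ ((q : ZMod M)⁻¹ * (c + ((v : ℕ) : ZMod M)))) / (V : ℂ)‖ ≤
      (Nat.log 2 M : ℝ) + Q.card * ((X : ℝ) / V) := by
  classical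
  obtain ⟨k, hk0, hk⟩ := equi_exists_mulShift M ψ hψ
  have hVR : (0 : ℝ) < V := by exact_mod_cast hV
  have hn1 : ∀ x : ZMod M, ‖ZMod.stdAddChar x‖ = 1 := by
    intro x
    rw [equi_char, mul_comm, Complex.norm_exp_ofReal_mul_I]
  have hmne : k.valMinAbs ≠ 0 := by
    intro h
    exact hk0 (by rw [← ZMod.coe_valMinAbs k, h, Int.cast_zero])
  have hmM : k.valMinAbs.natAbs ≤ M := by
    have h2 := k.valMinAbs_mem_Ioc
    have h3 := h2.1
    have h4 := h2.2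
    omega
  have hfew := equi_few M Q (fun q hq => (hQ' q hq).1) k.valMinAbs hmne hmM
  have hterm : ∀ q ∈ Q,
      ‖(∑ v ∈ range V, ψ ((q : ZMod M)⁻¹ * (c + ((v : ℕ) : ZMod M)))) / (V : ℂ)‖ ≤
        (if (q : ℤ) ∣ k.valMinAbs then (1 : ℝ) else 0) + (X : ℝ) / V := by
    intro q hq
    obtain ⟨hqp, hqM, hqX⟩ := hQ' q hq
    rw [norm_div, Complex.norm_natCast]
    split_ifs with hdiv
    · have h1 : ‖∑ v ∈ range V, ψ ((q : ZMod M)⁻¹ * (c + ((v : ℕ) : ZMod M)))‖ ≤ V := by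
        calc _ ≤ ∑ v ∈ range V, ‖ψ ((q : ZMod M)⁻¹ * (c + ((v : ℕ) : ZMod M)))‖ := norm_sum_le _ _
          _ = ∑ v ∈ range V, (1 : ℝ) := by
              apply sum_congr rfl
              intro v _
              rw [hk, hn1]
          _ = V := by simp
      have h2 : ‖∑ v ∈ range V, ψ ((q : ZMod M)⁻¹ * (c + ((v : ℕ) : ZMod M)))‖ / V ≤ 1 := by
        rw [div_le_one hVR]
        exact h1
      have h3 : (0 : ℝ) ≤ (X : ℝ) / V := by positivity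
      linarith
    · have h1 : ‖∑ v ∈ range V, ψ ((q : ZMod M)⁻¹ * (c + ((v : ℕ) : ZMod M)))‖ ≤ q := by
        simp_rw [hk]
        exact geo M q hqp.one_lt.le hqM k hdiv c V
      rw [zero_add]
      apply div_le_div_of_nonneg_right _ hVR.le
      have : (q : ℝ) ≤ X := by exact_mod_cast hqX
      linarith
  calc _ ≤ ∑ q ∈ Q, ((if (q : ℤ) ∣ k.valMinAbs then (1 : ℝ) else 0) + (X : ℝ) / V) :=
        sum_le_sum hterm
    _ = ((Q.filter (fun q : ℕ => (q : ℤ) ∣ k.valMinAbs)).card : ℝ) + Q.card * ((X : ℝ) / V) := by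
        rw [sum_add_distrib, sum_const, nsmul_eq_mul, ← sum_filter, sum_const, nsmul_eq_mul, mul_one]
    _ ≤ _ := by
        have : ((Q.filter (fun q : ℕ => (q : ℤ) ∣ k.valMinAbs)).card : ℝ) ≤ (Nat.log 2 M : ℝ) := by
          exact_mod_cast hfew
        linarith

theorem choose_q (M X V : ℕ) [NeZero M] (hV : 0 < V) (Q : Finset ℕ) (hQ : Q.Nonempty)
    (hQ' : ∀ q ∈ Q, q.Prime ∧ q.Coprime M ∧ q ≤ X)
    (W : AddChar (ZMod M) ℂ → ℝ) (hW : ∀ ψ, 0 ≤ W ψ) (c : ZMod M) :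
    ∃ q ∈ Q, ∑ ψ ∈ univ.erase (0 : AddChar (ZMod M) ℂ),
      W ψ * ‖(∑ v ∈ range V, ψ ((q : ZMod M)⁻¹ * (c + ((v : ℕ) : ZMod M)))) / (V : ℂ)‖ ≤
      (∑ ψ, W ψ) * ((Nat.log 2 M : ℝ) / Q.card + (X : ℝ) / V) := by
  classical
  have hQc : (0 : ℝ) < Q.card := by exact_mod_cast hQ.card_pos
  apply exists_le_of_sum_le hQ
  rw [sum_comm, sum_const, nsmul_eq_mul]
  calc ∑ ψ ∈ univ.erase (0 : AddChar (ZMod M) ℂ), ∑ q ∈ Q,
        W ψ * ‖(∑ v ∈ range V, ψ ((q : ZMod M)⁻¹ * (c + ((v : ℕ) : ZMod M)))) / (V : ℂ)‖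
      ≤ ∑ ψ ∈ univ.erase (0 : AddChar (ZMod M) ℂ),
        W ψ * ((Nat.log 2 M : ℝ) + Q.card * ((X : ℝ) / V)) := by
        apply sum_le_sum
        intro ψ hψ
        rw [← mul_sum]
        exact mul_le_mul_of_nonneg_left
          (equi_sum_char M X V hV Q hQ' c ψ (mem_erase.1 hψ).1) (hW ψ)
    _ ≤ ∑ ψ, W ψ * ((Nat.log 2 M : ℝ) + Q.card * ((X : ℝ) / V)) := by
        apply sum_le_sum_of_subset_of_nonneg (erase_subset _ _)
        intro ψ _ _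
        exact mul_nonneg (hW ψ) (by positivity)
    _ = (Q.card : ℝ) * ((∑ ψ, W ψ) * ((Nat.log 2 M : ℝ) / Q.card + (X : ℝ) / V)) := by
        rw [← sum_mul]
        field_simp

end Pool.Agent.Helper31.SQ
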