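import Pool.Agent.Helper31.SQ.Param

/-! Project SQ: the lower bound `T s ≤ f N` under explicit numerical conditions (main statement). -/

open Finset

namespace Pool.Agent.Helper31.SQ

/-- Half-widths of the tents. -/
def ll (s p : ℕ) : ℕ := (p ^ 2 - 2 * s) / 4

lemma stat_conv (a z Q s q v : ℕ) (i : PI a z) (hqM : q.Coprime (∏ i, nn a z i))
    (hQM : Q.Coprime (∏ i, nn a z i))
    (hst : tf (nn a z) (fun i => ll s i.1) i (pr (nn a z) i (xv a z Q q v)) ≠ 0) :
    ∃ r : ℕ, 1 ≤ r ∧ r ≤ 2 * ll s i.1 - 1 ∧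
      ((1 + Q * v : ℕ) : ZMod (i.1 ^ 2)) = ((Q * q * r : ℕ) : ZMod (i.1 ^ 2)) := by
  obtain ⟨r, hr1, hr2, hr3⟩ := tent_supp (nn a z i) (ll s i.1) (pr (nn a z) i (xv a z Q q v)) hst
  refine ⟨r, hr1, hr2, ?_⟩
  have hx := xv_spec a z Q q v hqM hQM i
  rw [hr3] at hx
  have h5 : ((1 + Q * v : ℕ) : ZMod (nn a z i)) = ((Q * q * r : ℕ) : ZMod (nn a z i)) := by
    rw [← hx]
    push_cast
    ring
  exact h5

lemma cop_q (a z q : ℕ) (hq : q.Prime) (hz : z < q) : q.Coprime (∏ i, nn a z i) := by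
  refine Nat.Coprime.prod_right fun i _ => Nat.Coprime.pow_right 2 ?_
  refine (Nat.coprime_primes hq (PI_prime i)).mpr ?_
  have := PI_le i
  omega

lemma cop_Q0 (a z : ℕ) (ha : 2 ≤ a) : (Q0 a).Coprime (∏ i, nn a z i) := by
  refine Nat.Coprime.prod_right fun i _ => Nat.Coprime.pow_right 2 ?_
  exact ((PI_prime i).coprime_iff_not_dvd.mpr (Q0_not_dvd a ha _ (PI_prime i) (PI_lt i))).symm

/-- Last step: from the positions to the lower bound. -/
lemma last_step (N a y z s T V q : ℕ) (v : ℕ → ℕ) (ha : 2 ≤ a) (hyz : y ≤ z) (hqp : q.Prime)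
    (hzq : z < q) (hsa : 4 * s + 8 ≤ a ^ 2)
    (hNv : ∀ v : ℕ, v < V → 1 + Q0 a * v + Q0 a * q * s ≤ N)
    (hv : Req a y z (Q0 a) q s V (ll s) T v) : T * s ≤ N0cd4b8f2.f N := by
  refine assemble N (Q0 a) q s T a y v (ll s) (Dvd.intro _ rfl) (Q0_pos a) hqp.pos
    (fun p hp h2 hpa => Q0_dvd a p hp h2 hpa) ?_ ?_ ?_ hv.dyn hv.disj
    (fun t ht => hNv (v t) (hv.lt t ht))
  · intro p hp hap hpy h
    rcases (Nat.Prime.dvd_mul hp).mp h with h | h
    · exact Q0_not_dvd a ha p hp hap h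
    · have := (Nat.prime_dvd_prime_iff_eq hp hqp).mp h
      omega
  · intro p hp hap hpy
    have h1 : 4 * s + 8 ≤ p ^ 2 := hsa.trans (Nat.pow_le_pow_left hap.le 2)
    unfold ll
    omega
  · intro p hp hap hpy t ht
    exact stat_conv a z (Q0 a) s q (v t) ⟨p, mem_filter.mpr ⟨mem_Ioc.mpr ⟨hap, by omega⟩, hp⟩⟩
      (cop_q a z q hqp hzq) (cop_Q0 a z ha) (hv.stat _ hpy t ht)

open Classical in
theorem param (N a y u1 u2 z s T V X k1 k2 : ℕ) (lam1 lam2 μ1 μ2 : ℝ)
    (ha : 2 ≤ a) (hay : a ≤ y) (hyu : y ≤ u1) (huu : u1 ≤ u2) (huz : u2 ≤ z) (hs : 1 ≤ s)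
    (hsa : 4 * s + 8 ≤ a ^ 2) (hsy : 4 * s * (T + 2) ≤ y ^ 2)
    (hk1 : Even k1) (hk2 : Even k2)
    (hμ1 : (2 * s * (T + 2) : ℝ) * (12 / (y * Real.log y)) ≤ μ1) (hkμ1 : 7 * μ1 + 1 ≤ k1)
    (hμ2 : (2 * s * (T + 2) : ℝ) / u1 ≤ μ2) (hkμ2 : 7 * μ2 + 1 ≤ k2)
    (hu2 : 16 * s * (T + 2) ≤ u2)
    (h10 : 0 < lam1) (h11 : lam1 ≤ 1) (h20 : 0 < lam2) (h21 : lam2 ≤ 1)
    (hN : 1 + Q0 a * V + Q0 a * X * s ≤ N) (hV : 0 < V) (hX : 2 ≤ X)
    (hcard : (X : ℝ) / (2 * Real.log X) ≤ (((Ioc z X).filter Nat.Prime).card : ℝ))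
    (hfin : (T : ℝ) * (2 * s) * (2 * V / z + Nat.sqrt (2 * N) + 1) + T * (s + 1) ^ 2 +
      V * (Psi1 u1 u2 z (T + 2) k1 k2 lam1 lam2 * (4 * z * (2 * Real.log X) / X + X / V)) <
      V * (1 / 2 * Real.exp (-(3 * y / Real.log a) - 2 * μ1 - 2 * μ2))) :
    T * s ≤ N0cd4b8f2.f N := by
  have hlogX : 0 < Real.log X := Real.log_pos (by exact_mod_cast hX)
  have hXpos : (0 : ℝ) < X := by
    have : (2 : ℝ) ≤ X := by exact_mod_cast hX
    linarith
  have hu1pos : 1 ≤ u1 := by omega
  have hμ10 : 0 ≤ μ1 := by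
    refine le_trans ?_ hμ1
    have : 0 ≤ Real.log y := Real.log_natCast_nonneg _
    positivity
  have hμ20 : 0 ≤ μ2 := le_trans (by positivity) hμ2
  set n := nn a z with hn
  set Ps : Finset (PI a z) := univ.filter (fun i => i.1 ≤ y) with hPs
  set B1 : Finset (PI a z) := univ.filter (fun i => y < i.1 ∧ i.1 ≤ u1) with hB1
  set B2 : Finset (PI a z) := univ.filter (fun i => u1 < i.1 ∧ i.1 ≤ u2) with hB2
  set B3 : Finset (PI a z) := univ.filter (fun i => u2 < i.1) with hB3
  have d1 : Disjoint Ps B1 := Finset.disjoint_left.mpr fun i h h' => by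
    simp only [hPs, hB1, mem_filter, mem_univ, true_and] at h h'; omega
  have d2 : Disjoint Ps B2 := Finset.disjoint_left.mpr fun i h h' => by
    simp only [hPs, hB2, mem_filter, mem_univ, true_and] at h h'; omega
  have d3 : Disjoint Ps B3 := Finset.disjoint_left.mpr fun i h h' => by
    simp only [hPs, hB3, mem_filter, mem_univ, true_and] at h h'; omega
  have d4 : Disjoint B1 B2 := Finset.disjoint_left.mpr fun i h h' => by
    simp only [hB1, hB2, mem_filter, mem_univ, true_and] at h h'; omega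
  have d5 : Disjoint B1 B3 := Finset.disjoint_left.mpr fun i h h' => by
    simp only [hB1, hB3, mem_filter, mem_univ, true_and] at h h'; omega
  have d6 : Disjoint B2 B3 := Finset.disjoint_left.mpr fun i h h' => by
    simp only [hB2, hB3, mem_filter, mem_univ, true_and] at h h'; omega
  have hunion : B1 ∪ B2 ∪ B3 = univ.filter (fun i : PI a z => y < i.1) := by
    ext i
    simp only [hB1, hB2, hB3, mem_union, mem_filter, mem_univ, true_and]
    omega
  -- facts on the tents
  have hsq : ∀ i : PI a z, 4 * s + 8 ≤ i.1 ^ 2 := fun i =>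
    hsa.trans (Nat.pow_le_pow_left (PI_lt i).le 2)
  have hl : ∀ i ∈ Ps, 0 < (fun i : PI a z => ll s i.1) i ∧ (fun i : PI a z => ll s i.1) i ≤ n i := by
    intro i _
    have := hsq i
    simp only [ll, hn, nn]
    constructor
    · omega
    · omega
  set β : PI a z → ℝ := fun i => ((2 * s * (T + 2) : ℕ) : ℝ) / (n i : ℝ) with hβ
  have hβ0 : ∀ i, 0 ≤ β i := fun i => by simp only [hβ]; positivity
  have hβhalf : ∀ i : PI a z, y < i.1 → β i ≤ 1 / 2 := by
    intro i hi
    simp only [hβ, hn, nn]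
    have hpos : (0 : ℝ) < ((i.1 ^ 2 : ℕ) : ℝ) := by
      exact_mod_cast pow_pos (PI_prime i).pos 2
    rw [div_le_iff₀ hpos]
    have h1 : 4 * s * (T + 2) ≤ i.1 ^ 2 := hsy.trans (Nat.pow_le_pow_left hi.le 2)
    have h2 : (2 : ℝ) * ((2 * s * (T + 2) : ℕ) : ℝ) ≤ ((i.1 ^ 2 : ℕ) : ℝ) := by
      have h3 : 2 * (2 * s * (T + 2)) ≤ i.1 ^ 2 := by
        calc 2 * (2 * s * (T + 2)) = 4 * s * (T + 2) := by ring
          _ ≤ _ := h1
      exact_mod_cast h3
    linarith
  have hβeq : ∀ i : PI a z, β i = (2 * s * (T + 2) : ℝ) * (1 / (i.1 : ℝ) ^ 2) := by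
    intro i
    simp only [hβ, hn, nn]
    push_cast
    ring
  have hC0 : (0 : ℝ) ≤ 2 * s * (T + 2) := by positivity
  have hS1 : ∑ i ∈ B1, β i ≤ μ1 := by
    refine le_trans ?_ hμ1
    simp_rw [hβeq]
    rw [← Finset.mul_sum]
    refine mul_le_mul_of_nonneg_left ?_ hC0
    refine le_trans (sum_PI_le B1 ((Ioc y u1).filter Nat.Prime) (fun p => 1 / (p : ℝ) ^ 2)
      (fun p _ => by positivity) (fun i hi => ?_)) (sum_inv_sq y u1 (by omega))
    simp only [hB1, mem_filter, mem_univ, true_and] at hi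
    exact mem_filter.mpr ⟨mem_Ioc.mpr hi, PI_prime i⟩
  have hS2 : ∑ i ∈ B2, β i ≤ μ2 := by
    refine le_trans ?_ hμ2
    simp_rw [hβeq]
    rw [← Finset.mul_sum, ← mul_one_div]
    refine mul_le_mul_of_nonneg_left ?_ hC0
    refine le_trans (sum_PI_le B2 (Ioc u1 u2) (fun p => 1 / (p : ℝ) ^ 2)
      (fun p _ => by positivity) (fun i hi => ?_)) (sum_inv_sq_triv u1 u2 hu1pos)
    simp only [hB2, mem_filter, mem_univ, true_and] at hi
    exact mem_Ioc.mpr hi
  have hS3 : ∑ i ∈ B3, β i ≤ 1 / 8 := by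
    have h1 : ∑ i ∈ B3, β i ≤ (2 * s * (T + 2) : ℝ) * (1 / u2) := by
      simp_rw [hβeq]
      rw [← Finset.mul_sum]
      refine mul_le_mul_of_nonneg_left ?_ hC0
      refine le_trans (sum_PI_le B3 (Ioc u2 z) (fun p => 1 / (p : ℝ) ^ 2)
        (fun p _ => by positivity) (fun i hi => ?_)) (sum_inv_sq_triv u2 z (by omega))
      simp only [hB3, mem_filter, mem_univ, true_and] at hi
      exact mem_Ioc.mpr ⟨hi, PI_le i⟩
    refine h1.trans ?_
    have hu2pos : (0 : ℝ) < u2 := by
      have : 1 ≤ u2 := by omega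
      exact_mod_cast this
    rw [mul_one_div, div_le_iff₀ hu2pos]
    have h2 : ((16 * s * (T + 2) : ℕ) : ℝ) ≤ u2 := by exact_mod_cast hu2
    push_cast at h2
    linarith
  have H : ∀ (B : Finset (PI a z)) (μ : ℝ) (k : ℕ), (∀ i ∈ B, β i ≤ 1 / 2) → ∑ i ∈ B, β i ≤ μ →
      0 ≤ μ → 7 * μ + 1 ≤ k →
      ∏ i ∈ B, (1 + 16 * β i) ≤ 16 ^ k * (1 / 8 * ∏ i ∈ B, (1 - β i)) ∧
      Real.exp (-2 * μ) ≤ ∏ i ∈ B, (1 - β i) := by
    intro B μ k hB hμ hμ0 hk
    have e1 := prod_one_add_le B β (fun i _ => hβ0 i) 16 (by norm_num)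
    have e2 := prod_one_sub_ge B β (fun i _ => hβ0 i) hB
    have e3 : Real.exp (-2 * μ) ≤ Real.exp (-2 * ∑ i ∈ B, β i) := by
      rw [Real.exp_le_exp]; linarith
    have e4 : Real.exp (16 * ∑ i ∈ B, β i) ≤ Real.exp (16 * μ) := by
      rw [Real.exp_le_exp]; linarith
    have e5 := exp_cond μ k hμ0 hk
    refine ⟨e1.trans (e4.trans (e5.trans ?_)), e3.trans e2⟩
    refine mul_le_mul_of_nonneg_left ?_ (by positivity)
    exact mul_le_mul_of_nonneg_left (e3.trans e2) (by norm_num)
  have hhalf1 : ∀ i ∈ B1, β i ≤ 1 / 2 := fun i hi => hβhalf i (by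
    simp only [hB1, mem_filter, mem_univ, true_and] at hi; exact hi.1)
  have hhalf2 : ∀ i ∈ B2, β i ≤ 1 / 2 := fun i hi => hβhalf i (by
    simp only [hB2, mem_filter, mem_univ, true_and] at hi; omega)
  obtain ⟨H1, G1⟩ := H B1 μ1 k1 hhalf1 hS1 hμ10 hkμ1
  obtain ⟨H2, G2⟩ := H B2 μ2 k2 hhalf2 hS2 hμ20 hkμ2
  have hk1p : 0 < k1 := by
    rcases Nat.eq_zero_or_pos k1 with h | h
    · rw [h] at hkμ1; push_cast at hkμ1; linarith
    · exact h
  have hk2p : 0 < k2 := by
    rcases Nat.eq_zero_or_pos k2 with h | h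
    · rw [h] at hkμ2; push_cast at hkμ2; linarith
    · exact h
  -- the sieve theorem
  set Q := (Ioc z X).filter Nat.Prime with hQ
  have hQcard : (0 : ℝ) < Q.card := lt_of_lt_of_le (by positivity) hcard
  have hQne : Q.Nonempty := Finset.card_pos.mp (by exact_mod_cast hQcard)
  obtain ⟨q, hqQ, hq⟩ := sieve n (nn_coprime a z) Ps B1 B2 B3 d1 d2 d3 d4 d5 d6
    (fun i => ll s i.1) hl (2 * s) (T + 2) (by omega) k1 k2 hk1 hk2 hk1p hk2p lam1 lam2 h10 h11
    h20 h21 β (fun i => le_of_eq rfl)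
    (fun i hi => by
      rcases mem_union.mp hi with h | h
      · exact (hhalf1 i h).trans (by norm_num)
      · exact (hhalf2 i h).trans (by norm_num))
    16 (by norm_num) H1 H2 hS3 X V hV Q hQne
    (fun q hq => ⟨(mem_filter.mp hq).2, cop_q a z q (mem_filter.mp hq).2
      (mem_Ioc.mp (mem_filter.mp hq).1).1, (mem_Ioc.mp (mem_filter.mp hq).1).2⟩)
    ((Q0 a : ZMod (∏ i, n i))⁻¹)
  have hqp : q.Prime := (mem_filter.mp hqQ).2
  have hqr := mem_Ioc.mp (mem_filter.mp hqQ).1
  set R : ℝ := V * ((1 / 2 * Real.exp (-(3 * y / Real.log a) - 2 * μ1 - 2 * μ2)) -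
    Psi1 u1 u2 z (T + 2) k1 k2 lam1 lam2 * (4 * z * (2 * Real.log X) / X + X / V)) with hR
  have hVpos : (0 : ℝ) < V := by exact_mod_cast hV
  have hRle : ∀ C : (i : PI a z) → Finset (ZMod (nn a z i)), (∀ i, (C i).card ≤ T + 2) →
      R ≤ (((range V).filter (fun v : ℕ => Good (nn a z) (univ.filter (fun i : PI a z => i.1 ≤ y))
        (univ.filter (fun i : PI a z => y < i.1)) (fun i => ll s i.1) (2 * s) C
        (xv a z (Q0 a) q v))).card : ℝ) := by
    intro C hC
    have h := hq C hC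
    rw [hunion] at h
    refine le_trans ?_ h
    rw [hR]
    refine mul_le_mul_of_nonneg_left ?_ hVpos.le
    refine sub_le_sub ?_ ?_
    · -- the main term
      have hst : Real.exp (-(3 * y / Real.log a)) ≤ ∏ i ∈ Ps, tm n (fun i => ll s i.1) i := by
        have h8 : ∀ i ∈ Ps, (1 : ℝ) / 8 ≤ tm n (fun i => ll s i.1) i := by
          intro i _
          unfold tm
          have hpos : (0 : ℝ) < (n i : ℝ) := by
            have := (nn_ne a z i).pos
            exact_mod_cast this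
          rw [le_div_iff₀ hpos]
          have h3 : n i ≤ 8 * ll s i.1 := by
            have := hsq i
            simp only [ll, hn, nn]
            omega
          have h4 : (n i : ℝ) ≤ 8 * (ll s i.1 : ℝ) := by exact_mod_cast h3
          linarith
        have hc : (Ps.card : ℝ) ≤ Real.log 4 * y / Real.log a := by
          refine le_trans ?_ (card_primes a y ha)
          have := card_PI_le Ps ((Ioc a y).filter Nat.Prime) (fun i hi => by
            simp only [hPs, mem_filter, mem_univ, true_and] at hi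
            exact mem_filter.mpr ⟨mem_Ioc.mpr ⟨PI_lt i, hi⟩, PI_prime i⟩)
          exact_mod_cast this
        have hloga : 0 < Real.log a := Real.log_pos (by exact_mod_cast ha)
        calc Real.exp (-(3 * y / Real.log a))
            ≤ Real.exp (-(Ps.card * (3 * Real.log 2))) := by
              rw [Real.exp_le_exp, neg_le_neg_iff]
              have hl2 := Real.log_two_lt_d9
              have hl2' := Real.log_two_gt_d9
              have h4 : Real.log 4 = 2 * Real.log 2 := by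
                rw [show (4 : ℝ) = 2 ^ 2 by norm_num, Real.log_pow]; norm_num
              rw [h4] at hc
              calc (Ps.card : ℝ) * (3 * Real.log 2)
                  ≤ (2 * Real.log 2 * y / Real.log a) * (3 * Real.log 2) :=
                    mul_le_mul_of_nonneg_right hc (by linarith)
                _ = (6 * (Real.log 2 * Real.log 2)) * (y / Real.log a) := by ring
                _ ≤ 3 * (y / Real.log a) := by
                    refine mul_le_mul_of_nonneg_right ?_ (by positivity)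
                    nlinarith
                _ = 3 * y / Real.log a := by ring
          _ = (1 / 8 : ℝ) ^ Ps.card := by
              have h8 : (1 : ℝ) / 8 = Real.exp (-(3 * Real.log 2)) := by
                rw [Real.exp_neg, mul_comm, Real.exp_mul, Real.exp_log (by norm_num)]
                norm_num
              rw [h8, ← Real.exp_nat_mul]
              congr 1
              ring
          _ ≤ ∏ i ∈ Ps, tm n (fun i => ll s i.1) i := by
              rw [← Finset.prod_const]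
              exact Finset.prod_le_prod (fun i _ => by norm_num) h8
      have hexp : Real.exp (-(3 * y / Real.log a) - 2 * μ1 - 2 * μ2) =
          Real.exp (-(3 * y / Real.log a)) * (Real.exp (-2 * μ1) * Real.exp (-2 * μ2)) := by
        rw [← Real.exp_add, ← Real.exp_add]; congr 1; ring
      rw [hexp]
      calc 1 / 2 * (Real.exp (-(3 * y / Real.log a)) * (Real.exp (-2 * μ1) * Real.exp (-2 * μ2)))
          = Real.exp (-(3 * y / Real.log a)) * (1 / 2 * Real.exp (-2 * μ1) *
            Real.exp (-2 * μ2)) := by ring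
        _ ≤ _ := by
            refine mul_le_mul hst ?_ (by positivity) ?_
            · refine mul_le_mul ?_ G2 (Real.exp_pos _).le ?_
              · exact mul_le_mul_of_nonneg_left G1 (by norm_num)
              · exact mul_nonneg (by norm_num) ((Real.exp_pos _).le.trans G1)
            · exact (Real.exp_pos _).le.trans hst
    · -- the error term
      have hP := PsiB_le a z u1 u2 (T + 2) k1 k2 lam1 lam2 h10 h20 B1 B2 B3
        (fun i hi => by simp only [hB1, mem_filter, mem_univ, true_and] at hi; exact hi.2)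
        (fun i hi => by simp only [hB2, mem_filter, mem_univ, true_and] at hi; exact hi.2)
      have hlogM : (Nat.log 2 (∏ i, n i) : ℝ) ≤ 4 * z := by
        have h1 : ∏ i, n i = ∏ p ∈ (Ioc a z).filter Nat.Prime, p ^ 2 := by
          rw [hn]
          exact Finset.prod_coe_sort ((Ioc a z).filter Nat.Prime) (fun p => p ^ 2)
        rw [h1]
        exact_mod_cast log_prod a z
      have hδ : (Nat.log 2 (∏ i, n i) : ℝ) / Q.card + (X : ℝ) / V ≤
          4 * z * (2 * Real.log X) / X + X / V := by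
        refine add_le_add_left ?_ _
        calc (Nat.log 2 (∏ i, n i) : ℝ) / Q.card ≤ (4 * z) / Q.card :=
              div_le_div_of_nonneg_right hlogM hQcard.le
          _ ≤ (4 * z) / (X / (2 * Real.log X)) :=
              div_le_div_of_nonneg_left (by positivity) (by positivity) hcard
          _ = 4 * z * (2 * Real.log X) / X := by
              rw [div_div_eq_mul_div]
      have hδ0 : 0 ≤ (Nat.log 2 (∏ i, n i) : ℝ) / Q.card + (X : ℝ) / V := by positivity
      refine mul_le_mul hP hδ hδ0 ?_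
      unfold Psi1
      have i1 : 0 ≤ Real.log u1 := Real.log_natCast_nonneg _
      have i2 : 0 ≤ Real.log u2 := Real.log_natCast_nonneg _
      have i3 : 0 ≤ Real.log z := Real.log_natCast_nonneg _
      positivity
  have hfin' : (T : ℝ) * (2 * s) * (2 * V / z + Nat.sqrt (2 * N) + 1) + T * (s + 1) ^ 2 < R := by
    rw [hR, mul_sub]
    linarith
  have hNv : ∀ v : ℕ, v < V → 1 + Q0 a * v + Q0 a * q * s ≤ N := by
    intro v hv
    refine le_trans ?_ hN
    have h1 : Q0 a * v ≤ Q0 a * V := Nat.mul_le_mul_left _ hv.le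
    have h2 : Q0 a * q * s ≤ Q0 a * X * s := Nat.mul_le_mul_right _ (Nat.mul_le_mul_left _ hqr.2)
    omega
  obtain ⟨v, hv⟩ := greedy N a y z (Q0 a) q s T V (ll s) R (by omega) ha (Q0_pos a) hay
    (fun p hp hap => Q0_not_dvd a ha p hp hap) (by omega) hqp hqr.1 hNv hRle hfin' T le_rfl
  exact last_step N a y z s T V q v ha (by omega) hqp hqr.1 hsa hNv hv

end Pool.Agent.Helper31.SQ
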