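import Pool.Agent.Helper31.SQ.Asym3
import Pool.Agent.Helper31.SQ.Param2

/-! Project SQ: the theorem. -/

open Filter Finset

namespace Pool.Agent.Helper31.SQ

theorem lower : ∃ c : ℝ, 0 < c ∧ ∀ᶠ N : ℕ in atTop,
    c * ((Real.log N) ^ 2 * (Real.log (Real.log N)) ^ 2 / Real.log (Real.log (Real.log N))) ≤
      (N0cd4b8f2.f N : ℝ) := by
  refine ⟨1 / 1848000000, by norm_num, ?_⟩
  have t1 : Tendsto (fun N : ℕ => Real.log (N : ℝ)) atTop atTop :=
    Real.tendsto_log_atTop.comp tendsto_natCast_atTop_atTop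
  have t2 : Tendsto (fun L : ℝ => XP L) atTop atTop := by
    unfold XP
    refine (tendsto_nat_floor_atTop (α := ℝ)).comp ?_
    exact Real.tendsto_exp_atTop.comp (tendsto_id.atTop_div_const (by norm_num))
  filter_upwards [t1.eventually base_eventually, (t2.comp t1).eventually many_primes,
    eventually_ge_atTop 1] with N h hp hN1
  set L := Real.log N with hL
  set M := Real.log L with hM
  set K := Real.log M with hK
  have hNpos : (0 : ℝ) < N := by exact_mod_cast hN1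
  have hNexp : (N : ℝ) = Real.exp L := by rw [hL, Real.exp_log hNpos]
  have hcard := hp (zP L) h.c_zX
  have hTs : TP M K * sP L ≤ N0cd4b8f2.f N := by
    refine param N (aP L) (yP L M) (u1P L M) (u2P L) (zP L) (sP L) (TP M K) (VP L) (XP L)
      (k1P L K) (k2P L M) (M ^ 7)⁻¹ (L ^ 4)⁻¹ (μ1P L K) (μ2P L M)
      h.c_a h.c_ay h.c_yu h.c_uu h.c_uz h.c_s h.c_sa h.c_sy ?_ ?_ h.c_mu1 h.c_k1 h.c_mu2 h.c_k2
      h.c_u2 ?_ ?_ ?_ ?_ (h.c_N N hNexp) h.c_V h.c_X hcard (h.c_fin N hNexp)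
    · unfold k1P; exact even_two_mul _
    · unfold k2P; exact even_two_mul _
    · have := h.Mpos; positivity
    · refine inv_le_one_of_one_le₀ (one_le_pow₀ ?_)
      have := h.Mbig; linarith
    · have := h.Lpos; positivity
    · exact inv_le_one_of_one_le₀ (one_le_pow₀ h.L1)
  have h1 := h.T_ge
  have h2 := h.s_ge
  have hLp := h.Lpos
  have hMp := h.Mpos
  have hKp := h.Kpos
  have h3 : (M ^ 2 / (462000 * K)) * (L ^ 2 / 4000) ≤ (TP M K : ℝ) * (sP L : ℝ) :=
    mul_le_mul h1 h2 (by positivity) (Nat.cast_nonneg _)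
  have h4 : ((TP M K * sP L : ℕ) : ℝ) ≤ (N0cd4b8f2.f N : ℝ) := by exact_mod_cast hTs
  push_cast at h4
  refine le_trans (le_of_eq ?_) (h3.trans h4)
  field_simp
  norm_num

end Pool.Agent.Helper31.SQ
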