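import Mathlib

/-! Project SQ (MP_d5570f_nt), piece Large: large primes kill few values of `v`.

PROOF of `large_count`. Put `D = Q0 q`. If `p > z` is a prime, `p ≠ q`, then `p ∤ D` and `p` is odd, so for
given `m` and given `v'` the congruence `Q0 v ≡ -(2 + Q0 v' + D m)` resp. `2 Q0 v ≡ -(2 + D m)` mod `p²`
has its solutions in one class mod `p²`, hence at most `V/p² + 1` solutions `v < V`
(`Nat.count_modEq_card`, or injectivity of `v ↦ v / p²` on the set: two solutions in the same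
block `[k p², (k+1) p²)` are equal); moreover `p² ≤ (sum) ≤ 2N` forces `p ≤ √(2N)`, `p ≤ R := Nat.sqrt (2N)`.
If `p = q`, then `q ∣ D`, so `q` divides `2 + Q0 v + Q0 v'` (resp. `2 (1 + Q0 v)`), again one class mod `q`
(`q ∤ 2 Q0`, `q > z ≥ 2`), at most `V/q + 1 ≤ V/z + 1` values.
Summing over `p ∈ (z, R]` (`∑_{n > z} 1/n² ≤ 1/z`, `sum_Ioc_inv_sq_le_sub`), over `p = q`, over `m ∈ [2, 2s]`
(at most `2s` values) and over `v' ∈ vs` and the case `2 (1 + Q0 v) + D m`:
at most `(#vs + 1) (2 s) (V/z + R + V/z + 1)`.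
-/

open Finset

namespace Pool.Agent.Helper31.SQ

/-- Numbers below `V` that are pairwise congruent modulo `n` are at most `V / n + 1` in number. -/
theorem h41_class_card (V n : ℕ) (S : Finset ℕ) (hS : ∀ v ∈ S, v < V)
    (hc : ∀ v ∈ S, ∀ w ∈ S, v % n = w % n) : S.card ≤ V / n + 1 := by
  have h : S.card ≤ (range (V / n + 1)).card := by
    apply Finset.card_le_card_of_injOn (fun v => v / n)
    · intro v hv
      have hv' := hS v hv
      simp only [coe_range, Set.mem_Iio]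
      have := Nat.div_le_div_right (c := n) hv'.le
      omega
    · intro v hv w hw hvw
      have h1 := hc v hv w hw
      have h2 := Nat.div_add_mod v n
      have h3 := Nat.div_add_mod w n
      simp only at hvw
      rw [hvw, h1] at h2
      omega
  simpa using h

/-- The congruence `n ∣ c + k v` with `k` coprime to `n` holds for at most `V / n + 1` values. -/
theorem h41_cong_card (V n c k : ℕ) (hk : Nat.Coprime n k) :
    ((range V).filter (fun v : ℕ => n ∣ c + k * v)).card ≤ V / n + 1 := by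
  apply h41_class_card V n
  · intro v hv
    simpa using (mem_filter.mp hv).1
  · intro v hv w hw
    have hv1 : n ∣ c + k * v := (mem_filter.mp hv).2
    have hw1 : n ∣ c + k * w := (mem_filter.mp hw).2
    have h1 : c + k * v ≡ c + k * w [MOD n] := by
      have e1 : c + k * v ≡ 0 [MOD n] := (Nat.modEq_zero_iff_dvd).2 hv1
      have e2 : c + k * w ≡ 0 [MOD n] := (Nat.modEq_zero_iff_dvd).2 hw1
      exact e1.trans e2.symm
    have h2 : k * v ≡ k * w [MOD n] := Nat.ModEq.add_left_cancel' c h1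
    exact Nat.ModEq.cancel_left_of_coprime hk h2

/-- The sum of the class bounds over the moduli `p ^ 2`, `z < p ≤ R`. -/
theorem h41_sum_bound (V z R : ℕ) (hz : 2 ≤ z) :
    ∑ p ∈ Ioc z R, ((V / p ^ 2 + 1 : ℕ) : ℝ) ≤ (V : ℝ) / z + R := by
  have hz0 : (0 : ℝ) < z := by
    have : 0 < z := by omega
    exact_mod_cast this
  have h1 : ∑ p ∈ Ioc z R, ((V / p ^ 2 + 1 : ℕ) : ℝ) ≤
      ∑ p ∈ Ioc z R, ((V : ℝ) * ((p : ℝ) ^ 2)⁻¹ + 1) := by
    apply sum_le_sum
    intro p _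
    push_cast
    have : ((V / p ^ 2 : ℕ) : ℝ) ≤ (V : ℝ) / ((p ^ 2 : ℕ) : ℝ) := Nat.cast_div_le
    push_cast at this
    rw [div_eq_mul_inv] at this
    linarith
  refine h1.trans ?_
  rw [sum_add_distrib, ← mul_sum]
  have hcard : ∑ p ∈ Ioc z R, (1 : ℝ) ≤ R := by
    simp only [sum_const, Nat.card_Ioc, nsmul_eq_mul, mul_one]
    exact_mod_cast Nat.sub_le R z
  have hV : (0 : ℝ) ≤ V := Nat.cast_nonneg V
  have hs : ∑ p ∈ Ioc z R, ((p : ℝ) ^ 2)⁻¹ ≤ (z : ℝ)⁻¹ := by
    rcases le_total z R with h | h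
    · have := sum_Ioc_inv_sq_le_sub (α := ℝ) (k := z) (n := R) (by omega) h
      have hR : (0 : ℝ) ≤ (R : ℝ)⁻¹ := by positivity
      linarith
    · rw [Ioc_eq_empty (by omega)]
      simp only [sum_empty]
      positivity
  have hm := mul_le_mul_of_nonneg_left hs hV
  rw [← div_eq_mul_inv] at hm
  linarith

open Classical in
theorem large_count (N Q0 q z s V : ℕ) (vs : Finset ℕ) (hz : 2 ≤ z) (hQ0p : 0 < Q0)
    (hQ0 : ∀ p : ℕ, p.Prime → z < p → ¬ p ∣ Q0) (hq : q.Prime) (hqz : z < q)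
    (hN : ∀ v : ℕ, v < V → 1 + Q0 * v + Q0 * q * s ≤ N) (hvs : ∀ v ∈ vs, v < V) :
    (((range V).filter (fun v : ℕ => ∃ p : ℕ, p.Prime ∧ z < p ∧ ∃ m : ℕ, 2 ≤ m ∧ m ≤ 2 * s ∧
      (p ^ 2 ∣ (1 + Q0 * v) + (1 + Q0 * v) + Q0 * q * m ∨
        ∃ v' ∈ vs, p ^ 2 ∣ (1 + Q0 * v) + (1 + Q0 * v') + Q0 * q * m))).card : ℝ) ≤
      ((vs.card : ℝ) + 1) * (2 * s) * (2 * V / z + Nat.sqrt (2 * N) + 1) := by
  set R := Nat.sqrt (2 * N) with hR
  -- the exceptional values for given `p` and `m`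
  let A : ℕ → ℕ → Finset ℕ := fun p m =>
    ((range V).filter (fun v : ℕ => p ^ 2 ∣ (2 + Q0 * q * m) + (2 * Q0) * v)) ∪
      vs.biUnion (fun v' => (range V).filter
        (fun v : ℕ => p ^ 2 ∣ (2 + Q0 * v' + Q0 * q * m) + Q0 * v))
  have hsub : ((range V).filter (fun v : ℕ => ∃ p : ℕ, p.Prime ∧ z < p ∧ ∃ m : ℕ, 2 ≤ m ∧
      m ≤ 2 * s ∧ (p ^ 2 ∣ (1 + Q0 * v) + (1 + Q0 * v) + Q0 * q * m ∨
        ∃ v' ∈ vs, p ^ 2 ∣ (1 + Q0 * v) + (1 + Q0 * v') + Q0 * q * m))) ⊆
      (Icc 1 (2 * s)).biUnion (fun m => ((Ioc z R).filter Nat.Prime).biUnion (fun p => A p m)) := by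
    intro v hv
    obtain ⟨hvV, p, hp, hzp, m, hm2, hms, hor⟩ := mem_filter.mp hv
    have hvV' : v < V := by simpa using hvV
    have hqm : Q0 * q * m ≤ Q0 * q * s + Q0 * q * s := by
      have : Q0 * q * m ≤ Q0 * q * (2 * s) := Nat.mul_le_mul_left _ hms
      have e : Q0 * q * (2 * s) = Q0 * q * s + Q0 * q * s := by ring
      omega
    have hNv := hN v hvV'
    simp only [mem_biUnion, mem_Icc, mem_filter, mem_Ioc]
    refine ⟨m, ⟨by omega, hms⟩, p, ⟨⟨hzp, ?_⟩, hp⟩, ?_⟩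
    · rw [hR, Nat.le_sqrt']
      rcases hor with h | ⟨v', hv', h⟩
      · have h1 := Nat.le_of_dvd (by omega) h
        omega
      · have h1 := Nat.le_of_dvd (by omega) h
        have h2 := hN v' (hvs v' hv')
        omega
    · simp only [A, mem_union, mem_biUnion, mem_filter]
      rcases hor with h | ⟨v', hv', h⟩
      · left
        refine ⟨hvV, ?_⟩
        have e : (2 + Q0 * q * m) + (2 * Q0) * v =
            (1 + Q0 * v) + (1 + Q0 * v) + Q0 * q * m := by ring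
        rw [e]; exact h
      · right
        refine ⟨v', hv', hvV, ?_⟩
        have e : (2 + Q0 * v' + Q0 * q * m) + Q0 * v =
            (1 + Q0 * v) + (1 + Q0 * v') + Q0 * q * m := by ring
        rw [e]; exact h
  have hA : ∀ p m : ℕ, p.Prime → z < p → (A p m).card ≤ (vs.card + 1) * (V / p ^ 2 + 1) := by
    intro p m hp hzp
    have hc1 : Nat.Coprime p Q0 := (hp.coprime_iff_not_dvd).2 (hQ0 p hp hzp)
    have hc2 : Nat.Coprime p 2 := by
      rw [hp.coprime_iff_not_dvd]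
      intro h
      have := Nat.le_of_dvd (by norm_num) h
      omega
    have hc3 : Nat.Coprime (p ^ 2) Q0 := Nat.Coprime.pow_left 2 hc1
    have hc4 : Nat.Coprime (p ^ 2) (2 * Q0) := Nat.Coprime.pow_left 2 (Nat.Coprime.mul_right hc2 hc1)
    have h1 := h41_cong_card V (p ^ 2) (2 + Q0 * q * m) (2 * Q0) hc4
    have h2 : (vs.biUnion (fun v' => (range V).filter
        (fun v : ℕ => p ^ 2 ∣ (2 + Q0 * v' + Q0 * q * m) + Q0 * v))).card ≤
        vs.card * (V / p ^ 2 + 1) := by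
      apply card_biUnion_le_card_mul
      intro v' _
      exact h41_cong_card V (p ^ 2) (2 + Q0 * v' + Q0 * q * m) Q0 hc3
    calc (A p m).card ≤ _ := card_union_le _ _
      _ ≤ (V / p ^ 2 + 1) + vs.card * (V / p ^ 2 + 1) := Nat.add_le_add h1 h2
      _ = (vs.card + 1) * (V / p ^ 2 + 1) := by ring
  have hB : ∀ m : ℕ, (((((Ioc z R).filter Nat.Prime).biUnion (fun p => A p m)).card : ℕ) : ℝ) ≤
      ((vs.card : ℝ) + 1) * ((V : ℝ) / z + R) := by
    intro m
    have h1 : (((Ioc z R).filter Nat.Prime).biUnion (fun p => A p m)).card ≤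
        ∑ p ∈ Ioc z R, (vs.card + 1) * (V / p ^ 2 + 1) := by
      refine card_biUnion_le.trans ?_
      calc ∑ p ∈ (Ioc z R).filter Nat.Prime, (A p m).card
          ≤ ∑ p ∈ (Ioc z R).filter Nat.Prime, (vs.card + 1) * (V / p ^ 2 + 1) := by
            apply sum_le_sum
            intro p hp
            obtain ⟨hp1, hp2⟩ := mem_filter.mp hp
            exact hA p m hp2 (mem_Ioc.mp hp1).1
        _ ≤ _ := by
            apply sum_le_sum_of_subset
            exact filter_subset _ _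
    have h2 : (((((Ioc z R).filter Nat.Prime).biUnion (fun p => A p m)).card : ℕ) : ℝ) ≤
        ((∑ p ∈ Ioc z R, (vs.card + 1) * (V / p ^ 2 + 1) : ℕ) : ℝ) := by exact_mod_cast h1
    refine h2.trans ?_
    rw [← mul_sum]
    push_cast
    have h3 := h41_sum_bound V z R hz
    push_cast at h3
    exact mul_le_mul_of_nonneg_left h3 (by positivity)
  have hfin : (((range V).filter (fun v : ℕ => ∃ p : ℕ, p.Prime ∧ z < p ∧ ∃ m : ℕ, 2 ≤ m ∧
      m ≤ 2 * s ∧ (p ^ 2 ∣ (1 + Q0 * v) + (1 + Q0 * v) + Q0 * q * m ∨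
        ∃ v' ∈ vs, p ^ 2 ∣ (1 + Q0 * v) + (1 + Q0 * v') + Q0 * q * m))).card : ℝ) ≤
      ∑ m ∈ Icc 1 (2 * s),
        (((((Ioc z R).filter Nat.Prime).biUnion (fun p => A p m)).card : ℕ) : ℝ) := by
    have := (card_le_card hsub).trans card_biUnion_le
    exact_mod_cast this
  refine hfin.trans ((sum_le_sum (fun m _ => hB m)).trans ?_)
  rw [sum_const, Nat.card_Icc, nsmul_eq_mul]
  have hs' : ((2 * s + 1 - 1 : ℕ) : ℝ) = 2 * s := by
    have : 2 * s + 1 - 1 = 2 * s := by omega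
    rw [this]; push_cast; ring
  rw [hs']
  have h5 : (V : ℝ) / z + R ≤ 2 * V / z + R + 1 := by
    have : (0 : ℝ) ≤ (V : ℝ) / z := by positivity
    have e : 2 * (V : ℝ) / z = V / z + V / z := by ring
    rw [e]; linarith
  calc (2 * (s : ℝ)) * (((vs.card : ℝ) + 1) * ((V : ℝ) / z + R))
      = ((vs.card : ℝ) + 1) * (2 * s) * ((V : ℝ) / z + R) := by ring
    _ ≤ ((vs.card : ℝ) + 1) * (2 * s) * (2 * V / z + R + 1) :=
        mul_le_mul_of_nonneg_left h5 (by positivity)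

end Pool.Agent.Helper31.SQ
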