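import Pool.Agent.Helper31.SQ.Sieve
import Pool.Agent.Helper31.SQ.Large
import Pool.Agent.Helper31.SQ.Assem

/-! Project SQ: choosing the positions one after the other. -/

open Finset

namespace Pool.Agent.Helper31.SQ

/-- The primes in `(a, z]`, as a type. -/
abbrev PI (a z : ℕ) := {p : ℕ // p ∈ (Ioc a z).filter Nat.Prime}

/-- The moduli `p ^ 2`. -/
def nn (a z : ℕ) (i : PI a z) : ℕ := i.1 ^ 2

lemma PI_prime {a z : ℕ} (i : PI a z) : i.1.Prime := (Finset.mem_filter.mp i.2).2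

lemma PI_lt {a z : ℕ} (i : PI a z) : a < i.1 := (Finset.mem_Ioc.mp (Finset.mem_filter.mp i.2).1).1

lemma PI_le {a z : ℕ} (i : PI a z) : i.1 ≤ z := (Finset.mem_Ioc.mp (Finset.mem_filter.mp i.2).1).2

instance nn_ne (a z : ℕ) (i : PI a z) : NeZero (nn a z i) :=
  ⟨pow_ne_zero 2 (PI_prime i).ne_zero⟩

instance prod_ne (a z : ℕ) : NeZero (∏ i, nn a z i) :=
  ⟨Finset.prod_ne_zero_iff.mpr fun i _ => (nn_ne a z i).ne⟩

lemma nn_coprime (a z : ℕ) : Pairwise (Function.onFun Nat.Coprime (nn a z)) := by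
  intro i j hij
  have h : i.1 ≠ j.1 := fun h => hij (Subtype.ext h)
  exact Nat.Coprime.pow 2 2 ((Nat.coprime_primes (PI_prime i) (PI_prime j)).mpr h)

/-- The point of `ZMod M` attached to `v`. -/
noncomputable def xv (a z Q0 q v : ℕ) : ZMod (∏ i, nn a z i) :=
  (q : ZMod (∏ i, nn a z i))⁻¹ * ((Q0 : ZMod (∏ i, nn a z i))⁻¹ + ((v : ℕ) : ZMod (∏ i, nn a z i)))

lemma xv_spec (a z Q0 q v : ℕ) (hq : q.Coprime (∏ i, nn a z i))
    (hQ : Q0.Coprime (∏ i, nn a z i)) (i : PI a z) :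
    ((Q0 * q : ℕ) : ZMod (nn a z i)) * pr (nn a z) i (xv a z Q0 q v) =
      ((1 + Q0 * v : ℕ) : ZMod (nn a z i)) := by
  have h : ((Q0 * q : ℕ) : ZMod (∏ i, nn a z i)) * xv a z Q0 q v =
      ((1 + Q0 * v : ℕ) : ZMod (∏ i, nn a z i)) := by
    unfold xv
    have h1 : (q : ZMod (∏ i, nn a z i)) * (q : ZMod (∏ i, nn a z i))⁻¹ = 1 :=
      ZMod.coe_mul_inv_eq_one q hq
    have h2 : (Q0 : ZMod (∏ i, nn a z i)) * (Q0 : ZMod (∏ i, nn a z i))⁻¹ = 1 :=
      ZMod.coe_mul_inv_eq_one Q0 hQ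
    push_cast
    calc (Q0 : ZMod (∏ i, nn a z i)) * q * ((q : ZMod (∏ i, nn a z i))⁻¹ *
          ((Q0 : ZMod (∏ i, nn a z i))⁻¹ + v))
        = ((q : ZMod (∏ i, nn a z i)) * (q : ZMod (∏ i, nn a z i))⁻¹) *
          ((Q0 : ZMod (∏ i, nn a z i)) * (Q0 : ZMod (∏ i, nn a z i))⁻¹ + Q0 * v) := by ring
      _ = 1 + Q0 * v := by rw [h1, h2, one_mul]
  have h' := congrArg (pr (nn a z) i) h
  rw [map_mul, map_natCast, map_natCast] at h'
  exact h'

lemma arc_pair (n s : ℕ) (C : Finset (ZMod n)) (x x' : ZMod n) (hC : -x' ∈ C)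
    (hx : x ∉ arcs n (2 * s) C) (m : ℕ) (h1 : 1 ≤ m) (h2 : m ≤ 2 * s) :
    x + x' + (m : ZMod n) ≠ 0 := by
  intro h
  apply hx
  unfold arcs
  refine mem_biUnion.mpr ⟨-x', hC, mem_image.mpr ⟨m - 1, mem_range.mpr (by omega), ?_⟩⟩
  have : ((m - 1 : ℕ) : ZMod n) = (m : ZMod n) - 1 := by
    rw [Nat.cast_sub h1]; simp
  rw [this]
  linear_combination (-1 : ZMod n) * h

lemma arc_self (n s : ℕ) (C : Finset (ZMod n)) (x : ZMod n) (hn : Nat.Coprime 2 n)
    (hC0 : (0 : ZMod n) ∈ C) (hC1 : -(2 : ZMod n)⁻¹ ∈ C)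
    (hx : x ∉ arcs n (2 * s) C) (m : ℕ) (h1 : 2 ≤ m) (h2 : m ≤ 2 * s) :
    x + x + (m : ZMod n) ≠ 0 := by
  have h22 : (2 : ZMod n) * (2 : ZMod n)⁻¹ = 1 := by
    have := ZMod.coe_mul_inv_eq_one (n := n) 2 hn
    exact_mod_cast this
  intro h
  rcases Nat.even_or_odd' m with ⟨r, hr | hr⟩
  · apply arc_pair n s C x 0 (by simpa using hC0) hx r (by omega) (by omega)
    have : (2 : ZMod n) * (x + 0 + (r : ZMod n)) = 0 := by
      rw [hr] at h
      push_cast at h
      linear_combination h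
    calc x + 0 + (r : ZMod n) = ((2 : ZMod n) * (2 : ZMod n)⁻¹) * (x + 0 + (r : ZMod n)) := by
          rw [h22, one_mul]
      _ = (2 : ZMod n)⁻¹ * ((2 : ZMod n) * (x + 0 + (r : ZMod n))) := by ring
      _ = 0 := by rw [this, mul_zero]
  · apply arc_pair n s C x ((2 : ZMod n)⁻¹) hC1 hx r (by omega) (by omega)
    have : (2 : ZMod n) * (x + (2 : ZMod n)⁻¹ + (r : ZMod n)) = 0 := by
      rw [hr] at h
      push_cast at h
      linear_combination h + h22
    calc x + (2 : ZMod n)⁻¹ + (r : ZMod n) =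
        ((2 : ZMod n) * (2 : ZMod n)⁻¹) * (x + (2 : ZMod n)⁻¹ + (r : ZMod n)) := by
          rw [h22, one_mul]
      _ = (2 : ZMod n)⁻¹ * ((2 : ZMod n) * (x + (2 : ZMod n)⁻¹ + (r : ZMod n))) := by ring
      _ = 0 := by rw [this, mul_zero]

/-- The end points of the arcs to be avoided at the step `t`. -/
noncomputable def cen (a z Q0 q t : ℕ) (v : ℕ → ℕ) (i : PI a z) : Finset (ZMod (nn a z i)) :=
  insert 0 (insert (-(2 : ZMod (nn a z i))⁻¹)
    ((range t).image (fun t' => -(pr (nn a z) i (xv a z Q0 q (v t'))))))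

lemma cen_card (a z Q0 q t : ℕ) (v : ℕ → ℕ) (i : PI a z) :
    (cen a z Q0 q t v i).card ≤ t + 2 := by
  unfold cen
  refine (card_insert_le _ _).trans ?_
  have h1 := card_insert_le (-(2 : ZMod (nn a z i))⁻¹)
    ((range t).image (fun t' => -(pr (nn a z) i (xv a z Q0 q (v t')))))
  have h2 := card_image_le (s := range t) (f := fun t' => -(pr (nn a z) i (xv a z Q0 q (v t'))))
  rw [card_range] at h2
  omega

/-- All requirements for the positions `v 0, …, v (t - 1)`. -/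
structure Req (a y z Q0 q s V : ℕ) (l : ℕ → ℕ) (t : ℕ) (v : ℕ → ℕ) : Prop where
  lt : ∀ t' < t, v t' < V
  stat : ∀ i : PI a z, i.1 ≤ y → ∀ t' < t,
    tf (nn a z) (fun i => l i.1) i (pr (nn a z) i (xv a z Q0 q (v t'))) ≠ 0
  dyn : ∀ p : ℕ, p.Prime → y < p → ∀ t1 < t, ∀ t2 ≤ t1, ∀ m : ℕ, 2 ≤ m → m ≤ 2 * s →
      ¬ p ^ 2 ∣ (1 + Q0 * v t1) + (1 + Q0 * v t2) + Q0 * q * m
  disj : ∀ t1 < t, ∀ t2 < t1, ∀ j : ℕ, 1 ≤ j → j ≤ s → ∀ j' : ℕ, 1 ≤ j' → j' ≤ s →
      1 + Q0 * v t1 + Q0 * q * j ≠ 1 + Q0 * v t2 + Q0 * q * j'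

open Classical in
theorem greedy (N a y z Q0 q s T V : ℕ) (l : ℕ → ℕ) (R : ℝ) (hz : 2 ≤ z) (ha : 2 ≤ a) (hQ0p : 0 < Q0)
    (hay : a ≤ y)
    (hQ0 : ∀ p : ℕ, p.Prime → a < p → ¬ p ∣ Q0) (haz : a ≤ z) (hq : q.Prime) (hqz : z < q)
    (hN : ∀ v : ℕ, v < V → 1 + Q0 * v + Q0 * q * s ≤ N)
    (hR : ∀ C : (i : PI a z) → Finset (ZMod (nn a z i)), (∀ i, (C i).card ≤ T + 2) →
      R ≤ (((range V).filter (fun v : ℕ => Good (nn a z) (univ.filter (fun i : PI a z => i.1 ≤ y))
        (univ.filter (fun i : PI a z => y < i.1)) (fun i => l i.1) (2 * s) C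
        (xv a z Q0 q v))).card : ℝ))
    (hfin : (T : ℝ) * (2 * s) * (2 * V / z + Nat.sqrt (2 * N) + 1) + T * (s + 1) ^ 2 < R) :
    ∀ t ≤ T, ∃ v : ℕ → ℕ, Req a y z Q0 q s V l t v := by
  have hqM : q.Coprime (∏ i, nn a z i) := by
    refine Nat.Coprime.prod_right fun i _ => ?_
    refine Nat.Coprime.pow_right 2 ?_
    refine (Nat.coprime_primes hq (PI_prime i)).mpr ?_
    have := PI_le i
    omega
  have hQM : Q0.Coprime (∏ i, nn a z i) := by
    refine Nat.Coprime.prod_right fun i _ => ?_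
    refine Nat.Coprime.pow_right 2 ?_
    exact ((PI_prime i).coprime_iff_not_dvd.mpr (hQ0 _ (PI_prime i) (PI_lt i))).symm
  intro t
  induction t with
  | zero =>
    intro _
    exact ⟨fun _ => 0, ⟨fun _ h => absurd h (by omega), fun _ _ _ h => absurd h (by omega),
      fun _ _ _ _ h => absurd h (by omega), fun _ h => absurd h (by omega)⟩⟩
  | succ t ih =>
    intro htT
    obtain ⟨v, hv⟩ := ih (by omega)
    have hcount := hR (cen a z Q0 q t v) (fun i => (cen_card a z Q0 q t v i).trans (by omega))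
    set GoodS := (range V).filter (fun x : ℕ => Good (nn a z)
      (univ.filter (fun i : PI a z => i.1 ≤ y))
        (univ.filter (fun i : PI a z => y < i.1)) (fun i => l i.1) (2 * s) (cen a z Q0 q t v)
        (xv a z Q0 q x)) with hGoodS
    set vs := (range t).image v with hvs
    have hvscard : vs.card ≤ t := (card_image_le).trans (by simp)
    have hlarge := large_count N Q0 q z s V vs hz hQ0p
      (fun p hp hzp => hQ0 p hp (by omega)) hq hqz hN (by
        intro x hx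
        obtain ⟨t', ht', rfl⟩ := mem_image.mp hx
        exact hv.lt t' (mem_range.mp ht'))
    set BadL := (range V).filter (fun v : ℕ => ∃ p : ℕ, p.Prime ∧ z < p ∧ ∃ m : ℕ, 2 ≤ m ∧
      m ≤ 2 * s ∧ (p ^ 2 ∣ (1 + Q0 * v) + (1 + Q0 * v) + Q0 * q * m ∨
        ∃ v' ∈ vs, p ^ 2 ∣ (1 + Q0 * v) + (1 + Q0 * v') + Q0 * q * m)) with hBadL
    set BadD := ((range t) ×ˢ ((range (s + 1)) ×ˢ (range (s + 1)))).image
      (fun e : ℕ × ℕ × ℕ => (Q0 * v e.1 + Q0 * q * e.2.2 - Q0 * q * e.2.1) / Q0) with hBadD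
    have hBadDcard : (BadD.card : ℝ) ≤ t * (s + 1) ^ 2 := by
      have : BadD.card ≤ t * ((s + 1) * (s + 1)) := by
        refine card_image_le.trans ?_
        rw [card_product, card_product, card_range, card_range]
      calc (BadD.card : ℝ) ≤ ((t * ((s + 1) * (s + 1)) : ℕ) : ℝ) := by exact_mod_cast this
        _ = t * (s + 1) ^ 2 := by push_cast; ring
    have htT' : (t : ℝ) + 1 ≤ T := by exact_mod_cast htT
    have hlarge' : (BadL.card : ℝ) ≤ (T : ℝ) * (2 * s) * (2 * V / z + Nat.sqrt (2 * N) + 1) := by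
      refine hlarge.trans ?_
      have h1 : (vs.card : ℝ) + 1 ≤ T := by
        have : (vs.card : ℝ) ≤ t := by exact_mod_cast hvscard
        linarith
      have h2 : (0 : ℝ) ≤ 2 * s := by positivity
      have h3 : (0 : ℝ) ≤ 2 * V / z + Nat.sqrt (2 * N) + 1 := by positivity
      exact mul_le_mul_of_nonneg_right (mul_le_mul_of_nonneg_right h1 h2) h3
    have hex : ∃ x ∈ GoodS, x ∉ BadL ∧ x ∉ BadD := by
      by_contra hcon
      push Not at hcon
      have hsub : GoodS ⊆ BadL ∪ BadD := by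
        intro x hx
        by_cases hxL : x ∈ BadL
        · exact mem_union_left _ hxL
        · exact mem_union_right _ (hcon x hx hxL)
      have hc : (GoodS.card : ℝ) ≤ BadL.card + BadD.card := by
        exact_mod_cast (card_le_card hsub).trans (card_union_le _ _)
      have h4 : (t : ℝ) * (s + 1) ^ 2 ≤ T * (s + 1) ^ 2 :=
        mul_le_mul_of_nonneg_right (by linarith) (by positivity)
      linarith
    obtain ⟨x, hxG, hxL, hxD⟩ := hex
    obtain ⟨hxV, hxs, hxd⟩ := mem_filter.mp hxG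
    have hxV' := mem_range.mp hxV
    set v' : ℕ → ℕ := Function.update v t x with hv'
    have hvt : v' t = x := Function.update_self ..
    have hvlt : ∀ t' < t, v' t' = v t' := fun t' ht' => Function.update_of_ne (by omega) ..
    -- the new dynamic conditions
    have hdyn : ∀ p : ℕ, p.Prime → y < p → ∀ t2 ≤ t, ∀ m : ℕ, 2 ≤ m → m ≤ 2 * s →
        ¬ p ^ 2 ∣ (1 + Q0 * x) + (1 + Q0 * v' t2) + Q0 * q * m := by
      intro p hp hyp t2 ht2 m hm1 hm2 hdvd
      rcases lt_or_ge z p with hzp | hzp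
      · apply hxL
        refine mem_filter.mpr ⟨hxV, p, hp, hzp, m, hm1, hm2, ?_⟩
        rcases Nat.lt_or_eq_of_le ht2 with h | h
        · right
          refine ⟨v t2, mem_image.mpr ⟨t2, mem_range.mpr h, rfl⟩, ?_⟩
          rwa [hvlt t2 h] at hdvd
        · left
          rwa [h, hvt] at hdvd
      · -- p in the dynamic range
        let i : PI a z := ⟨p, mem_filter.mpr ⟨mem_Ioc.mpr ⟨by omega, hzp⟩, hp⟩⟩
        have hiB : i ∈ univ.filter (fun i : PI a z => y < i.1) := mem_filter.mpr ⟨mem_univ _, hyp⟩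
        have hxi := hxd i hiB
        have hunit : ∀ w : ZMod (nn a z i), ((Q0 * q : ℕ) : ZMod (nn a z i)) * w = 0 → w = 0 := by
          intro w hw
          have hcop : (Q0 * q).Coprime (nn a z i) := by
            refine Nat.Coprime.mul_left ?_ ?_
            · exact Nat.Coprime.coprime_dvd_right (dvd_prod_of_mem (nn a z) (mem_univ i)) hQM
            · exact Nat.Coprime.coprime_dvd_right (dvd_prod_of_mem (nn a z) (mem_univ i)) hqM
          have h1 := ZMod.coe_mul_inv_eq_one (Q0 * q) hcop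
          calc w = (((Q0 * q : ℕ) : ZMod (nn a z i)) * ((Q0 * q : ℕ) : ZMod (nn a z i))⁻¹) * w := by
                rw [h1, one_mul]
            _ = ((Q0 * q : ℕ) : ZMod (nn a z i))⁻¹ * (((Q0 * q : ℕ) : ZMod (nn a z i)) * w) := by
                ring
            _ = 0 := by rw [hw, mul_zero]
        have hzero : (((1 + Q0 * x) + (1 + Q0 * v' t2) + Q0 * q * m : ℕ) : ZMod (nn a z i)) = 0 :=
          (ZMod.natCast_eq_zero_iff _ _).mpr hdvd
        have hs1 := xv_spec a z Q0 q x hqM hQM i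
        have hs2 := xv_spec a z Q0 q (v' t2) hqM hQM i
        have hsum : pr (nn a z) i (xv a z Q0 q x) + pr (nn a z) i (xv a z Q0 q (v' t2)) +
            (m : ZMod (nn a z i)) = 0 := by
          apply hunit
          rw [mul_add, mul_add, hs1, hs2]
          push_cast at hzero ⊢
          exact hzero
        have hn2 : Nat.Coprime 2 (nn a z i) := by
          refine Nat.Coprime.pow_right 2 ?_
          refine (Nat.coprime_primes Nat.prime_two (PI_prime i)).mpr ?_
          have := PI_lt i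
          omega
        rcases Nat.lt_or_eq_of_le ht2 with h | h
        · rw [hvlt t2 h] at hsum
          refine arc_pair _ s _ _ _ ?_ hxi m (by omega) hm2 hsum
          unfold cen
          exact mem_insert_of_mem (mem_insert_of_mem (mem_image.mpr ⟨t2, mem_range.mpr h, rfl⟩))
        · rw [h, hvt] at hsum
          refine arc_self _ s _ _ hn2 ?_ ?_ hxi m hm1 hm2 hsum
          · unfold cen; exact mem_insert_self _ _
          · unfold cen; exact mem_insert_of_mem (mem_insert_self _ _)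
    refine ⟨v', ⟨?_, ?_, ?_, ?_⟩⟩
    · intro t' ht'
      rcases Nat.lt_succ_iff_lt_or_eq.mp ht' with h | h
      · rw [hvlt t' h]; exact hv.lt t' h
      · rw [h, hvt]; exact hxV'
    · intro i hi t' ht'
      rcases Nat.lt_succ_iff_lt_or_eq.mp ht' with h | h
      · rw [hvlt t' h]; exact hv.stat i hi t' h
      · rw [h, hvt]; exact hxs i (mem_filter.mpr ⟨mem_univ _, hi⟩)
    · intro p hp hyp t1 ht1 t2 ht2 m hm1 hm2
      rcases Nat.lt_succ_iff_lt_or_eq.mp ht1 with h | h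
      · rw [hvlt t1 h, hvlt t2 (by omega)]; exact hv.dyn p hp hyp t1 h t2 ht2 m hm1 hm2
      · rw [h, hvt]; exact hdyn p hp hyp t2 (by omega) m hm1 hm2
    · intro t1 ht1 t2 ht2 j hj1 hj2 j' hj1' hj2' heq
      rcases Nat.lt_succ_iff_lt_or_eq.mp ht1 with h | h
      · rw [hvlt t1 h, hvlt t2 (by omega)] at heq
        exact hv.disj t1 h t2 ht2 j hj1 hj2 j' hj1' hj2' heq
      · rw [h, hvt, hvlt t2 (by omega)] at heq
        apply hxD
        refine mem_image.mpr ⟨(t2, j, j'), ?_, ?_⟩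
        · simp only [mem_product, mem_range]
          omega
        · have h5 : Q0 * v t2 + Q0 * q * j' - Q0 * q * j = Q0 * x := by omega
          simp only
          rw [h5]
          exact Nat.mul_div_cancel_left x hQ0p

end Pool.Agent.Helper31.SQ
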