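import Pool.Agent.Helper31.SQ.Bonf

/-! Project SQ: multilinear sieve polynomials with real coefficients. -/

open Finset

namespace Pool.Agent.Helper31.SQ

variable {ι : Type*} [DecidableEq ι]

/-- The multilinear polynomial `∑_{R ⊆ X} c R ∏_{i ∈ R} b i`. -/
noncomputable def PP {A : Type*} [CommRing A] (X : Finset ι) (c : Finset ι → A) (b : ι → A) : A :=
  ∑ R ∈ X.powerset, c R * ∏ i ∈ R, b i

/-- Coefficients of the truncated inclusion-exclusion sum. -/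
noncomputable def cS (k : ℕ) (R : Finset ι) : ℝ := if R.card ≤ k then (-1) ^ R.card else 0

/-- Coefficients of the elementary symmetric polynomial of degree `k`. -/
noncomputable def cE (k : ℕ) (R : Finset ι) : ℝ := if R.card = k then 1 else 0

lemma PP_cS (X : Finset ι) (k : ℕ) (b : ι → ℝ) :
    PP X (cS k) b = ∑ R ∈ X.powerset.filter (fun R => R.card ≤ k), (-1) ^ R.card * ∏ i ∈ R, b i := by
  unfold PP cS
  rw [Finset.sum_filter]
  refine Finset.sum_congr rfl fun R _ => ?_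
  split_ifs <;> simp

lemma PP_cE (X : Finset ι) (k : ℕ) (b : ι → ℝ) :
    PP X (cE k) b = ∑ R ∈ X.powersetCard k, ∏ i ∈ R, b i := by
  unfold PP cE
  rw [Finset.powersetCard_eq_filter, Finset.sum_filter]
  refine Finset.sum_congr rfl fun R _ => ?_
  split_ifs <;> simp

lemma PP_cE_zero (X : Finset ι) (b : ι → ℝ) : PP X (cE 0) b = 1 := by
  rw [PP_cE]; simp

lemma PP_cE_one (X : Finset ι) (b : ι → ℝ) : PP X (cE 1) b = ∑ i ∈ X, b i := by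
  rw [PP_cE, Finset.powersetCard_one]
  simp

lemma PP_cE_nonneg (X : Finset ι) (k : ℕ) (b : ι → ℝ) (h0 : ∀ i ∈ X, 0 ≤ b i) :
    0 ≤ PP X (cE k) b := by
  rw [PP_cE]
  refine Finset.sum_nonneg fun R hR => Finset.prod_nonneg fun i hi => h0 i ?_
  exact (Finset.mem_powersetCard.mp hR).1 hi

lemma one_sub_sum_le (X : Finset ι) (b : ι → ℝ) (h0 : ∀ i ∈ X, 0 ≤ b i) (h1 : ∀ i ∈ X, b i ≤ 1) :
    1 - ∑ i ∈ X, b i ≤ ∏ i ∈ X, (1 - b i) := by
  induction X using Finset.induction_on with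
  | empty => simp
  | insert a s ha ih =>
    rw [Finset.prod_insert ha, Finset.sum_insert ha]
    have h := ih (fun i hi => h0 i (mem_insert_of_mem hi)) (fun i hi => h1 i (mem_insert_of_mem hi))
    have ha0 := h0 a (mem_insert_self _ _)
    have ha1 := h1 a (mem_insert_self _ _)
    have hp : ∏ i ∈ s, (1 - b i) ≤ 1 := by
      refine Finset.prod_le_one (fun i hi => ?_) (fun i hi => ?_)
      · have := h1 i (mem_insert_of_mem hi); linarith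
      · have := h0 i (mem_insert_of_mem hi); linarith
    nlinarith

lemma prod_one_sub_nonneg (X : Finset ι) (b : ι → ℝ) (h1 : ∀ i ∈ X, b i ≤ 1) :
    0 ≤ ∏ i ∈ X, (1 - b i) :=
  Finset.prod_nonneg fun i hi => by have := h1 i hi; linarith

lemma prod_one_sub_le_one (X : Finset ι) (b : ι → ℝ) (h0 : ∀ i ∈ X, 0 ≤ b i)
    (h1 : ∀ i ∈ X, b i ≤ 1) : ∏ i ∈ X, (1 - b i) ≤ 1 := by
  refine Finset.prod_le_one (fun i hi => ?_) (fun i hi => ?_)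
  · have := h1 i hi; linarith
  · have := h0 i hi; linarith

/-- The lower sieve polynomial. -/
noncomputable def LL (B1 B2 B3 : Finset ι) (k1 k2 : ℕ) (b : ι → ℝ) : ℝ :=
  PP B1 (cS k1) b * PP B2 (cS k2) b * PP B3 (cE 0) b
    - PP B1 (cE k1) b * PP B2 (cS k2) b * PP B3 (cE 0) b
    - PP B1 (cS k1) b * PP B2 (cE k2) b * PP B3 (cE 0) b
    - PP B1 (cS k1) b * PP B2 (cS k2) b * PP B3 (cE 1) b

theorem LL_le (B1 B2 B3 : Finset ι) (k1 k2 : ℕ) (hk1 : Even k1) (hk2 : Even k2) (h1p : 0 < k1)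
    (h2p : 0 < k2) (b : ι → ℝ) (h0 : ∀ i, 0 ≤ b i) (h1 : ∀ i, b i ≤ 1) :
    LL B1 B2 B3 k1 k2 b ≤
      (∏ i ∈ B1, (1 - b i)) * (∏ i ∈ B2, (1 - b i)) * ∏ i ∈ B3, (1 - b i) := by
  have a1 := bonf_upper B1 b (fun i _ => h0 i) (fun i _ => h1 i) k1 hk1
  have a2 := bonf_lower B1 b (fun i _ => h0 i) (fun i _ => h1 i) k1 hk1 h1p
  have b1 := bonf_upper B2 b (fun i _ => h0 i) (fun i _ => h1 i) k2 hk2
  have b2 := bonf_lower B2 b (fun i _ => h0 i) (fun i _ => h1 i) k2 hk2 h2p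
  rw [← PP_cS] at a1 b1
  rw [← PP_cS, ← PP_cE] at a2 b2
  have c2 := one_sub_sum_le B3 b (fun i _ => h0 i) (fun i _ => h1 i)
  have c1 := prod_one_sub_le_one B3 b (fun i _ => h0 i) (fun i _ => h1 i)
  have c0 := prod_one_sub_nonneg B3 b (fun i _ => h1 i)
  have n1 := prod_one_sub_nonneg B1 b (fun i _ => h1 i)
  have n2 := prod_one_sub_nonneg B2 b (fun i _ => h1 i)
  have e1 := PP_cE_nonneg B1 k1 b (fun i _ => h0 i)
  have e2 := PP_cE_nonneg B2 k2 b (fun i _ => h0 i)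
  have s3 : 0 ≤ ∑ i ∈ B3, b i := Finset.sum_nonneg fun i _ => h0 i
  unfold LL
  rw [PP_cE_zero, PP_cE_one]
  set S1 := PP B1 (cS k1) b
  set S2 := PP B2 (cS k2) b
  set E1 := PP B1 (cE k1) b
  set E2 := PP B2 (cE k2) b
  set I1 := ∏ i ∈ B1, (1 - b i)
  set I2 := ∏ i ∈ B2, (1 - b i)
  set I3 := ∏ i ∈ B3, (1 - b i)
  set σ := ∑ i ∈ B3, b i
  have t1 : (S1 - I1) * S2 ≤ E1 * S2 :=
    mul_le_mul_of_nonneg_right (by linarith) (by linarith)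
  have t2 : I1 * (S2 - I2) ≤ S1 * E2 :=
    mul_le_mul a1 (by linarith) (by linarith) (by linarith)
  have t3 : (I1 * I2) * (1 - I3) ≤ (S1 * S2) * σ :=
    mul_le_mul (mul_le_mul a1 b1 n2 (by linarith)) (by linarith) (by linarith)
      (mul_nonneg (by linarith) (by linarith))
  nlinarith

theorem LL_ge (B1 B2 B3 : Finset ι) (k1 k2 : ℕ) (hk1 : Even k1) (hk2 : Even k2)
    (b β : ι → ℝ) (h0 : ∀ i, 0 ≤ b i) (hb : ∀ i, b i ≤ β i) (h1 : ∀ i ∈ B1 ∪ B2, β i ≤ 1)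
    (ρ : ℝ) (hρ : 0 < ρ)
    (H1 : ∏ i ∈ B1, (1 + ρ * β i) ≤ ρ ^ k1 * (1 / 8 * ∏ i ∈ B1, (1 - β i)))
    (H2 : ∏ i ∈ B2, (1 + ρ * β i) ≤ ρ ^ k2 * (1 / 8 * ∏ i ∈ B2, (1 - β i)))
    (H3 : ∑ i ∈ B3, β i ≤ 1 / 8) :
    1 / 2 * (∏ i ∈ B1, (1 - β i)) * (∏ i ∈ B2, (1 - β i)) ≤ LL B1 B2 B3 k1 k2 b := by
  have hB1 : ∀ i ∈ B1, β i ≤ 1 := fun i hi => h1 i (mem_union_left _ hi)
  have hB2 : ∀ i ∈ B2, β i ≤ 1 := fun i hi => h1 i (mem_union_right _ hi)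
  have key : ∀ (X : Finset ι) (k : ℕ), (∀ i ∈ X, β i ≤ 1) → Even k →
      ∏ i ∈ X, (1 + ρ * β i) ≤ ρ ^ k * (1 / 8 * ∏ i ∈ X, (1 - β i)) →
      (∏ i ∈ X, (1 - β i) ≤ PP X (cS k) b ∧ PP X (cE k) b ≤ 1 / 8 * PP X (cS k) b) := by
    intro X k hX hk H
    have a1 := bonf_upper X b (fun i _ => h0 i) (fun i hi => (hb i).trans (hX i hi)) k hk
    rw [← PP_cS] at a1
    have m1 : ∏ i ∈ X, (1 - β i) ≤ ∏ i ∈ X, (1 - b i) :=
      Finset.prod_le_prod (fun i hi => by have := hX i hi; linarith)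
        (fun i _ => by have := hb i; linarith)
    have a3 := ek_le X b (fun i _ => h0 i) k ρ hρ
    rw [← PP_cE] at a3
    have m2 : ∏ i ∈ X, (1 + ρ * b i) ≤ ∏ i ∈ X, (1 + ρ * β i) :=
      Finset.prod_le_prod (fun i _ => by have := mul_nonneg hρ.le (h0 i); linarith)
        (fun i _ => by have := mul_le_mul_of_nonneg_left (hb i) hρ.le; linarith)
    have hk' : 0 < ρ ^ k := pow_pos hρ k
    have m3 : PP X (cE k) b ≤ 1 / 8 * ∏ i ∈ X, (1 - β i) := by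
      have : ρ ^ k * PP X (cE k) b ≤ ρ ^ k * (1 / 8 * ∏ i ∈ X, (1 - β i)) :=
        a3.trans (m2.trans H)
      exact le_of_mul_le_mul_left this hk'
    exact ⟨m1.trans a1, by linarith [m1.trans a1]⟩
  obtain ⟨p1, q1⟩ := key B1 k1 hB1 hk1 H1
  obtain ⟨p2, q2⟩ := key B2 k2 hB2 hk2 H2
  have n1 := prod_one_sub_nonneg B1 β hB1
  have n2 := prod_one_sub_nonneg B2 β hB2
  have s3 : ∑ i ∈ B3, b i ≤ 1 / 8 := (Finset.sum_le_sum fun i _ => hb i).trans H3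
  unfold LL
  rw [PP_cE_zero, PP_cE_one]
  set S1 := PP B1 (cS k1) b
  set S2 := PP B2 (cS k2) b
  set E1 := PP B1 (cE k1) b
  set E2 := PP B2 (cE k2) b
  set I1 := ∏ i ∈ B1, (1 - β i)
  set I2 := ∏ i ∈ B2, (1 - β i)
  set σ := ∑ i ∈ B3, b i
  have hS1 : 0 ≤ S1 := n1.trans p1
  have hS2 : 0 ≤ S2 := n2.trans p2
  have t1 : E1 * S2 ≤ (1 / 8 * S1) * S2 := mul_le_mul_of_nonneg_right q1 hS2
  have t2 : S1 * E2 ≤ S1 * (1 / 8 * S2) := mul_le_mul_of_nonneg_left q2 hS1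
  have t3 : S1 * S2 * σ ≤ S1 * S2 * (1 / 8) := mul_le_mul_of_nonneg_left s3 (mul_nonneg hS1 hS2)
  have t4 : I1 * I2 ≤ S1 * S2 := mul_le_mul p1 p2 n2 hS1
  have t5 : 0 ≤ I1 * I2 := mul_nonneg n1 n2
  nlinarith

end Pool.Agent.Helper31.SQ
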