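import Pool.Agent.Helper31.SQ.Sv2

/-! Project SQ: the sieve theorem. -/

open Finset

namespace Pool.Agent.Helper31.SQ

variable {ι : Type*} [Fintype ι] [DecidableEq ι] (n : ι → ℕ) [∀ i, NeZero (n i)]
  [NeZero (∏ i, n i)]

open Classical in
theorem sieve (hn : Pairwise (Function.onFun Nat.Coprime n)) (Ps B1 B2 B3 : Finset ι)
    (d1 : Disjoint Ps B1) (d2 : Disjoint Ps B2) (d3 : Disjoint Ps B3) (d4 : Disjoint B1 B2)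
    (d5 : Disjoint B1 B3) (d6 : Disjoint B2 B3)
    (l : ι → ℕ) (hl : ∀ i ∈ Ps, 0 < l i ∧ l i ≤ n i) (w K : ℕ) (hK : 1 ≤ K) (k1 k2 : ℕ)
    (hk1 : Even k1) (hk2 : Even k2) (h1p : 0 < k1) (h2p : 0 < k2) (lam1 lam2 : ℝ)
    (h10 : 0 < lam1) (h11 : lam1 ≤ 1) (h20 : 0 < lam2) (h21 : lam2 ≤ 1)
    (β : ι → ℝ) (hβ : ∀ i, ((w * K : ℕ) : ℝ) / (n i : ℝ) ≤ β i) (hβ1 : ∀ i ∈ B1 ∪ B2, β i ≤ 1)
    (ρ : ℝ) (hρ : 0 < ρ)
    (H1 : ∏ i ∈ B1, (1 + ρ * β i) ≤ ρ ^ k1 * (1 / 8 * ∏ i ∈ B1, (1 - β i)))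
    (H2 : ∏ i ∈ B2, (1 + ρ * β i) ≤ ρ ^ k2 * (1 / 8 * ∏ i ∈ B2, (1 - β i)))
    (H3 : ∑ i ∈ B3, β i ≤ 1 / 8)
    (X V : ℕ) (hV : 0 < V) (Q : Finset ℕ) (hQ : Q.Nonempty)
    (hQ' : ∀ q ∈ Q, q.Prime ∧ q.Coprime (∏ i, n i) ∧ q ≤ X)
    (c : ZMod (∏ i, n i)) :
    ∃ q ∈ Q, ∀ C : (i : ι) → Finset (ZMod (n i)), (∀ i, (C i).card ≤ K) →
      (V : ℝ) * ((∏ i ∈ Ps, tm n l i) *
        (1 / 2 * (∏ i ∈ B1, (1 - β i)) * (∏ i ∈ B2, (1 - β i))) -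
        PsiB n B1 B2 B3 K k1 k2 lam1 lam2 *
          ((Nat.log 2 (∏ i, n i) : ℝ) / Q.card + (X : ℝ) / V)) ≤
      (((range V).filter (fun v : ℕ => Good n Ps (B1 ∪ B2 ∪ B3) l w C
        ((q : ZMod (∏ i, n i))⁻¹ * (c + ((v : ℕ) : ZMod (∏ i, n i)))))).card : ℝ) := by
  have hl' : ∀ i ∈ Ps, 0 < l i := fun i hi => (hl i hi).1
  set Ψ := Psi n Ps B1 B2 B3 l K k1 k2 lam1 lam2 with hΨ
  have hdom := fun C hC => GG_dom n Ps B1 B2 B3 l hl' w K hK k1 k2 lam1 lam2 h10 h11 h20 h21 C hC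
  have hd0 := hdom (fun _ => ∅) (by simp)
  have hsum : ∑ ψ : AddChar (ZMod (∏ i, n i)) ℂ, (cf Ψ ψ).re ≤ PsiB n B1 B2 B3 K k1 k2 lam1 lam2 := by
    rw [hd0.zero_val.1]
    exact Psi_zero n Ps B1 B2 B3 l hl K k1 k2 lam1 lam2 h10 h20
  obtain ⟨q, hqQ, hq⟩ := choose_q (∏ i, n i) X V hV Q hQ hQ' (fun ψ => (cf Ψ ψ).re)
    (fun ψ => hd0.re_nonneg ψ) c
  refine ⟨q, hqQ, fun C hC => ?_⟩
  have hδ : 0 ≤ (Nat.log 2 (∏ i, n i) : ℝ) / Q.card + (X : ℝ) / V := by positivity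
  have hq' := hq.trans (mul_le_mul_of_nonneg_right hsum hδ)
  have htr := Dom.transfer (range V) (fun v : ℕ => (q : ZMod (∏ i, n i))⁻¹ *
    (c + ((v : ℕ) : ZMod (∏ i, n i)))) (by simpa using hV.ne') (hdom C hC)
  rw [Finset.card_range] at htr
  have htr' := htr.trans hq'
  have hmean := GG_mean n hn Ps B1 B2 B3 l hl' w k1 k2 C d1 d2 d3 d4 d5 d6
  have hcf : cf (fun x => ((GG n Ps B1 B2 B3 l w k1 k2 C x : ℝ) : ℂ)) 0 =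
      (((∑ x : ZMod (∏ i, n i), GG n Ps B1 B2 B3 l w k1 k2 C x) / ((∏ i, n i : ℕ) : ℝ) : ℝ) : ℂ) := by
    unfold cf
    rw [ZMod.card]
    push_cast
    simp
  rw [hcf, hmean] at htr'
  have hVc : (∑ v ∈ range V, ((GG n Ps B1 B2 B3 l w k1 k2 C ((q : ZMod (∏ i, n i))⁻¹ *
      (c + ((v : ℕ) : ZMod (∏ i, n i)))) : ℝ) : ℂ)) / (V : ℂ) =
      (((∑ v ∈ range V, GG n Ps B1 B2 B3 l w k1 k2 C ((q : ZMod (∏ i, n i))⁻¹ *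
      (c + ((v : ℕ) : ZMod (∏ i, n i))))) / (V : ℝ) : ℝ) : ℂ) := by
    push_cast
    rfl
  rw [hVc, ← Complex.ofReal_sub, Complex.norm_real, Real.norm_eq_abs] at htr'
  have hlow := (abs_le.mp htr').1
  have hge := LL_ge B1 B2 B3 k1 k2 hk1 hk2 (bm n w C) β
    (fun i => by unfold bm; positivity)
    (fun i => by
      refine le_trans ?_ (hβ i)
      unfold bm
      refine div_le_div_of_nonneg_right ?_ (Nat.cast_nonneg _)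
      exact_mod_cast (arcs_card (n i) w (C i)).trans (Nat.mul_le_mul_left _ (hC i)))
    hβ1 ρ hρ H1 H2 H3
  have htm : 0 ≤ ∏ i ∈ Ps, tm n l i := Finset.prod_nonneg fun i _ => by unfold tm; positivity
  have hge' := mul_le_mul_of_nonneg_left hge htm
  have hcount : ∑ v ∈ range V, GG n Ps B1 B2 B3 l w k1 k2 C ((q : ZMod (∏ i, n i))⁻¹ *
      (c + ((v : ℕ) : ZMod (∏ i, n i)))) ≤
      (((range V).filter (fun v : ℕ => Good n Ps (B1 ∪ B2 ∪ B3) l w C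
        ((q : ZMod (∏ i, n i))⁻¹ * (c + ((v : ℕ) : ZMod (∏ i, n i)))))).card : ℝ) := by
    rw [Finset.card_filter]
    push_cast
    exact Finset.sum_le_sum fun v _ => GG_le n Ps B1 B2 B3 l hl w k1 k2 hk1 hk2 h1p h2p C _
  refine le_trans ?_ hcount
  have hVp : (0 : ℝ) < V := by exact_mod_cast hV
  have := mul_le_mul_of_nonneg_left (show (∏ i ∈ Ps, tm n l i) *
        (1 / 2 * (∏ i ∈ B1, (1 - β i)) * (∏ i ∈ B2, (1 - β i))) -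
        PsiB n B1 B2 B3 K k1 k2 lam1 lam2 *
          ((Nat.log 2 (∏ i, n i) : ℝ) / Q.card + (X : ℝ) / V) ≤
        (∑ v ∈ range V, GG n Ps B1 B2 B3 l w k1 k2 C ((q : ZMod (∏ i, n i))⁻¹ *
      (c + ((v : ℕ) : ZMod (∏ i, n i))))) / (V : ℝ) by linarith) hVp.le
  rwa [mul_div_cancel₀ _ hVp.ne'] at this

end Pool.Agent.Helper31.SQ
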