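import Pool.Agent.Helper31.SQ.Defs

/-! Project SQ (MP_d5570f_nt), piece Tent.

Facts on the tent `tent n l` on `ZMod n` (`0 < l ≤ n`):
`tent n l x = #{(a, b) : a, b < l, (a : ZMod n) - b = x} / l`.

PROOFS.
* `tent_le_one`: for given `x` the map `(a, b) ↦ b` is injective on the set (if `a - b = a' - b`
  in `ZMod n` with `a, a' < l ≤ n` then `a = a'`), so its cardinality is at most `l`.
* `tent_zero`: for `x = 0` the set is the diagonal of `range l` (`a = b` in `ZMod n` with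
  `a, b < l ≤ n` means `a = b`), of cardinality `l`.
* `tent_sum`: summing over `x` gives `#(range l × range l) / l = l` (`Finset.card_eq_sum_card_fiberwise`
  or swap the sums; first translate `x ↦ x - c`).
* `tent_supp`: `(a : ZMod n) - b = x - l` means `x = ((l + a - b : ℕ) : ZMod n)` (`b < l`), and
  `1 ≤ l + a - b ≤ 2 l - 1`.
* `tent_dom`: put `D = ∑ a ∈ range l, ψ (-(a : ZMod n))`. Then
  `∑ x, tent n l (x - c) * ψ (-x) = (1/l) ∑_{a, b < l} ψ (-(c + a - b)) = ψ (-c) * D * conj D / l`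
  (because `ψ (a) = conj (ψ (-a))`, `AddChar.map_neg_eq_conj`), so
  `cf (tent (· - c)) ψ = ψ (-c) * ‖D‖² / (l n)` and `cf tent ψ = ‖D‖² / (l n)`; `‖ψ (-c)‖ = 1`.
-/

open Finset

namespace Pool.Agent.Helper31.SQ

theorem tent_nonneg (n l : ℕ) (x : ZMod n) : 0 ≤ tent n l x := by
  unfold tent
  positivity

theorem tentH_inj {n l a b : ℕ} [NeZero n] (hln : l ≤ n) (ha : a < l) (hb : b < l)
    (h : (a : ZMod n) = (b : ZMod n)) : a = b := by
  rw [ZMod.natCast_eq_natCast_iff'] at h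
  rwa [Nat.mod_eq_of_lt (ha.trans_le hln), Nat.mod_eq_of_lt (hb.trans_le hln)] at h

theorem tent_le_one (n l : ℕ) [NeZero n] (hl : 0 < l) (hln : l ≤ n) (x : ZMod n) :
    tent n l x ≤ 1 := by
  have hl' : (0 : ℝ) < l := by exact_mod_cast hl
  unfold tent
  rw [div_le_one hl']
  have h : ((range l ×ˢ range l).filter
      (fun a : ℕ × ℕ => ((a.1 : ℕ) : ZMod n) - ((a.2 : ℕ) : ZMod n) = x)).card ≤
      (range l).card := by
    apply Finset.card_le_card_of_injOn (fun a => a.2)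
    · intro a ha
      rw [Finset.mem_coe, mem_filter, mem_product] at ha
      exact ha.1.2
    · intro a ha b hb hab
      rw [Finset.mem_coe, mem_filter, mem_product, mem_range, mem_range] at ha hb
      have hab' : a.2 = b.2 := hab
      have h1 : ((a.1 : ℕ) : ZMod n) = ((b.1 : ℕ) : ZMod n) := by
        have h2 := ha.2.trans hb.2.symm
        rw [hab'] at h2
        exact sub_left_injective h2
      exact Prod.ext (tentH_inj hln ha.1.1 hb.1.1 h1) hab'
  rw [card_range] at h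
  exact_mod_cast h

theorem tent_zero (n l : ℕ) [NeZero n] (hl : 0 < l) (hln : l ≤ n) : tent n l 0 = 1 := by
  have hl' : (l : ℝ) ≠ 0 := by exact_mod_cast hl.ne'
  unfold tent
  have h : (range l ×ˢ range l).filter
      (fun a : ℕ × ℕ => ((a.1 : ℕ) : ZMod n) - ((a.2 : ℕ) : ZMod n) = 0) =
      (range l).image (fun a => (a, a)) := by
    ext ⟨a, b⟩
    simp only [mem_filter, mem_product, mem_range, mem_image, Prod.mk.injEq]
    constructor
    · rintro ⟨⟨ha, hb⟩, hab⟩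
      have := tentH_inj hln ha hb (sub_eq_zero.1 hab)
      exact ⟨a, ha, rfl, this⟩
    · rintro ⟨d, hd, rfl, rfl⟩
      exact ⟨⟨hd, hd⟩, sub_self _⟩
  rw [h, Finset.card_image_of_injective _ (by
    intro a b hab
    exact (Prod.mk.injEq _ _ _ _ ▸ hab).1), card_range, div_self hl']

theorem tentH_fiber (n l : ℕ) [NeZero n] (c : ZMod n) (φ : ZMod n → ℂ) :
    ∑ x : ZMod n, ((tent n l (x - c) : ℝ) : ℂ) * φ x =
      (∑ p ∈ range l ×ˢ range l, φ (((p.1 : ℕ) : ZMod n) - ((p.2 : ℕ) : ZMod n) + c)) / l := by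
  classical
  have h1 : ∑ x : ZMod n, ((tent n l (x - c) : ℝ) : ℂ) * φ x =
      ∑ x : ZMod n, ((tent n l x : ℝ) : ℂ) * φ (x + c) := by
    rw [← Equiv.sum_comp (Equiv.addRight c)]
    refine Finset.sum_congr rfl fun x _ => ?_
    simp
  rw [h1, ← Finset.sum_fiberwise (range l ×ˢ range l)
    (fun p => ((p.1 : ℕ) : ZMod n) - ((p.2 : ℕ) : ZMod n)), Finset.sum_div]
  refine Finset.sum_congr rfl fun x _ => ?_
  have h2 : ∀ p ∈ (range l ×ˢ range l).filter
      (fun a : ℕ × ℕ => ((a.1 : ℕ) : ZMod n) - ((a.2 : ℕ) : ZMod n) = x),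
      φ (((p.1 : ℕ) : ZMod n) - ((p.2 : ℕ) : ZMod n) + c) = φ (x + c) := by
    intro p hp
    rw [(mem_filter.1 hp).2]
  rw [Finset.sum_congr rfl h2, Finset.sum_const, nsmul_eq_mul]
  unfold tent
  push_cast
  ring

theorem tent_sum (n l : ℕ) [NeZero n] (hl : 0 < l) (c : ZMod n) :
    ∑ x : ZMod n, tent n l (x - c) = l := by
  have hl' : (l : ℂ) ≠ 0 := by exact_mod_cast hl.ne'
  have h := tentH_fiber n l c (fun _ => 1)
  simp only [mul_one, Finset.sum_const, card_product, card_range, nsmul_eq_mul] at h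
  have h2 : (((l * l : ℕ) : ℂ)) / l = l := by
    push_cast
    field_simp
  rw [h2] at h
  have h3 : ((∑ x : ZMod n, tent n l (x - c) : ℝ) : ℂ) = ((l : ℝ) : ℂ) := by
    push_cast
    exact h
  exact_mod_cast h3

theorem tent_supp (n l : ℕ) [NeZero n] (x : ZMod n) (h : tent n l (x - (l : ZMod n)) ≠ 0) :
    ∃ y : ℕ, 1 ≤ y ∧ y ≤ 2 * l - 1 ∧ x = (y : ZMod n) := by
  unfold tent at h
  have h1 : ((range l ×ˢ range l).filter (fun a : ℕ × ℕ =>
      ((a.1 : ℕ) : ZMod n) - ((a.2 : ℕ) : ZMod n) = x - (l : ZMod n))).Nonempty := by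
    rw [Finset.nonempty_iff_ne_empty]
    intro h2
    apply h
    rw [h2]
    simp
  obtain ⟨⟨a, b⟩, hab⟩ := h1
  rw [mem_filter, mem_product, mem_range, mem_range] at hab
  obtain ⟨⟨ha, hb⟩, hab⟩ := hab
  have ha' : a < l := ha
  have hb' : b < l := hb
  refine ⟨l + a - b, by omega, by omega, ?_⟩
  rw [Nat.cast_sub (by omega), Nat.cast_add]
  have : x = (a : ZMod n) - (b : ZMod n) + (l : ZMod n) := by
    rw [hab]
    ring
  rw [this]
  ring

theorem tent_dom (n l : ℕ) [NeZero n] (hl : 0 < l) (c : ZMod n) :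
    Dom (fun x => ((tent n l (x - c) : ℝ) : ℂ)) (fun x => ((tent n l x : ℝ) : ℂ)) := by
  intro ψ
  have hlr : (0 : ℝ) < l := by exact_mod_cast hl
  have hnr : (0 : ℝ) < n := by exact_mod_cast Nat.pos_of_ne_zero (NeZero.ne n)
  let D : ℂ := ∑ a ∈ range l, ψ (-((a : ℕ) : ZMod n))
  have hD : (starRingEnd ℂ) D = ∑ b ∈ range l, ψ ((b : ℕ) : ZMod n) := by
    show (starRingEnd ℂ) (∑ a ∈ range l, ψ (-((a : ℕ) : ZMod n))) = _
    rw [map_sum]
    refine Finset.sum_congr rfl fun b _ => ?_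
    rw [AddChar.map_neg_eq_conj, Complex.conj_conj]
  have key : ∀ c : ZMod n, cf (fun x => ((tent n l (x - c) : ℝ) : ℂ)) ψ =
      ψ (-c) * (((‖D‖ ^ 2 / (l * n) : ℝ)) : ℂ) := by
    intro c
    unfold cf
    rw [tentH_fiber n l c (fun x => ψ (-x)), ZMod.card]
    have h1 : ∑ p ∈ range l ×ˢ range l,
        ψ (-(((p.1 : ℕ) : ZMod n) - ((p.2 : ℕ) : ZMod n) + c)) = ψ (-c) * (D * (starRingEnd ℂ) D) := by
      rw [hD]
      show _ = ψ (-c) * ((∑ a ∈ range l, ψ (-((a : ℕ) : ZMod n))) *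
        ∑ b ∈ range l, ψ ((b : ℕ) : ZMod n))
      rw [Finset.sum_mul_sum, Finset.mul_sum, Finset.sum_product]
      refine Finset.sum_congr rfl fun a _ => ?_
      rw [Finset.mul_sum]
      refine Finset.sum_congr rfl fun b _ => ?_
      have h2 : -(((a : ℕ) : ZMod n) - ((b : ℕ) : ZMod n) + c) =
          -c + (-((a : ℕ) : ZMod n) + ((b : ℕ) : ZMod n)) := by ring
      show ψ (-(((a : ℕ) : ZMod n) - ((b : ℕ) : ZMod n) + c)) = _
      rw [h2, AddChar.map_add_eq_mul, AddChar.map_add_eq_mul]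
    rw [h1, Complex.mul_conj, Complex.normSq_eq_norm_sq]
    push_cast
    have hlc : (l : ℂ) ≠ 0 := by exact_mod_cast hl.ne'
    have hnc : (n : ℂ) ≠ 0 := by exact_mod_cast NeZero.ne n
    field_simp
  have h0 : cf (fun x => ((tent n l x : ℝ) : ℂ)) ψ = (((‖D‖ ^ 2 / (l * n) : ℝ)) : ℂ) := by
    have := key 0
    simp only [sub_zero, neg_zero, AddChar.map_zero_eq_one, one_mul] at this
    exact this
  rw [key c, h0]
  refine ⟨?_, Complex.ofReal_im _⟩
  rw [norm_mul, AddChar.norm_apply, one_mul, Complex.ofReal_re, Complex.norm_real,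
    Real.norm_of_nonneg (by positivity)]

end Pool.Agent.Helper31.SQ
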