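import Pool.Agent.Helper31.SQ.Four
import Pool.Agent.Helper31.SQ.Tent
import Pool.Agent.Helper31.SQ.Arc
import Pool.Agent.Helper31.SQ.Crt
import Pool.Agent.Helper31.SQ.Poly

/-! Project SQ: the sieve function `GG`, its mean and the pointwise inequality. -/

open Finset

namespace Pool.Agent.Helper31.SQ

variable {ι : Type*} [Fintype ι] [DecidableEq ι] (n : ι → ℕ) [∀ i, NeZero (n i)]
  [NeZero (∏ i, n i)]

/-- The static factor at `i`. -/
noncomputable def tf (l : ι → ℕ) (i : ι) (x : ZMod (n i)) : ℝ :=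
  tent (n i) (l i) (x - ((l i : ℕ) : ZMod (n i)))

/-- The indicator of the bad set at `i`. -/
noncomputable def bf (w : ℕ) (C : (i : ι) → Finset (ZMod (n i))) (i : ι) (x : ZMod (n i)) : ℝ :=
  if x ∈ arcs (n i) w (C i) then 1 else 0

/-- The product of the static factors. -/
noncomputable def FF (Ps : Finset ι) (l : ι → ℕ) (x : ZMod (∏ i, n i)) : ℝ :=
  ∏ i ∈ Ps, tf n l i (pr n i x)

/-- The bad indicators as a function of `x`. -/
noncomputable def bb (w : ℕ) (C : (i : ι) → Finset (ZMod (n i))) (x : ZMod (∏ i, n i)) (i : ι) : ℝ :=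
  bf n w C i (pr n i x)

/-- The sieve function. -/
noncomputable def GG (Ps B1 B2 B3 : Finset ι) (l : ι → ℕ) (w k1 k2 : ℕ)
    (C : (i : ι) → Finset (ZMod (n i))) (x : ZMod (∏ i, n i)) : ℝ :=
  FF n Ps l x * LL B1 B2 B3 k1 k2 (bb n w C x)

/-- `x` satisfies all requirements. -/
def Good (Ps B : Finset ι) (l : ι → ℕ) (w : ℕ)
    (C : (i : ι) → Finset (ZMod (n i))) (x : ZMod (∏ i, n i)) : Prop :=
  (∀ i ∈ Ps, tf n l i (pr n i x) ≠ 0) ∧ ∀ i ∈ B, pr n i x ∉ arcs (n i) w (C i)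

omit [DecidableEq ι] [∀ i, NeZero (n i)] [NeZero (∏ i, n i)] in
lemma bb_nonneg (w : ℕ) (C : (i : ι) → Finset (ZMod (n i))) (x : ZMod (∏ i, n i)) (i : ι) :
    0 ≤ bb n w C x i := by
  unfold bb bf; split_ifs <;> norm_num

omit [DecidableEq ι] [∀ i, NeZero (n i)] [NeZero (∏ i, n i)] in
lemma bb_le_one (w : ℕ) (C : (i : ι) → Finset (ZMod (n i))) (x : ZMod (∏ i, n i)) (i : ι) :
    bb n w C x i ≤ 1 := by
  unfold bb bf; split_ifs <;> norm_num

open Classical in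
omit [NeZero (∏ i, n i)] in
theorem GG_le (Ps B1 B2 B3 : Finset ι) (l : ι → ℕ) (hl : ∀ i ∈ Ps, 0 < l i ∧ l i ≤ n i)
    (w k1 k2 : ℕ) (hk1 : Even k1) (hk2 : Even k2) (h1p : 0 < k1) (h2p : 0 < k2)
    (C : (i : ι) → Finset (ZMod (n i))) (x : ZMod (∏ i, n i)) :
    GG n Ps B1 B2 B3 l w k1 k2 C x ≤ if Good n Ps (B1 ∪ B2 ∪ B3) l w C x then 1 else 0 := by
  have hL := LL_le B1 B2 B3 k1 k2 hk1 hk2 h1p h2p (bb n w C x) (bb_nonneg n w C x)
    (bb_le_one n w C x)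
  have hF0 : 0 ≤ FF n Ps l x := Finset.prod_nonneg fun i _ => tent_nonneg _ _ _
  have hF1 : FF n Ps l x ≤ 1 :=
    Finset.prod_le_one (fun i _ => tent_nonneg _ _ _)
      (fun i hi => tent_le_one _ _ (hl i hi).1 (hl i hi).2 _)
  have p1 := prod_one_sub_le_one B1 (bb n w C x) (fun i _ => bb_nonneg n w C x i)
    (fun i _ => bb_le_one n w C x i)
  have p2 := prod_one_sub_le_one B2 (bb n w C x) (fun i _ => bb_nonneg n w C x i)
    (fun i _ => bb_le_one n w C x i)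
  have p3 := prod_one_sub_le_one B3 (bb n w C x) (fun i _ => bb_nonneg n w C x i)
    (fun i _ => bb_le_one n w C x i)
  have q1 := prod_one_sub_nonneg B1 (bb n w C x) (fun i _ => bb_le_one n w C x i)
  have q2 := prod_one_sub_nonneg B2 (bb n w C x) (fun i _ => bb_le_one n w C x i)
  have q3 := prod_one_sub_nonneg B3 (bb n w C x) (fun i _ => bb_le_one n w C x i)
  unfold GG
  split_ifs with hG
  · have h12 : (∏ i ∈ B1, (1 - bb n w C x i)) * (∏ i ∈ B2, (1 - bb n w C x i)) ≤ 1 :=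
      mul_le_one₀ p1 q2 p2
    have h123 : (∏ i ∈ B1, (1 - bb n w C x i)) * (∏ i ∈ B2, (1 - bb n w C x i)) *
        (∏ i ∈ B3, (1 - bb n w C x i)) ≤ 1 := mul_le_one₀ h12 q3 p3
    have hL1 : LL B1 B2 B3 k1 k2 (bb n w C x) ≤ 1 := hL.trans h123
    nlinarith
  · unfold Good at hG
    by_cases hS : ∀ i ∈ Ps, tf n l i (pr n i x) ≠ 0
    · have hB : ∃ i ∈ B1 ∪ B2 ∪ B3, pr n i x ∈ arcs (n i) w (C i) := by
        by_contra hcon
        push Not at hcon
        exact hG ⟨hS, hcon⟩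
      obtain ⟨i, hi, hx⟩ := hB
      have hb : 1 - bb n w C x i = 0 := by unfold bb bf; rw [if_pos hx]; ring
      have hz : (∏ i ∈ B1, (1 - bb n w C x i)) * (∏ i ∈ B2, (1 - bb n w C x i)) *
          (∏ i ∈ B3, (1 - bb n w C x i)) = 0 := by
        rw [mem_union, mem_union] at hi
        rcases hi with (hi | hi) | hi
        · rw [Finset.prod_eq_zero hi hb]; ring
        · rw [Finset.prod_eq_zero (s := B2) hi hb]; ring
        · rw [Finset.prod_eq_zero (s := B3) hi hb]; ring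
      rw [hz] at hL
      exact mul_nonpos_of_nonneg_of_nonpos hF0 hL
    · push Not at hS
      obtain ⟨i, hi, hx⟩ := hS
      have : FF n Ps l x = 0 := Finset.prod_eq_zero hi hx
      rw [this]; simp

omit [∀ i, NeZero (n i)] [NeZero (∏ i, n i)] in
/-- One monomial of the sieve function as a product over coordinates. -/
lemma mono_eq (Ps R1 R2 R3 : Finset ι) (l : ι → ℕ) (w : ℕ) (C : (i : ι) → Finset (ZMod (n i)))
    (d1 : Disjoint Ps R1) (d2 : Disjoint Ps R2) (d3 : Disjoint Ps R3) (d4 : Disjoint R1 R2)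
    (d5 : Disjoint R1 R3) (d6 : Disjoint R2 R3) (x : ZMod (∏ i, n i)) :
    FF n Ps l x * (∏ i ∈ R1, bb n w C x i) * (∏ i ∈ R2, bb n w C x i) *
      (∏ i ∈ R3, bb n w C x i) =
      ∏ i ∈ Ps ∪ R1 ∪ R2 ∪ R3, (if i ∈ Ps then tf n l i else bf n w C i) (pr n i x) := by
  have e1 : Disjoint (Ps ∪ R1) R2 := disjoint_union_left.mpr ⟨d2, d4⟩
  have e2 : Disjoint (Ps ∪ R1 ∪ R2) R3 := disjoint_union_left.mpr
    ⟨disjoint_union_left.mpr ⟨d3, d5⟩, d6⟩
  rw [Finset.prod_union e2, Finset.prod_union e1, Finset.prod_union d1]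
  unfold FF bb
  congr 1
  · congr 1
    · congr 1
      · refine Finset.prod_congr rfl fun i hi => ?_
        rw [if_pos hi]
      · refine Finset.prod_congr rfl fun i hi => ?_
        rw [if_neg (fun h => (Finset.disjoint_left.mp d1) h hi)]
    · refine Finset.prod_congr rfl fun i hi => ?_
      rw [if_neg (fun h => (Finset.disjoint_left.mp d2) h hi)]
  · refine Finset.prod_congr rfl fun i hi => ?_
    rw [if_neg (fun h => (Finset.disjoint_left.mp d3) h hi)]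

/-- The mean of the static factor and of the bad indicator. -/
noncomputable def tm (l : ι → ℕ) (i : ι) : ℝ := (l i : ℝ) / (n i : ℝ)

noncomputable def bm (w : ℕ) (C : (i : ι) → Finset (ZMod (n i))) (i : ι) : ℝ :=
  ((arcs (n i) w (C i)).card : ℝ) / (n i : ℝ)

omit [DecidableEq ι] [Fintype ι] [NeZero (∏ i, n i)] in
lemma tf_mean (l : ι → ℕ) (i : ι) (hl : 0 < l i) :
    (∑ y : ZMod (n i), tf n l i y) / (n i : ℝ) = tm n l i := by
  unfold tf tm
  rw [tent_sum _ _ hl]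

omit [DecidableEq ι] [Fintype ι] [NeZero (∏ i, n i)] in
lemma bf_mean (w : ℕ) (C : (i : ι) → Finset (ZMod (n i))) (i : ι) :
    (∑ y : ZMod (n i), bf n w C i y) / (n i : ℝ) = bm n w C i := by
  unfold bf bm
  congr 1
  rw [Finset.sum_ite_mem]
  simp

lemma mono_mean (hn : Pairwise (Function.onFun Nat.Coprime n)) (Ps R1 R2 R3 : Finset ι)
    (l : ι → ℕ) (hl : ∀ i ∈ Ps, 0 < l i) (w : ℕ) (C : (i : ι) → Finset (ZMod (n i)))
    (d1 : Disjoint Ps R1) (d2 : Disjoint Ps R2) (d3 : Disjoint Ps R3) (d4 : Disjoint R1 R2)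
    (d5 : Disjoint R1 R3) (d6 : Disjoint R2 R3) :
    (∑ x : ZMod (∏ i, n i), FF n Ps l x * (∏ i ∈ R1, bb n w C x i) * (∏ i ∈ R2, bb n w C x i) *
      (∏ i ∈ R3, bb n w C x i)) / ((∏ i, n i : ℕ) : ℝ) =
      (∏ i ∈ Ps, tm n l i) * (∏ i ∈ R1, bm n w C i) * (∏ i ∈ R2, bm n w C i) *
        (∏ i ∈ R3, bm n w C i) := by
  simp_rw [mono_eq n Ps R1 R2 R3 l w C d1 d2 d3 d4 d5 d6]
  rw [crt_mean n hn (Ps ∪ R1 ∪ R2 ∪ R3) (fun i => if i ∈ Ps then tf n l i else bf n w C i)]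
  have e1 : Disjoint (Ps ∪ R1) R2 := disjoint_union_left.mpr ⟨d2, d4⟩
  have e2 : Disjoint (Ps ∪ R1 ∪ R2) R3 := disjoint_union_left.mpr
    ⟨disjoint_union_left.mpr ⟨d3, d5⟩, d6⟩
  rw [Finset.prod_union e2, Finset.prod_union e1, Finset.prod_union d1]
  congr 1
  · congr 1
    · congr 1
      · refine Finset.prod_congr rfl fun i hi => ?_
        rw [if_pos hi, tf_mean n l i (hl i hi)]
      · refine Finset.prod_congr rfl fun i hi => ?_
        rw [if_neg (fun h => (Finset.disjoint_left.mp d1) h hi), bf_mean]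
    · refine Finset.prod_congr rfl fun i hi => ?_
      rw [if_neg (fun h => (Finset.disjoint_left.mp d2) h hi), bf_mean]
  · refine Finset.prod_congr rfl fun i hi => ?_
    rw [if_neg (fun h => (Finset.disjoint_left.mp d3) h hi), bf_mean]

lemma PP3_mean (hn : Pairwise (Function.onFun Nat.Coprime n)) (Ps B1 B2 B3 : Finset ι)
    (l : ι → ℕ) (hl : ∀ i ∈ Ps, 0 < l i) (w : ℕ) (C : (i : ι) → Finset (ZMod (n i)))
    (d1 : Disjoint Ps B1) (d2 : Disjoint Ps B2) (d3 : Disjoint Ps B3) (d4 : Disjoint B1 B2)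
    (d5 : Disjoint B1 B3) (d6 : Disjoint B2 B3) (c1 c2 c3 : Finset ι → ℝ) :
    (∑ x : ZMod (∏ i, n i), FF n Ps l x * (PP B1 c1 (bb n w C x) * PP B2 c2 (bb n w C x) *
      PP B3 c3 (bb n w C x))) / ((∏ i, n i : ℕ) : ℝ) =
      (∏ i ∈ Ps, tm n l i) * (PP B1 c1 (bm n w C) * PP B2 c2 (bm n w C) *
        PP B3 c3 (bm n w C)) := by
  have hexp : ∀ (F : ℝ) (b : ι → ℝ), F * (PP B1 c1 b * PP B2 c2 b * PP B3 c3 b) =
      ∑ R1 ∈ B1.powerset, ∑ R2 ∈ B2.powerset, ∑ R3 ∈ B3.powerset,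
        (c1 R1 * c2 R2 * c3 R3) * (F * (∏ i ∈ R1, b i) * (∏ i ∈ R2, b i) * (∏ i ∈ R3, b i)) := by
    intro F b
    unfold PP
    rw [Finset.sum_mul_sum, Finset.sum_mul, Finset.mul_sum]
    refine Finset.sum_congr rfl fun R1 _ => ?_
    rw [Finset.sum_mul, Finset.mul_sum]
    refine Finset.sum_congr rfl fun R2 _ => ?_
    rw [Finset.mul_sum, Finset.mul_sum]
    refine Finset.sum_congr rfl fun R3 _ => ?_
    ring
  simp_rw [hexp]
  rw [Finset.sum_comm, Finset.sum_div]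
  refine Finset.sum_congr rfl fun R1 hR1 => ?_
  rw [Finset.sum_comm, Finset.sum_div]
  refine Finset.sum_congr rfl fun R2 hR2 => ?_
  rw [Finset.sum_comm, Finset.sum_div]
  refine Finset.sum_congr rfl fun R3 hR3 => ?_
  rw [← Finset.mul_sum, mul_div_assoc]
  have s1 := Finset.mem_powerset.mp hR1
  have s2 := Finset.mem_powerset.mp hR2
  have s3 := Finset.mem_powerset.mp hR3
  rw [mono_mean n hn Ps R1 R2 R3 l hl w C (d1.mono_right s1) (d2.mono_right s2)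
    (d3.mono_right s3) (d4.mono s1 s2) (d5.mono s1 s3) (d6.mono s2 s3)]

theorem GG_mean (hn : Pairwise (Function.onFun Nat.Coprime n)) (Ps B1 B2 B3 : Finset ι)
    (l : ι → ℕ) (hl : ∀ i ∈ Ps, 0 < l i) (w k1 k2 : ℕ) (C : (i : ι) → Finset (ZMod (n i)))
    (d1 : Disjoint Ps B1) (d2 : Disjoint Ps B2) (d3 : Disjoint Ps B3) (d4 : Disjoint B1 B2)
    (d5 : Disjoint B1 B3) (d6 : Disjoint B2 B3) :
    (∑ x : ZMod (∏ i, n i), GG n Ps B1 B2 B3 l w k1 k2 C x) / ((∏ i, n i : ℕ) : ℝ) =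
      (∏ i ∈ Ps, tm n l i) * LL B1 B2 B3 k1 k2 (bm n w C) := by
  have h := PP3_mean n hn Ps B1 B2 B3 l hl w C d1 d2 d3 d4 d5 d6
  unfold GG LL
  simp_rw [mul_sub]
  rw [Finset.sum_sub_distrib, Finset.sum_sub_distrib, Finset.sum_sub_distrib, sub_div, sub_div,
    sub_div, h, h, h, h]

end Pool.Agent.Helper31.SQ
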