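import Pool.Agent.Helper31.SQ.Sv1
import Pool.Agent.Helper31.SQ.Equi

/-! Project SQ: domination of the sieve function and the sieve theorem. -/

open Finset

namespace Pool.Agent.Helper31.SQ

variable {ι : Type*} [Fintype ι] [DecidableEq ι] (n : ι → ℕ) [∀ i, NeZero (n i)]
  [NeZero (∏ i, n i)]

/-- Majorant of the bad indicators. -/
noncomputable def wf (K : ℕ) (i : ι) (x : ZMod (∏ i, n i)) : ℂ := (K : ℂ) * om (n i) (pr n i x)

/-- Majorant of the sieve polynomials. -/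
noncomputable def UU (K : ℕ) (X : Finset ι) (k : ℕ) (lam : ℝ) (x : ZMod (∏ i, n i)) : ℂ :=
  ((lam⁻¹ ^ k : ℝ) : ℂ) * ∏ i ∈ X, (1 + (lam : ℂ) * wf n K i x)

/-- Majorant of the static factor. -/
noncomputable def F0 (Ps : Finset ι) (l : ι → ℕ) (x : ZMod (∏ i, n i)) : ℂ :=
  ∏ i ∈ Ps, ((tent (n i) (l i) (pr n i x) : ℝ) : ℂ)

/-- Majorant of the sieve function. -/
noncomputable def Psi (Ps B1 B2 B3 : Finset ι) (l : ι → ℕ) (K k1 k2 : ℕ) (lam1 lam2 : ℝ)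
    (x : ZMod (∏ i, n i)) : ℂ :=
  F0 n Ps l x * (UU n K B1 k1 lam1 x * UU n K B2 k2 lam2 x * (3 + ∑ i ∈ B3, wf n K i x))

omit [DecidableEq ι] in
lemma bb_dom (w K : ℕ) (hK : 1 ≤ K) (C : (i : ι) → Finset (ZMod (n i)))
    (hC : ∀ i, (C i).card ≤ K) (i : ι) :
    Dom (fun x => ((bb n w C x i : ℝ) : ℂ)) (fun x => wf n K i x) := by
  have h := Dom.comp (pr n i).toAddMonoidHom (arcs_dom (n i) w K (C i) (hC i) hK)
  have e : (fun x : ZMod (∏ i, n i) => ((bb n w C x i : ℝ) : ℂ)) =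
      fun x => (if (pr n i).toAddMonoidHom x ∈ arcs (n i) w (C i) then (1 : ℂ) else 0) := by
    funext x
    unfold bb bf
    simp only [RingHom.toAddMonoidHom_eq_coe, AddMonoidHom.coe_coe]
    split_ifs <;> simp
  rw [e]
  exact h

omit [DecidableEq ι] in
lemma FF_dom (Ps : Finset ι) (l : ι → ℕ) (hl : ∀ i ∈ Ps, 0 < l i) :
    Dom (fun x => ((FF n Ps l x : ℝ) : ℂ)) (F0 n Ps l) := by
  have h := Dom.prod Ps (fun i x => ((tf n l i (pr n i x) : ℝ) : ℂ))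
    (fun i x => ((tent (n i) (l i) (pr n i x) : ℝ) : ℂ)) (fun i hi => by
      have h1 := Dom.comp (pr n i).toAddMonoidHom
        (tent_dom (n i) (l i) (hl i hi) ((l i : ℕ) : ZMod (n i)))
      simp only [RingHom.toAddMonoidHom_eq_coe, AddMonoidHom.coe_coe] at h1
      unfold tf
      exact h1)
  have e : (fun x : ZMod (∏ i, n i) => ((FF n Ps l x : ℝ) : ℂ)) =
      fun x => ∏ i ∈ Ps, ((tf n l i (pr n i x) : ℝ) : ℂ) := by
    funext x
    unfold FF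
    push_cast
    rfl
  rw [e]
  exact h

lemma PP_dom (w K : ℕ) (hK : 1 ≤ K) (C : (i : ι) → Finset (ZMod (n i)))
    (hC : ∀ i, (C i).card ≤ K) (X : Finset ι) (k : ℕ) (lam : ℝ) (h0 : 0 < lam) (h1 : lam ≤ 1)
    (c : Finset ι → ℝ) (hc : ∀ R, |c R| ≤ 1) (hc0 : ∀ R, k < R.card → c R = 0) :
    Dom (fun x => ((PP X c (bb n w C x) : ℝ) : ℂ)) (UU n K X k lam) := by
  have h := Dom.lin X.powerset (fun R => ((c R : ℝ) : ℂ)) (fun R => lam⁻¹ ^ k * lam ^ R.card)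
    (fun R x => ∏ i ∈ R, ((bb n w C x i : ℝ) : ℂ)) (fun R x => ∏ i ∈ R, wf n K i x)
    (fun R _ => by
      rw [Complex.norm_real, Real.norm_eq_abs]
      rcases lt_or_ge k R.card with hk | hk
      · rw [hc0 R hk, abs_zero]; positivity
      · refine (hc R).trans ?_
        rw [inv_pow, inv_mul_eq_div, le_div_iff₀ (pow_pos h0 k), one_mul]
        exact pow_le_pow_of_le_one h0.le h1 hk)
    (fun R _ => Dom.prod R _ _ (fun i _ => bb_dom n w K hK C hC i))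
  have e1 : (fun x : ZMod (∏ i, n i) => ((PP X c (bb n w C x) : ℝ) : ℂ)) =
      fun x => ∑ R ∈ X.powerset, ((c R : ℝ) : ℂ) * ∏ i ∈ R, ((bb n w C x i : ℝ) : ℂ) := by
    funext x
    unfold PP
    push_cast
    rfl
  have e2 : UU n K X k lam =
      fun x => ∑ R ∈ X.powerset, ((lam⁻¹ ^ k * lam ^ R.card : ℝ) : ℂ) * ∏ i ∈ R, wf n K i x := by
    funext x
    unfold UU
    rw [Finset.prod_one_add, Finset.mul_sum]
    refine Finset.sum_congr rfl fun R _ => ?_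
    rw [Finset.prod_mul_distrib, Finset.prod_const]
    push_cast
    ring
  rw [e1, e2]
  exact h

lemma cS_abs (k : ℕ) (R : Finset ι) : |cS k R| ≤ 1 := by
  unfold cS; split_ifs <;> simp

lemma cE_abs (k : ℕ) (R : Finset ι) : |cE k R| ≤ 1 := by
  unfold cE; split_ifs <;> simp

theorem GG_dom (Ps B1 B2 B3 : Finset ι) (l : ι → ℕ) (hl : ∀ i ∈ Ps, 0 < l i) (w K : ℕ)
    (hK : 1 ≤ K) (k1 k2 : ℕ) (lam1 lam2 : ℝ) (h10 : 0 < lam1) (h11 : lam1 ≤ 1) (h20 : 0 < lam2)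
    (h21 : lam2 ≤ 1) (C : (i : ι) → Finset (ZMod (n i))) (hC : ∀ i, (C i).card ≤ K) :
    Dom (fun x => ((GG n Ps B1 B2 B3 l w k1 k2 C x : ℝ) : ℂ))
      (Psi n Ps B1 B2 B3 l K k1 k2 lam1 lam2) := by
  have hF := FF_dom n Ps l hl
  have s1 := PP_dom n w K hK C hC B1 k1 lam1 h10 h11 (cS k1) (cS_abs k1) (fun R hR => by
    unfold cS; rw [if_neg (by omega)])
  have s2 := PP_dom n w K hK C hC B2 k2 lam2 h20 h21 (cS k2) (cS_abs k2) (fun R hR => by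
    unfold cS; rw [if_neg (by omega)])
  have t1 := PP_dom n w K hK C hC B1 k1 lam1 h10 h11 (cE k1) (cE_abs k1) (fun R hR => by
    unfold cE; rw [if_neg (by omega)])
  have t2 := PP_dom n w K hK C hC B2 k2 lam2 h20 h21 (cE k2) (cE_abs k2) (fun R hR => by
    unfold cE; rw [if_neg (by omega)])
  have u3 : Dom (fun x : ZMod (∏ i, n i) => ∑ i ∈ B3, (1 : ℂ) * ((bb n w C x i : ℝ) : ℂ))
      (fun x => ∑ i ∈ B3, ((1 : ℝ) : ℂ) * wf n K i x) :=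
    Dom.lin B3 (fun _ => (1 : ℂ)) (fun _ => 1) (fun i x => ((bb n w C x i : ℝ) : ℂ))
      (fun i x => wf n K i x) (fun _ _ => by simp) (fun i _ => bb_dom n w K hK C hC i)
  have A := hF.mul (s1.mul s2)
  have B := (hF.mul (t1.mul s2)).smul (-1) 1 (by simp)
  have C' := (hF.mul (s1.mul t2)).smul (-1) 1 (by simp)
  have D := (hF.mul ((s1.mul s2).mul u3)).smul (-1) 1 (by simp)
  have E := ((A.add B).add C').add D
  have e1 : (fun x => ((GG n Ps B1 B2 B3 l w k1 k2 C x : ℝ) : ℂ)) =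
      (fun x => ((FF n Ps l x : ℝ) : ℂ) * ((((PP B1 (cS k1) (bb n w C x) : ℝ) : ℂ)) *
          ((PP B2 (cS k2) (bb n w C x) : ℝ) : ℂ))
        + (-1) * (((FF n Ps l x : ℝ) : ℂ) * ((((PP B1 (cE k1) (bb n w C x) : ℝ) : ℂ)) *
          ((PP B2 (cS k2) (bb n w C x) : ℝ) : ℂ)))
        + (-1) * (((FF n Ps l x : ℝ) : ℂ) * ((((PP B1 (cS k1) (bb n w C x) : ℝ) : ℂ)) *
          ((PP B2 (cE k2) (bb n w C x) : ℝ) : ℂ)))
        + (-1) * (((FF n Ps l x : ℝ) : ℂ) * ((((PP B1 (cS k1) (bb n w C x) : ℝ) : ℂ)) *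
          ((PP B2 (cS k2) (bb n w C x) : ℝ) : ℂ) *
            ∑ i ∈ B3, (1 : ℂ) * ((bb n w C x i : ℝ) : ℂ)))) := by
    funext x
    unfold GG LL
    rw [PP_cE_zero, PP_cE_one]
    push_cast
    simp only [one_mul]
    ring
  have e2 : Psi n Ps B1 B2 B3 l K k1 k2 lam1 lam2 = (fun x => F0 n Ps l x *
        (UU n K B1 k1 lam1 x * UU n K B2 k2 lam2 x)
        + ((1 : ℝ) : ℂ) * (F0 n Ps l x * (UU n K B1 k1 lam1 x * UU n K B2 k2 lam2 x))
        + ((1 : ℝ) : ℂ) * (F0 n Ps l x * (UU n K B1 k1 lam1 x * UU n K B2 k2 lam2 x))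
        + ((1 : ℝ) : ℂ) * (F0 n Ps l x * (UU n K B1 k1 lam1 x * UU n K B2 k2 lam2 x *
            ∑ i ∈ B3, ((1 : ℝ) : ℂ) * wf n K i x))) := by
    funext x
    unfold Psi
    push_cast
    simp only [one_mul]
    ring
  rw [e1, e2]
  exact E

/-- The value at `0` of the majorant `om`. -/
lemma om_zero' (m : ℕ) [NeZero m] : ∃ r : ℝ, om m 0 = (r : ℂ) ∧ 0 ≤ r ∧ r ≤ 3 + 2 * Real.log m := by
  obtain ⟨h1, h2⟩ := om_zero m
  refine ⟨(om m 0).re, ?_, ?_, h1⟩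
  · apply Complex.ext
    · simp
    · simpa using h2
  · have hd := arcs_dom m 0 1 (∅ : Finset (ZMod m)) (by simp) le_rfl
    have hz := hd.zero_val.1
    have : 0 ≤ ∑ ψ : AddChar (ZMod m) ℂ, (cf (fun x => ((1 : ℕ) : ℂ) * om m x) ψ).re :=
      Finset.sum_nonneg fun ψ _ => hd.re_nonneg ψ
    rw [hz] at this
    simpa using this

/-- Bound for the total mass of the majorant. -/
noncomputable def PsiB (B1 B2 B3 : Finset ι) (K k1 k2 : ℕ) (lam1 lam2 : ℝ) : ℝ :=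
  (lam1⁻¹ ^ k1 * ∏ i ∈ B1, (1 + lam1 * (K * (3 + 2 * Real.log (n i))))) *
  (lam2⁻¹ ^ k2 * ∏ i ∈ B2, (1 + lam2 * (K * (3 + 2 * Real.log (n i))))) *
  (3 + ∑ i ∈ B3, (K : ℝ) * (3 + 2 * Real.log (n i)))

theorem Psi_zero (Ps B1 B2 B3 : Finset ι) (l : ι → ℕ) (hl : ∀ i ∈ Ps, 0 < l i ∧ l i ≤ n i)
    (K k1 k2 : ℕ) (lam1 lam2 : ℝ) (h10 : 0 < lam1) (h20 : 0 < lam2) :
    (Psi n Ps B1 B2 B3 l K k1 k2 lam1 lam2 0).re ≤ PsiB n B1 B2 B3 K k1 k2 lam1 lam2 := by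
  choose r hr hr0 hr1 using fun i : ι => om_zero' (n i)
  have hw : ∀ i, wf n K i 0 = ((K * r i : ℝ) : ℂ) := by
    intro i
    unfold wf
    rw [map_zero, hr i]
    push_cast
    ring
  have hF : F0 n Ps l 0 = 1 := by
    unfold F0
    refine Finset.prod_eq_one fun i hi => ?_
    rw [map_zero, tent_zero _ _ (hl i hi).1 (hl i hi).2]
    simp
  have hU : ∀ (X : Finset ι) (k : ℕ) (lam : ℝ), UU n K X k lam 0 =
      ((lam⁻¹ ^ k * ∏ i ∈ X, (1 + lam * (K * r i)) : ℝ) : ℂ) := by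
    intro X k lam
    unfold UU
    simp_rw [hw]
    push_cast
    rfl
  have hP : Psi n Ps B1 B2 B3 l K k1 k2 lam1 lam2 0 =
      (((lam1⁻¹ ^ k1 * ∏ i ∈ B1, (1 + lam1 * (K * r i))) *
        (lam2⁻¹ ^ k2 * ∏ i ∈ B2, (1 + lam2 * (K * r i))) *
        (3 + ∑ i ∈ B3, (K : ℝ) * r i) : ℝ) : ℂ) := by
    unfold Psi
    rw [hF, hU, hU]
    simp_rw [hw]
    push_cast
    ring
  rw [hP, Complex.ofReal_re]
  unfold PsiB
  have hKr : ∀ i, 0 ≤ (K : ℝ) * r i := fun i => mul_nonneg (Nat.cast_nonneg _) (hr0 i)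
  have hKr' : ∀ i, (K : ℝ) * r i ≤ K * (3 + 2 * Real.log (n i)) := fun i =>
    mul_le_mul_of_nonneg_left (hr1 i) (Nat.cast_nonneg _)
  have hm : ∀ (X : Finset ι) (k : ℕ) (lam : ℝ), 0 < lam →
      lam⁻¹ ^ k * ∏ i ∈ X, (1 + lam * (K * r i)) ≤
        lam⁻¹ ^ k * ∏ i ∈ X, (1 + lam * (K * (3 + 2 * Real.log (n i)))) := by
    intro X k lam hlam
    refine mul_le_mul_of_nonneg_left ?_ (by positivity)
    refine Finset.prod_le_prod (fun i _ => ?_) (fun i _ => ?_)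
    · have := mul_nonneg hlam.le (hKr i); linarith
    · have := mul_le_mul_of_nonneg_left (hKr' i) hlam.le; linarith
  have hp : ∀ (X : Finset ι) (k : ℕ) (lam : ℝ), 0 < lam →
      0 ≤ lam⁻¹ ^ k * ∏ i ∈ X, (1 + lam * (K * r i)) := by
    intro X k lam hlam
    refine mul_nonneg (by positivity) (Finset.prod_nonneg fun i _ => ?_)
    have := mul_nonneg hlam.le (hKr i); linarith
  have h3 : (3 : ℝ) + ∑ i ∈ B3, (K : ℝ) * r i ≤ 3 + ∑ i ∈ B3, (K : ℝ) * (3 + 2 * Real.log (n i)) := by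
    have := Finset.sum_le_sum (s := B3) fun i _ => hKr' i
    linarith
  have h30 : 0 ≤ (3 : ℝ) + ∑ i ∈ B3, (K : ℝ) * r i := by
    have := Finset.sum_nonneg (s := B3) fun i _ => hKr i
    linarith
  refine mul_le_mul (mul_le_mul (hm B1 k1 lam1 h10) (hm B2 k2 lam2 h20) (hp B2 k2 lam2 h20)
    ((hp B1 k1 lam1 h10).trans (hm B1 k1 lam1 h10))) h3 h30 ?_
  exact mul_nonneg ((hp B1 k1 lam1 h10).trans (hm B1 k1 lam1 h10))
    ((hp B2 k2 lam2 h20).trans (hm B2 k2 lam2 h20))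

end Pool.Agent.Helper31.SQ
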